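import Pool.Agent.Run7.h462.BPG.Stm
import Pool.Agent.Run7.h462.KT.Stm
import Pool.Agent.W70.HR.Stm

/-!
# Project MC (helper994): the Maynard-Tao theorem in thin families

Goal: for all `d ≥ 2`, `m`, `ε > 0` there is `K` such that for every polynomial `F` of degree `d`, every admissible tuple
`h_1, ..., h_K` of FIXED integers and `N^((1 - lam d) d - 1 + ε) ≤ A ≤ c N^(d-1)`: for a positive proportion of the `a ≤ A` at least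
`c N / (log N)^K` of the `n ≤ N` have at least `m` primes among the `F(n) + a + h_i`; and with `n` and `a` exchanged.

Statements. Every statement is a `Prop` with a complete proof (or the file to copy) in its docstring. Throughout `s > 0`, `d ≥ 2`.
Pieces: TIA, ESQ, TRQ, PRQ, INQ, EQT (equidistribution of the thin sets), MLT, SMT, PAR1, MTT (the sieve engine, copies of
project HR with an additional set `T`), GEO, BSM, RUB.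
-/

set_option autoImplicit false

namespace Run7.h994.MC

open Finset Filter Topology
open Pool.Agent.H469R2.NK (e)
open Pool.Agent.N792 (tri)
open Pool.Agent.H373R2.T7 (pz Vz)
open Run7.h462.BPD (EE)
open Run7.h462.BPG (lam)
open Run7.h462.KT (gk)
open Pool.Agent.H361R2.PP (P1 P2 HH JJ Wm Pr BB PX Eqd VV rg SI SP FS S1)
open Pool.Agent.W70.HR (Bw rU Om OmP xh qh Fam vp)
open Pool.Agent.H410R2.AC (wt GG cfg term WW)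
open scoped Polynomial

/-! ### Thin sets -/

/-- **TIA**: the second derivative test with an additional linear phase. Proof: copy `Pool/Agent/Run7/h462/BPG/Ti.lean` (303 lines); the
second differences of `l ↦ s h (k l)^(1/d) + α l` do not depend on `α`. -/
def S_TIA (s : ℝ) (d : ℕ) : Prop := ∃ C : ℝ, 1 ≤ C ∧ ∀ (X X' h k b : ℕ) (α : ℝ), 1 ≤ X → X' ≤ 2 * X → 1 ≤ h → h ^ 2 ≤ X →
  1 ≤ k → k ^ 4 ≤ X → b ≤ X' / k →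
  ‖∑ l ∈ Ioc (X / k) b, e (s * h * ((k * l : ℕ) : ℝ) ^ (1 / (d : ℝ)) + α * l)‖ ≤
    C * (√(h : ℝ) * (X : ℝ) ^ (1 / 4 : ℝ) + (X : ℝ) ^ (1 - lam d / 2) / (√(h : ℝ) * k)) * (1 + Real.log X)

/-- **ESQ** (from VAU, `BPG.S_BIL`, TIA). Proof: copy `Pool/Agent/Run7/h462/BPG/Es.lean` (243 lines) with
`E n = if n ≡ r [MOD q] then EE s d H c n else 0`. Type I: for fixed `m` the indicator of `m l ≡ r (q)` is
`(1/q) ∑_{j < q} e(j (m l - r) / q)`, so the sum over `l` is at most the maximum over `α = j m / q` of the sums of TIA (times the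
sum over `h`). Type II: split `a_m`, `b_l` according to `m mod q`, `l mod q`: at most `q²` bilinear sums as in BIL (for each pair of classes
`u, v` with `u v ≡ r` the coefficients are `a_m 1[m ≡ u]`, `b_l 1[l ≡ v]`). -/
def S_ESQ (s : ℝ) (d : ℕ) : Prop := ∀ ε : ℝ, 0 < ε → ∃ C : ℝ, 1 ≤ C ∧ ∀ (X X' H q r : ℕ) (c : ℕ → ℂ), 1 ≤ q → 1 ≤ H →
  4 * H ^ 2 ≤ X → X ≤ X' → X' ≤ 2 * X → (∀ h, ‖c h‖ ≤ 1) →
  ‖∑ n ∈ (Ioc X X').filter (fun n : ℕ => n ≡ r [MOD q]), ((ArithmeticFunction.vonMangoldt n : ℝ) : ℂ) * EE s d H c n‖ ≤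
    C * (q : ℝ) ^ 2 * (X : ℝ) ^ ε * (H * (X : ℝ) ^ (3 / 4 : ℝ) + √(H : ℝ) * (X : ℝ) ^ (1 - lam d / 2))

/-- **TRQ** (from ESQ), power saving. Proof: copy `Pool/Agent/Run7/h462/BPG/Tri.lean` (386 lines), with the cut `2^I` between
`δ⁻² X^(ε/4)` and twice that (`4 (2^I)² ≤ X` because `δ ≥ X^(-1/4 + ε)`). Tail: `≤ C X / (δ 2^I) ≤ C δ X^(1 - ε/4)`. A block `H ≤ n < 2H`, weight
`≤ min (2 δ, 1 / (H² δ))`: ESQ with `ε / 16` gives at most `C δ X q² X^(ε/16) (δ⁻¹ X^(-1/4) + δ^(-1/2) X^(-lam d / 2)) ≤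
C δ X · X^(ε/8 + ε/16 - ε/2)`; there are `O(log X)` blocks. (`lam d ≤ 1/4`.) -/
def S_TRQ (s : ℝ) (d : ℕ) : Prop := ∀ ε : ℝ, 0 < ε → ε ≤ 1 → ∃ X₀ : ℕ, ∀ X X' q r : ℕ, X₀ ≤ X → X ≤ X' → X' ≤ 2 * X →
  1 ≤ q → (q : ℝ) ≤ (X : ℝ) ^ (ε / 16) → ∀ δ t : ℝ, (X : ℝ) ^ (-lam d + ε) ≤ δ → δ ≤ 1 / 2 →
  |∑ v ∈ (Ioc X X').filter (fun v : ℕ => v ≡ r [MOD q]),
      ArithmeticFunction.vonMangoldt v * tri δ (s * (v : ℝ) ^ (1 / (d : ℝ)) + t) -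
    δ * ∑ v ∈ (Ioc X X').filter (fun v : ℕ => v ≡ r [MOD q]), ArithmeticFunction.vonMangoldt v| ≤ δ * (X : ℝ) ^ (1 - ε / 8)

open Classical in
/-- the thin set: the `n ∈ [X, 2X)` such that the fractional part of `s n^(1/d) + t` is less than `κ` -/
noncomputable def TT (s : ℝ) (d : ℕ) (t κ : ℝ) (X : ℕ) : Finset ℕ :=
  (Ico X (2 * X)).filter (fun n : ℕ => Int.fract (s * (n : ℝ) ^ (1 / (d : ℝ)) + t) < κ)

open Classical in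
/-- **PRQ** (from TRQ): primes `n + a` with `n` in the thin set, in residue classes. Proof. `Y = ⌈X^(ε/32)⌉`, `δ = κ / Y`,
`θ(v) = s v^(1/d) + t`. `tri δ` is the `1`-periodic triangle function of height `1` and base `[-δ, δ]`. For `v = n + a`:
`|θ(v) - θ(n)| ≤ s a X^(1/d - 1) ≤ δ` for large `X`. So (`∑_{j ∈ J} tri δ (x - j δ)` is `1` between the first and the last `j δ`, `0` at distance
`≥ δ` and always in `[0, 1]`) `∑_{j = 2}^{Y - 2} tri δ (θ(v) - j δ) ≤ 1[n ∈ TT] ≤ ∑_{j = -1}^{Y + 1} tri δ (θ(v) - j δ)`. TRQ with `ε / 2`, `X₁ = X + a - 1`: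
`|∑_{X₁ < v ≤ y, v ≡ r + a} Λ(v) (1[v - a ∈ TT] - κ)| ≤ 4 δ ∑ Λ(v) + (Y + 3) δ X₁^(1 - ε/16) ≤ C κ X^(1 - ε/32)` for all `y ≤ 2 X₁`. Partial
summation with the weight `1 / log v` (decreasing) gives the same bound for the sum over the prime powers with weights `Λ(v) / log v`; the proper prime powers contribute at most
`C √X log X ≤ κ X^(1 - ε/32)` (`κ ≥ X^(-1/4)`). See `Pool/Agent/Run7/h994/BPD/FM.lean`, `FMa.lean` for lemmas on `tri`. -/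
def S_PRQ (s : ℝ) (d : ℕ) : Prop := ∀ ε Λ : ℝ, 0 < ε → ε ≤ 1 → 0 < Λ → ∃ X₀ : ℕ, ∀ X q r a : ℕ, X₀ ≤ X → 1 ≤ q →
  (q : ℝ) ≤ (X : ℝ) ^ (ε / 64) → 1 ≤ a → (a : ℝ) ≤ Λ * Real.log X → ∀ κ t : ℝ, (X : ℝ) ^ (-lam d + ε) ≤ κ → κ ≤ 1 / 4 →
  |(#((TT s d t κ X).filter (fun n : ℕ => n ≡ r [MOD q] ∧ (n + a).Prime)) : ℝ) -
    κ * #((Ico X (2 * X)).filter (fun n : ℕ => n ≡ r [MOD q] ∧ (n + a).Prime))| ≤ κ * (X : ℝ) ^ (1 - ε / 64)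

/-- **INQ**: integers of the thin set in residue classes, elementary. Proof. `g(y) = ((y - t) / s)^d`, convex and increasing for `y ≥ t`. `n ∈ TT` iff for the
integer `m = ⌊s n^(1/d) + t⌋`: `g(m) ≤ n < g(m + κ)`. There are at most `C X^(1/d)` possible `m`, and for each the number of the `n ≡ r (q)` in
`[g(m), g(m + κ)) ∩ [X, 2X)` is `(length)/q + O(1)`. By convexity `κ (g(m) - g(m-1)) ≤ g(m + κ) - g(m) ≤ κ (g(m+1) - g(m))`, so the sum of the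
lengths is `κ X + O(κ (g(M + 2) - g(M)))`, `M` the largest `m`, and this is `κ X + O(κ X^(1 - 1/d))`. (`C` depends on `s`, `d`.) -/
def S_INQ (s : ℝ) (d : ℕ) : Prop := ∃ C : ℝ, 1 ≤ C ∧ ∀ X q r : ℕ, 1 ≤ X → 1 ≤ q → ∀ κ t : ℝ, 0 < κ → κ ≤ 1 →
  |(#((TT s d t κ X).filter (fun n : ℕ => n ≡ r [MOD q])) : ℝ) - κ * ((X : ℝ) / q)| ≤
    C * ((X : ℝ) ^ (1 / (d : ℝ)) + κ * (X : ℝ) ^ (1 - 1 / (d : ℝ)))

open Classical in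
/-- equidistribution of the integers of `T` in the class `b` modulo `Wm X`, of relative mass `κ`, level `X^lv` -/
def EI (X b : ℕ) (T : Finset ℕ) (κ lv : ℝ) (K A : ℕ) : Prop := ∃ Er : Finset ℕ → ℝ,
  Eqd none ((PX X).filter (fun p : ℕ => (p : ℝ) ≤ (X : ℝ) ^ (1 / 2 : ℝ))) ((SI X b).filter (fun n => n ∈ T))
    (κ * ((X : ℝ) / Wm X)) Er ∧
  ∑ D ∈ (PX X).powerset.filter (fun D : Finset ℕ => ∏ p ∈ D, (p : ℝ) ≤ (X : ℝ) ^ lv),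
    (K : ℝ) ^ D.card * Er D ≤ κ * ((X : ℝ) / Wm X) / Real.log X ^ A

open Classical in
/-- the same for the `n` of `T` with `n + a₀` prime -/
def EP (X b a₀ : ℕ) (T : Finset ℕ) (κ lv : ℝ) (K A : ℕ) : Prop := ∃ Er : Finset ℕ → ℝ,
  Eqd (some a₀) ((PX X).filter (fun p : ℕ => (p : ℝ) ≤ (X : ℝ) ^ (1 / 2 : ℝ))) ((SP X b a₀).filter (fun n => n ∈ T))
    (κ * (Pr X / Nat.totient (Wm X))) Er ∧
  ∑ D ∈ (PX X).powerset.filter (fun D : Finset ℕ => ∏ p ∈ D, (p : ℝ) ≤ (X : ℝ) ^ lv),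
    (K : ℝ) ^ D.card * Er D ≤ κ * (Pr X / Nat.totient (Wm X)) / Real.log X ^ A

/-- **EQT** (from INQ, PRQ and `EqPrime` of the starting tree, `Pool.Agent.H96R2.EQP.eqPrime`). Proof. The conditions `n % Wm X = b`, `n % p = r % p` (`p ∈ D`)
are one class modulo `q = Wm X ∏_{p ∈ D} p` (CRT). If `q ≤ X^(ε/64)` put `Er D = C (X^(1/d) + κ X^(1 - 1/d))` for the integers and
`Er' D = κ Er₀ D + κ X^(1 - ε/64)` with `Er₀` from `EqPrime` for the primes; otherwise take any valid large number (e.g. `2 X + (the mass)`), these `D` do not occur in the sums: `Wm X ≤ (log X)^(7/20)` (`Pool.Agent.H325R2.wtx`),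
`∏ ≤ X^(ε/256)`. The sum of `K^|D|` over the `D` with product `≤ X^(ε/256)` is at most `X^(ε/128)` (`K^|D| ≤ C_η (∏ p)^η`, and `D` is determined by its product).
`κ ≥ X^(-lam d + ε)`, `lam d ≤ 1/4`, `lam d ≤ 1/d`, and the hypotheses imply `ε ≤ lam d ≤ 1/d` for large `X`. The first part of `Eqd (some a₀)`: a prime `n + a₀ > X^(1/2)` is not divisible by `p`. -/
def S_EQT (s : ℝ) (d : ℕ) : Prop := ∀ (ε Λ : ℝ) (K A : ℕ), 0 < ε → ε ≤ 1 → 0 < Λ → ∃ X₀ : ℕ, ∀ X : ℕ, X₀ ≤ X →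
  ∀ b : ℕ, b < Wm X → ∀ κ t : ℝ, (X : ℝ) ^ (-lam d + ε) ≤ κ → κ ≤ 1 / 4 →
  EI X b (TT s d t κ X) κ (ε / 256) K A ∧ ∀ a₀ ∈ Bw Λ X b, EP X b a₀ (TT s d t κ X) κ (ε / 256) K A

/-! ### The engine -/

open Classical in
/-- **MLT**: correlations. Proof: copy `Pool/Agent/W327/HR/Mlb.lean` (`core`, `ml_of`; the level `X^(1/2 - θ)` becomes `X^lv` and `X^(1/2 - 2θ)` becomes
`X^(lv - θ)`; `SI`, `SP` are replaced by their parts in `T` and `Om`, `OmP` by `κ Om`, `κ OmP`; EI and EP replace `EqInt` and `EqPrime`; `K` from `S_MLA`, `A = N + 2`). -/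
def S_MLT : Prop := ∀ (N m : ℕ) (Λ lv θ s : ℝ), 0 < Λ → 0 < θ → θ ≤ lv → lv ≤ 1 / 4 → 0 < s →
  ∃ (K A : ℕ) (δ₀ : ℝ), 0 < δ₀ ∧ ∀ δ : ℝ, 0 < δ → δ ≤ δ₀ → ∃ X₀ : ℕ, ∀ X : ℕ, X₀ ≤ X → ∀ b : ℕ, b < Wm X →
  ∀ (T : Finset ℕ) (κ : ℝ), 0 < κ → EI X b T κ lv K A →
  ∀ U ⊆ Bw Λ X b, U.card ≤ N → ∀ (F F' : ℕ → Finset (Finset ℕ)) (u u' : ℕ → ℝ),
  (∀ a ∈ U, 0 ≤ u a ∧ Fam δ X (u a) (F a)) → (∀ a ∈ U, 0 ≤ u' a ∧ Fam δ X (u' a) (F' a)) →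
  ∑ a ∈ U, (u a + u' a) ≤ lv - θ →
  ((∀ a ∈ U, F a = F' a) ∨ ∃ a ∈ U, Disjoint (F a) (F' a)) →
  |∑ n ∈ (SI X b).filter (fun n => n ∈ T), rU δ X U n * ((∏ a ∈ U, FS (F a) a n) * ∏ a ∈ U, FS (F' a) a n) -
    (if ∀ a ∈ U, F a = F' a then κ * Om δ X U.card * ∏ a ∈ U, GG (F a) else 0)| ≤ s * δ ^ m * (κ * Om δ X U.card) ∧
  ∀ a₀ ∈ Bw Λ X b \ U, EP X b a₀ T κ lv K A →
  |∑ n ∈ (SP X b a₀).filter (fun n => n ∈ T), rU δ X U n * ((∏ a ∈ U, FS (F a) a n) * ∏ a ∈ U, FS (F' a) a n) -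
    (if ∀ a ∈ U, F a = F' a then κ * OmP δ X U.card * ∏ a ∈ U, GG (F a) else 0)| ≤ s * δ ^ m * (κ * OmP δ X U.card)

/-- **SMT** (from MLT with `θ = lv / 2`): second moments. Proof: copy the end of `Pool/Agent/W335/HR/SM.lean` (`corr` with the hypothesis `∑ (u + u') ≤ lv - lv/2` and
`ψ = {∅}`, `v = 0`; `moment` can be used as it is). -/
def S_SMT : Prop := ∀ (N m t : ℕ) (u β : Fin t → ℝ) (Λ lv s : ℝ), (∀ τ, 0 < u τ ∧ 0 < β τ) →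
  ∑ τ, β τ = 1 → ∑ τ, u τ ≤ lv / 4 → 0 < Λ → 0 < lv → lv ≤ 1 / 4 → 0 < s →
  ∃ (K A : ℕ) (δ₀ : ℝ), 0 < δ₀ ∧ ∀ δ : ℝ, 0 < δ → δ ≤ δ₀ → ∃ X₀ : ℕ, ∀ X : ℕ, X₀ ≤ X → ∀ b : ℕ, b < Wm X →
  ∀ (T : Finset ℕ) (κ : ℝ), 0 < κ → EI X b T κ lv K A →
  ∀ S : Fin t → Finset (Finset ℕ), (∀ τ, Fam δ X (u τ) (S τ)) → (∀ τ, ∅ ∉ S τ) →
  (∀ τ τ', τ ≠ τ' → Disjoint (S τ) (S τ')) → (∀ τ, 1 ≤ GG (S τ)) →
  ∀ γ : ℝ, 0 ≤ γ → 1 + γ ≤ (1 / δ) ^ m → ∀ U ⊆ Bw Λ X b, U.card ≤ N → ∀ B ⊆ U,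
  ∀ c : (Fin t → Option ℕ) → ℝ, (∀ σ, |c σ| ≤ (1 + γ) ^ 2) →
    |∑ n ∈ (SI X b).filter (fun n => n ∈ T), rU δ X U n * WW B c (xh γ β S n) ^ 2 -
      κ * Om δ X U.card * ∑ σ ∈ cfg t B, c σ ^ 2 * term (qh γ β S) σ| ≤ s * (κ * Om δ X U.card) ∧
    ∀ a₀ ∈ Bw Λ X b \ U, EP X b a₀ T κ lv K A →
      |∑ n ∈ (SP X b a₀).filter (fun n => n ∈ T), rU δ X U n * WW B c (xh γ β S n) ^ 2 -
        κ * OmP δ X U.card * ∑ σ ∈ cfg t B, c σ ^ 2 * term (qh γ β S) σ| ≤ s * (κ * OmP δ X U.card)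

/-- **PAR1**: the choice of the parameters, small level. Proof: copy `Pool/Agent/W333/HR/Par.lean` with `T = 1` and the total size `lv / 4`
(`Types` is applied with `lv / 4` instead of `θ / 2`); nothing about `S1`. Inputs as there: `Pool.Agent.H410R2.AC.Types`, `GGTypes`, `Mer`, `S_MV`, `PntX`, `Wtx`. -/
def S_PAR1 : Prop := ∀ (μ s lv : ℝ), 0 < μ → 0 < s → 0 < lv → lv ≤ 1 / 16 → ∃ (t K : ℕ)
  (u β : Fin t → ℝ), 1 ≤ K ∧ (∀ τ, 0 < u τ ∧ 0 < β τ) ∧ ∑ τ, β τ = 1 ∧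
  ∑ τ, u τ ≤ lv / 4 ∧ ∃ δ₀ : ℝ, 0 < δ₀ ∧ ∀ δ : ℝ, 0 < δ → δ ≤ δ₀ → ∃ X₀ : ℕ, ∀ X : ℕ, X₀ ≤ X →
  ∃ (S : Fin t → Finset (Finset ℕ)) (γ : ℝ), (∀ τ, Fam δ X (u τ) (S τ)) ∧ (∀ τ, ∅ ∉ S τ) ∧
    (∀ τ τ', τ ≠ τ' → Disjoint (S τ) (S τ')) ∧ (∀ τ, 1 ≤ GG (S τ)) ∧
    0 ≤ γ ∧ 1 + γ ≤ (1 / δ) ^ 2 ∧ 0 < VV δ X ∧ 0 < vp δ X ∧ vp δ X * (1 + γ) ^ 2 = μ / K ∧
    (∀ τ, (K : ℝ) * (γ ^ 2 * (β τ ^ 2 / GG (S τ))) ≤ s) ∧ ∑ τ, γ ^ 2 * (β τ ^ 2 / GG (S τ)) ≤ s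

/-- **MTT** (from SMT, PAR1, `S_PT` and the pieces `Col`, `Cob`, `Mni`, `Wtx` used in `Pool/Agent/W70/HR/Wt.lean`): the Maynard-Tao theorem in the set `T`, right order of
magnitude. Proof: `μ = 2 m + 2`, `s` small; copy `Pool/Agent/W70/HR/WtA.lean` (`W1`, `W2` only) and `Wt.lean`, with `N = K` positions: weights `w ≥ 0`, `w ≤ M₀ rU`, with
`Z = κ Om · ZB ≥ κ Om > 0`, `∑ w ≤ (1 + s) Z` and `∑_{n ∈ SP a} w ≥ (1 - s) (μ / K) Z` for every `a ∈ B`. So `∑ w · #{a : n + a prime} ≥ (1 - s) μ Z`, and as this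
number is `≤ K`: `∑_{≥ m primes} w ≥ ((1 - s) μ - m (1 + s)) Z / K ≥ Z / K`. Then `#{...} ≥ κ Om / (K M₀)`. The `EP` hypothesis is used for `a ∈ B` with `U = B.erase a`. -/
def S_MTT : Prop := ∀ (m : ℕ) (lv : ℝ), 0 < lv → lv ≤ 1 / 16 → ∃ K : ℕ, 1 ≤ K ∧ ∀ Λ : ℝ, 0 < Λ →
  ∃ (δ c : ℝ) (K' A' X₀ : ℕ), 0 < δ ∧ δ ≤ 1 / 8 ∧ 0 < c ∧ ∀ X : ℕ, X₀ ≤ X → 0 < VV δ X ∧ ∀ b : ℕ, b < Wm X →
  ∀ (T : Finset ℕ) (κ : ℝ), 0 < κ → EI X b T κ lv K' A' →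
  ∀ B ⊆ Bw Λ X b, B.card = K → (∀ a ∈ B, EP X b a T κ lv K' A') →
  c * (κ * Om δ X K) ≤ (#(((SI X b).filter (fun n => n ∈ T)).filter (fun n =>
    (∀ a ∈ B, rg (P1 (HH X) (JJ δ X)) a n = 1) ∧ m ≤ #(B.filter (fun a => (n + a).Prime)))) : ℝ)

/-! ### Geometry and sieve -/

/-- **GEO**: `F` of degree `d ≥ 2`, leading coefficient `ℓ > 0`, next coefficient `b`, `s = ℓ^(-1/d)`. Proof. `β = b / (d ℓ)`: `|F(m) - ℓ (m + β)^d| ≤ C m^(d-2)` for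
`m ≥ 1` (see `Pool/Agent/Run7/h973/BPG/FM.lean`). Let `X = ⌊ℓ (N/4)^d⌋` (or smaller by a constant), `κ = c₂ A / N^(d-1)` with a small constant `c₂`, `t = -β - κ`. If the fractional part of `s v^(1/d) + t` is
`< κ` then `s v^(1/d) - β = m + φ` with an integer `m` and `κ ≤ φ < 2 κ`; `c N ≤ m ≤ N - 1`; `v = ℓ (m + φ + β)^d`, so `v - F(m)` is between
`ℓ d κ (m + β)^(d-1) - C N^(d-2) ≥ 1` (since `A ≥ N^(d-2) log N`) and `2 κ ℓ d (N + |β| + 1)^(d-1) + C N^(d-2) ≤ A`. -/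
def S_GEO (F : ℤ[X]) : Prop := ∃ (β c C : ℝ) (N₀ : ℕ), 0 < c ∧ 1 ≤ C ∧ ∀ N A : ℕ, N₀ ≤ N →
  (N : ℝ) ^ (F.natDegree - 2) * Real.log N ≤ A → (A : ℝ) ≤ c * (N : ℝ) ^ (F.natDegree - 1) →
  ∃ (X : ℕ) (κ : ℝ), c * (N : ℝ) ^ F.natDegree ≤ X ∧ (X : ℝ) ≤ C * (N : ℝ) ^ F.natDegree ∧
    c * (A / (N : ℝ) ^ (F.natDegree - 1)) ≤ κ ∧ κ ≤ 1 / 4 ∧
    ∀ v ∈ TT ((F.leadingCoeff : ℝ) ^ (-1 / (F.natDegree : ℝ))) F.natDegree (β - κ) κ X,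
      ∃ n ∈ Icc 1 N, ∃ a ∈ Icc 1 A, (v : ℤ) = F.eval (n : ℤ) + a

/-- the tuple is admissible -/
def Adm {k : ℕ} (h : Fin k → ℕ) : Prop := ∀ p : ℕ, p.Prime → ∃ x : ℕ, ∀ i, ¬ p ∣ x + h i

/-- **BSM**: the number of the classes modulo `Wm X` for which all `b + 1 + h_i` are coprime to `Wm X`. Proof: by CRT it is `∏_{p ≤ HH X} (p - ν_p)`, `ν_p` the number of the residue
classes of the `h_i`; `ν_p < p`, and `ν_p = k` for the `p` larger than all `h_i`; `(1 - k/p) / (1 - 1/p)^k ≥ 1 - C/p²`. (For the CRT see `coprime_count`, `loc_count` in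
`Pool/Agent/Run7/h304/KT/GA.lean`, or `gW` and `Pool.Agent.W918.HR.Ctb.ctb` with the positivity of `CT`; or induction over the primes.) `φ(Wm X) / Wm X = ∏_{p ≤ HH X} (1 - 1/p)`. -/
def S_BSM (k : ℕ) : Prop := ∀ h : Fin k → ℕ, Function.Injective h → Adm h → ∃ c : ℝ, 0 < c ∧ ∃ X₀ : ℕ, ∀ X : ℕ, X₀ ≤ X →
  c * (Wm X * ((Nat.totient (Wm X) : ℝ) / Wm X) ^ k) ≤
    (#((range (Wm X)).filter (fun b => ∀ i, (b + 1 + h i).Coprime (Wm X))) : ℝ)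

open Classical in
/-- the number of the `1 ≤ y ≤ N` for which the `F(A₀ + y) + a_i` have no prime factor `≤ z` -/
noncomputable def Rk {k : ℕ} (F : ℤ[X]) (a : Fin k → ℕ) (A₀ : ℤ) (z N : ℕ) : ℕ :=
  #((Icc 1 N).filter (fun y : ℕ => ∀ i, ∀ p : ℕ, p.Prime → p ≤ z → ¬ (p : ℤ) ∣ F.eval (A₀ + y) + a i))

/-- **RUB**: upper bound for rough values. Proof: as `Run7.h824.KT.upk` (`Pool/Agent/Run7/h824/KT/UPK.lean`; `flp (k d)` for `KT.Q F a`, any start `A₀`), `z = ⌊N^(min (1/D) ρ)⌋`; if `rk F a p = p` for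
some `p ≤ z` then `Rk = 0`. -/
def S_RUB (F : ℤ[X]) (k : ℕ) : Prop := ∀ ρ : ℝ, 0 < ρ → ρ ≤ 1 / 10 → ∃ C κ : ℝ, 1 ≤ C ∧ 0 < κ ∧ κ ≤ ρ ∧ ∃ N₀ : ℕ,
  ∀ N : ℕ, N₀ ≤ N → ∃ z : ℕ, 2 ≤ z ∧ (N : ℝ) ^ κ ≤ z ∧ (z : ℝ) ≤ (N : ℝ) ^ ρ ∧
  ∀ (a : Fin k → ℕ) (A₀ : ℤ), (Rk F a A₀ z N : ℝ) ≤ C * N * (Vz z ^ k * gk F a z)

end Run7.h994.MC
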