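import Pool.Agent.Run7.h994.MC.Stm
import Pool.Agent.W70.HR.Wt

/-!
# Project MC, piece MTT: the Maynard-Tao theorem in a set `T` (the text is that of `Pool/Agent/W70/HR/WtA.lean`, `Wt.lean`)
-/

set_option autoImplicit false

open Finset

namespace Run7.h994.MC

open Pool.Agent.H361R2.PP
open Pool.Agent.W70.HR
open Pool.Agent.H410R2.AC (wt GG cfg term WW pos Inj coef)

open Classical in
/-- the conclusion of `S_SMT` for one class, with `EP` for the positions of `G` -/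
def SMbT {t : ℕ} (Λ δ s γ κ : ℝ) (X b N : ℕ) (β : Fin t → ℝ) (S : Fin t → Finset (Finset ℕ)) (T G : Finset ℕ) :
    Prop :=
  ∀ U ⊆ Bw Λ X b, U.card ≤ N → ∀ B ⊆ U,
  ∀ c : (Fin t → Option ℕ) → ℝ, (∀ σ, |c σ| ≤ (1 + γ) ^ 2) →
    |∑ n ∈ (SI X b).filter (fun n => n ∈ T), rU δ X U n * WW B c (xh γ β S n) ^ 2 -
      κ * Om δ X U.card * ∑ σ ∈ cfg t B, c σ ^ 2 * term (qh γ β S) σ| ≤ s * (κ * Om δ X U.card) ∧
    ∀ a₀ ∈ Bw Λ X b \ U, a₀ ∈ G →
      |∑ n ∈ (SP X b a₀).filter (fun n => n ∈ T), rU δ X U n * WW B c (xh γ β S n) ^ 2 -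
        κ * OmP δ X U.card * ∑ σ ∈ cfg t B, c σ ^ 2 * term (qh γ β S) σ| ≤ s * (κ * OmP δ X U.card)

/-- the standing situation -/
structure WstT {t : ℕ} (Λ δ s η γ κ : ℝ) (X b N : ℕ) (β : Fin t → ℝ)
    (S : Fin t → Finset (Finset ℕ)) (T G : Finset ℕ) : Prop where
  sm : SMbT Λ δ s γ κ X b N β S T G
  s0 : 0 ≤ s
  κ0 : 0 < κ
  γ0 : 0 ≤ γ
  β0 : ∀ τ, 0 ≤ β τ
  β1 : ∑ τ, β τ = 1
  gg : ∀ τ, 1 ≤ GG (S τ)
  hS : ∀ τ, ∀ R ∈ S τ, R ⊆ P2 (JJ δ X) X
  η0 : 0 ≤ η
  hη : ∀ τ, (N : ℝ) * (γ ^ 2 * (β τ ^ 2 / GG (S τ))) ≤ η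
  hq : ∑ τ, γ ^ 2 * (β τ ^ 2 / GG (S τ)) ≤ η
  pJ : 2 ^ 2 ^ JJ δ X ≤ X
  v0 : 0 < VV δ X
  hX : 1 ≤ X

section

variable {t : ℕ} {Λ δ s η γ κ : ℝ} {X b N : ℕ} {β : Fin t → ℝ} {S : Fin t → Finset (Finset ℕ)}
  {T G : Finset ℕ}

theorem xh_primeT (h : WstT Λ δ s η γ κ X b N β S T G) {n a : ℕ} (hn : X ≤ n) (ha : 1 ≤ a)
    (hp : (n + a).Prime) (τ : Fin t) : xh γ β S n τ a = γ * β τ := by
  unfold xh
  rw [FS_prime (P2_lt hn ha) (h.hS τ) hp]
  have h1 := h.gg τ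
  have : GG (S τ) ≠ 0 := by linarith
  field_simp

theorem rU_eraseT (h : WstT Λ δ s η γ κ X b N β S T G) {U : Finset ℕ} {n a : ℕ} (ha : a ∈ U)
    (hn : X ≤ n) (ha1 : 1 ≤ a) (hp : (n + a).Prime) : rU δ X U n = rU δ X (U.erase a) n := by
  unfold rU
  rw [← mul_prod_erase U _ ha, rg_prime (P1_lt h.pJ hn ha1) hp, one_mul]

theorem qh_nonnegT (h : WstT Λ δ s η γ κ X b N β S T G) (τ : Fin t) (a : ℕ) : 0 ≤ qh γ β S τ a := by
  unfold qh
  have := h.gg τ
  positivity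

theorem termq_nonnegT (h : WstT Λ δ s η γ κ X b N β S T G) (σ : Fin t → Option ℕ) :
    0 ≤ term (qh γ β S) σ := by
  unfold term
  refine prod_nonneg fun τ _ => ?_
  cases σ τ with
  | none => exact zero_le_one
  | some a => exact qh_nonnegT h τ a

theorem OmP_nonnegT (h : WstT Λ δ s η γ κ X b N β S T G) (m : ℕ) : 0 ≤ OmP δ X m := by
  unfold OmP
  exact mul_nonneg (Om'_nonneg X) (pow_nonneg h.v0.le _)

theorem Om_posT (h : WstT Λ δ s η γ κ X b N β S T G) (m : ℕ) : 0 < Om δ X m := by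
  unfold Om
  have h1 : (0 : ℝ) < X := by exact_mod_cast h.hX
  have h2 : (0 : ℝ) < Wm X := by exact_mod_cast Pool.Agent.H361R2.PP.Wm_pos X
  exact mul_pos (div_pos h1 h2) (pow_pos h.v0 _)

theorem OmP_eqT (h : WstT Λ δ s η γ κ X b N β S T G) (m : ℕ) :
    OmP δ X m = vp δ X * Om δ X (m + 1) := by
  have h1 : (0 : ℝ) < X := by exact_mod_cast h.hX
  have h2 : (0 : ℝ) < Wm X := by exact_mod_cast Pool.Agent.H361R2.PP.Wm_pos X
  have h3 := h.v0
  unfold OmP vp Om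
  rw [pow_succ]
  field_simp

theorem mni_ofT (hMni : Mni) (h : WstT Λ δ s η γ κ X b N β S T G) {B : Finset ℕ} (hB : B.card = N) :
    1 ≤ ZB γ β S B ∧ ∀ B' ⊆ B,
    ∑ σ ∈ cfg t B', coef β σ * term (qh γ β S) σ ≤ η * ZB γ β S B ∧
    ∑ σ ∈ cfg t B', term (qh γ β S) σ ≤ ZB γ β S B ∧
    (1 - ∑ τ, ∑ a ∈ B \ B', qh γ β S τ a) * ZB γ β S B ≤
      ∑ σ ∈ cfg t B', term (qh γ β S) σ := by
  obtain ⟨h1, -, h2⟩ := hMni t B β (qh γ β S) η h.η0 h.β0 h.β1 (fun τ a => qh_nonnegT h τ a)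
    (fun τ => by rw [sumq, hB]; exact h.hη τ)
  refine ⟨h1, fun B' hB' => ?_⟩
  obtain ⟨h3, -, h4, h5⟩ := h2 B' hB'
  exact ⟨h3, h4, h5⟩

open Classical in
/-- total mass of the weights -/
theorem W1T (hMni : Mni) (h : WstT Λ δ s η γ κ X b N β S T G) {B : Finset ℕ} (hB : B.card = N)
    (hBs : B ⊆ Bw Λ X b) :
    ∑ n ∈ (SI X b).filter (fun n => n ∈ T), ww δ γ X β S B n ≤ (1 + s) * (κ * Om δ X N * ZB γ β S B) := by
  have hγ := h.γ0
  have h1 := (h.sm B hBs hB.le B subset_rfl (fun _ => 1) (fun σ => by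
    rw [abs_one]; nlinarith)).1
  rw [hB] at h1
  have hZ := (mni_ofT hMni h hB).1
  have h2 := (abs_le.1 h1).2
  have h3 : ∑ σ ∈ cfg t B, (1 : ℝ) ^ 2 * term (qh γ β S) σ = ZB γ β S B := by
    unfold ZB
    refine sum_congr rfl fun σ _ => by ring
  rw [h3] at h2
  have h4 : 0 ≤ κ * Om δ X N := mul_nonneg h.κ0.le (Om_posT h N).le
  have h5 : s * (κ * Om δ X N) ≤ s * (κ * Om δ X N * ZB γ β S B) := by
    apply mul_le_mul_of_nonneg_left _ h.s0
    nlinarith
  unfold ww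
  linarith

open Classical in
/-- sums over primes -/
theorem W2T (hCol : Col) (hCob : Cob) (hMni : Mni) (h : WstT Λ δ s η γ κ X b N β S T G) {B : Finset ℕ}
    (hB : B.card = N) (hBs : B ⊆ Bw Λ X b) {a : ℕ} (ha : a ∈ B) (haG : a ∈ G) :
    (1 - 3 * η - s) * (vp δ X * (1 + γ) ^ 2 * (κ * Om δ X N * ZB γ β S B)) ≤
      ∑ n ∈ (SP X b a).filter (fun n => n ∈ T), ww δ γ X β S B n := by
  have ha1 : 1 ≤ a := mem_Bw1 (hBs ha)
  have hc := h.γ0
  have hs := h.s0
  have hcoll : ∀ n ∈ (SP X b a).filter (fun n => n ∈ T), ww δ γ X β S B n =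
      rU δ X (B.erase a) n * WW (B.erase a) (co1 γ β) (xh γ β S n) ^ 2 := by
    intro n hn
    rw [mem_filter, mem_SP] at hn
    obtain ⟨hn, -⟩ := hn
    unfold ww
    rw [(hCol t B β (xh γ β S n) (fun _ => γ)).1 a ha
      (fun τ => xh_primeT h hn.1 ha1 hn.2.2.2 τ), rU_eraseT h ha hn.1 ha1 hn.2.2.2]
  rw [sum_congr rfl hcoll]
  have hcob := (hCob t β h.β0 h.β1)
  have hc0 : ∀ σ, |co1 γ β σ| ≤ (1 + γ) ^ 2 := by
    intro σ
    obtain ⟨-, h1, h2, -, -⟩ := hcob.2 γ hc σ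
    rw [abs_of_nonneg h1]
    nlinarith
  have hcard : (B.erase a).card + 1 = N := by
    rw [card_erase_of_mem ha, hB]
    have : 0 < B.card := card_pos.2 ⟨a, ha⟩
    omega
  have h3 := ((h.sm (B.erase a) ((erase_subset _ _).trans hBs) (by omega) (B.erase a) subset_rfl
    (co1 γ β) hc0).2 a (by rw [mem_sdiff]; exact ⟨hBs ha, notMem_erase a B⟩)) haG
  set Ω := κ * OmP δ X (B.erase a).card with hΩ
  have hΩ0 : 0 ≤ Ω := mul_nonneg h.κ0.le (OmP_nonnegT h _)
  have hΩe : Ω = vp δ X * (κ * Om δ X N) := by rw [hΩ, OmP_eqT h, hcard]; ring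
  obtain ⟨hM1, hM⟩ := mni_ofT hMni h hB
  obtain ⟨hm1, hm3, hm4⟩ := hM (B.erase a) (erase_subset _ _)
  set M := ZB γ β S B with hMdef
  set M' := ∑ σ ∈ cfg t (B.erase a), term (qh γ β S) σ with hM'def
  have hsd : B \ B.erase a = {a} := by
    ext x
    simp only [mem_sdiff, mem_erase, mem_singleton]
    constructor
    · rintro ⟨h1, h2⟩
      by_contra h3
      exact h2 ⟨h3, h1⟩
    · rintro rfl
      exact ⟨ha, fun h => h.1 rfl⟩
  rw [hsd] at hm4
  simp only [sum_singleton] at hm4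
  have hMq : ∑ τ, qh γ β S τ a ≤ η := h.hq
  have hη := h.η0
  have hM'1 : (1 - η) * M ≤ M' := by
    refine le_trans ?_ hm4
    apply mul_le_mul_of_nonneg_right _ (by linarith)
    linarith
  set Z' := ∑ σ ∈ cfg t (B.erase a), co1 γ β σ ^ 2 * term (qh γ β S) σ with hZ'
  have hlow : (1 + γ) ^ 2 * M' - 2 * γ * (1 + γ) * (η * M) ≤ Z' := by
    calc (1 + γ) ^ 2 * M' - 2 * γ * (1 + γ) * (η * M) ≤
        (1 + γ) ^ 2 * M' - 2 * γ * (1 + γ) *
          ∑ σ ∈ cfg t (B.erase a), coef β σ * term (qh γ β S) σ := by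
          have := mul_le_mul_of_nonneg_left hm1 (by positivity : 0 ≤ 2 * γ * (1 + γ))
          linarith
      _ = ∑ σ ∈ cfg t (B.erase a), ((1 + γ) ^ 2 - 2 * γ * (1 + γ) * coef β σ) *
            term (qh γ β S) σ := by
          rw [hM'def, mul_sum, mul_sum, ← sum_sub_distrib]
          refine sum_congr rfl fun σ _ => ?_
          ring
      _ ≤ _ := by
          refine sum_le_sum fun σ _ => ?_
          obtain ⟨h1, -, -, -, -⟩ := hcob.2 γ hc σ
          exact mul_le_mul_of_nonneg_right h1 (termq_nonnegT h σ)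
  have hM0 : 0 ≤ M := by linarith
  have h1c : (1 : ℝ) ≤ (1 + γ) ^ 2 := by nlinarith
  have hsM : s ≤ s * ((1 + γ) ^ 2 * M) := by
    have : (1 : ℝ) ≤ (1 + γ) ^ 2 * M := by nlinarith
    nlinarith
  have h4 := abs_le.1 h3
  have hre : vp δ X * (1 + γ) ^ 2 * (κ * Om δ X N * M) = Ω * ((1 + γ) ^ 2 * M) := by
    rw [hΩe]; ring
  rw [hre]
  have h5 : (1 - 3 * η - s) * ((1 + γ) ^ 2 * M) ≤ Z' - s := by
    have h6 : (1 + γ) ^ 2 * ((1 - η) * M) ≤ (1 + γ) ^ 2 * M' :=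
      mul_le_mul_of_nonneg_left hM'1 (by positivity)
    have h7 : 2 * γ * (1 + γ) * (η * M) ≤ 2 * (1 + γ) ^ 2 * (η * M) := by
      apply mul_le_mul_of_nonneg_right _ (by positivity)
      nlinarith
    nlinarith
  have h6 := mul_le_mul_of_nonneg_left h5 hΩ0
  rw [mul_sub] at h6
  have h7 : (1 - 3 * η - s) * (Ω * ((1 + γ) ^ 2 * M)) =
    Ω * ((1 - 3 * η - s) * ((1 + γ) ^ 2 * M)) := by ring
  rw [h7]
  linarith [h4.1]

end

open Classical in
/-- the counting argument -/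
theorem count_aux {Ω : Finset ℕ} {w : ℕ → ℝ} {B : Finset ℕ} {R : ℕ → Prop} {m K : ℕ} {μ Z M₀ : ℝ} (hK : B.card = K)
    (hK1 : 1 ≤ K) (hw0 : ∀ n ∈ Ω, 0 ≤ w n) (hwM : ∀ n ∈ Ω, w n ≤ M₀ * (if R n then 1 else 0)) (hM₀ : 0 < M₀)
    (hZ : 0 < Z) (h1 : ∑ n ∈ Ω, w n ≤ (1 + 1 / 10) * Z) (hμ : μ = 2 * m + 2)
    (h2 : ∀ a ∈ B, (1 - 4 / 10) * (μ / K * Z) ≤ ∑ n ∈ Ω.filter (fun n => (n + a).Prime), w n) :
    Z / (K * M₀) ≤ (#(Ω.filter (fun n => R n ∧ m ≤ #(B.filter (fun a => (n + a).Prime)))) : ℝ) := by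
  have hKr : (0 : ℝ) < K := by exact_mod_cast hK1
  have h3 : (1 - 4 / 10) * (μ * Z) ≤ ∑ n ∈ Ω, w n * #(B.filter (fun a => (n + a).Prime)) := by
    calc (1 - 4 / 10) * (μ * Z) = ∑ a ∈ B, (1 - 4 / 10) * (μ / K * Z) := by
          rw [sum_const, hK, nsmul_eq_mul]
          field_simp
      _ ≤ ∑ a ∈ B, ∑ n ∈ Ω.filter (fun n => (n + a).Prime), w n := sum_le_sum h2
      _ = ∑ a ∈ B, ∑ n ∈ Ω, (if (n + a).Prime then w n else 0) := by
          refine sum_congr rfl fun a _ => ?_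
          rw [sum_filter]
      _ = ∑ n ∈ Ω, ∑ a ∈ B, (if (n + a).Prime then w n else 0) := sum_comm
      _ = ∑ n ∈ Ω, w n * #(B.filter (fun a => (n + a).Prime)) := by
          refine sum_congr rfl fun n _ => ?_
          rw [← sum_filter, sum_const, nsmul_eq_mul]
          ring
  have h4 : ∑ n ∈ Ω, w n * #(B.filter (fun a => (n + a).Prime)) ≤
      m * ∑ n ∈ Ω, w n + K * ∑ n ∈ Ω.filter (fun n => m ≤ #(B.filter (fun a => (n + a).Prime))), w n := by
    rw [mul_sum, mul_sum, sum_filter, ← sum_add_distrib]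
    refine sum_le_sum fun n hn => ?_
    have hw := hw0 n hn
    have hc : (#(B.filter (fun a => (n + a).Prime)) : ℝ) ≤ K := by
      have := card_filter_le B (fun a => (n + a).Prime)
      rw [hK] at this
      exact_mod_cast this
    split_ifs with hm
    · have : w n * #(B.filter (fun a => (n + a).Prime)) ≤ w n * K := mul_le_mul_of_nonneg_left hc hw
      have h0 : 0 ≤ (m : ℝ) * w n := by positivity
      linarith
    · push Not at hm
      have h5 : (#(B.filter (fun a => (n + a).Prime)) : ℝ) ≤ m := by exact_mod_cast hm.le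
      have : w n * #(B.filter (fun a => (n + a).Prime)) ≤ w n * m := mul_le_mul_of_nonneg_left h5 hw
      linarith
  have h5 : Z ≤ K * ∑ n ∈ Ω.filter (fun n => m ≤ #(B.filter (fun a => (n + a).Prime))), w n := by
    have h6 : (m : ℝ) * ∑ n ∈ Ω, w n ≤ m * ((1 + 1 / 10) * Z) := mul_le_mul_of_nonneg_left h1 (by positivity)
    have h7 : (0 : ℝ) ≤ m * Z := by positivity
    rw [hμ] at h3
    nlinarith
  have h6 : ∑ n ∈ Ω.filter (fun n => m ≤ #(B.filter (fun a => (n + a).Prime))), w n ≤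
      M₀ * (#(Ω.filter (fun n => R n ∧ m ≤ #(B.filter (fun a => (n + a).Prime)))) : ℝ) := by
    calc ∑ n ∈ Ω.filter (fun n => m ≤ #(B.filter (fun a => (n + a).Prime))), w n
        ≤ ∑ n ∈ Ω.filter (fun n => m ≤ #(B.filter (fun a => (n + a).Prime))), M₀ * (if R n then 1 else 0) :=
          sum_le_sum fun n hn => hwM n (mem_filter.1 hn).1
      _ = M₀ * (#(Ω.filter (fun n => R n ∧ m ≤ #(B.filter (fun a => (n + a).Prime)))) : ℝ) := by
          rw [← mul_sum, sum_boole, filter_filter]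
          congr 3
          ext n
          simp only [mem_filter]
          tauto
  rw [div_le_iff₀ (by positivity)]
  have h7 := mul_le_mul_of_nonneg_left h6 hKr.le
  linarith

open Classical in
theorem mtt (hSM : S_SMT) (hPT : S_PT) (hPAR : S_PAR1) (hCol : Col) (hCob : Cob)
    (hMni : Mni) (hWtx : Wtx) : S_MTT := by
  intro m lv hlv0 hlv
  obtain ⟨μ, hμ⟩ : ∃ μ : ℝ, μ = 2 * m + 2 := ⟨_, rfl⟩
  have hμ0 : 0 < μ := by rw [hμ]; positivity
  obtain ⟨t, K, u, β, hK, hub, hβ1, hu, δa, hδa, hpar⟩ := hPAR μ (1 / 10) lv hμ0 (by norm_num) hlv0 hlv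
  refine ⟨K, hK, fun Λ hΛ => ?_⟩
  obtain ⟨K', A', δb, hδb, hsm⟩ := hSM K 2 t u β Λ lv (1 / 10) hub hβ1 hu hΛ hlv0 (by linarith) (by norm_num)
  obtain ⟨δ, hδ⟩ : ∃ δ : ℝ, δ = min (min δa δb) (1 / 8) := ⟨_, rfl⟩
  have hδ0 : 0 < δ := by rw [hδ]; positivity
  have h1 : δ ≤ δa := by rw [hδ]; exact (min_le_left _ _).trans (min_le_left _ _)
  have h2 : δ ≤ δb := by rw [hδ]; exact (min_le_left _ _).trans (min_le_right _ _)
  have h4 : δ ≤ 1 / 8 := by rw [hδ]; exact min_le_right _ _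
  obtain ⟨Xa, hpar⟩ := hpar δ hδ0 h1
  obtain ⟨Xb, hsm⟩ := hsm δ hδ0 h2
  obtain ⟨M₁, hM₁, Xd, hpt⟩ := hPT Λ δ hΛ hδ0 h4
  obtain ⟨Xe, hwtx⟩ := hWtx.2 δ hδ0 (by linarith)
  set Q : ℝ := 1 + (1 / δ) ^ 2 * M₁ with hQ
  have hQ1 : 1 ≤ Q := by
    rw [hQ]
    have : 0 ≤ (1 / δ) ^ 2 * M₁ := by positivity
    linarith
  set M₀ : ℝ := (((K : ℝ) + 1) ^ t * Q ^ t) ^ 2 with hM₀
  have hM₀0 : 0 < M₀ := by positivity
  have hKr : (0 : ℝ) < K := by exact_mod_cast hK
  refine ⟨δ, 1 / (K * M₀), K', A', max (max Xa Xb) (max Xd (max Xe 1)), hδ0, h4, by positivity, ?_⟩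
  intro X hX
  have hXa : Xa ≤ X := ((le_max_left _ _).trans (le_max_left _ _)).trans hX
  have hXb : Xb ≤ X := ((le_max_right _ _).trans (le_max_left _ _)).trans hX
  have hXd : Xd ≤ X := ((le_max_left _ _).trans (le_max_right _ _)).trans hX
  have hXe : Xe ≤ X := (((le_max_left _ _).trans (le_max_right _ _)).trans (le_max_right _ _)).trans hX
  have hX1 : 1 ≤ X := (((le_max_right _ _).trans (le_max_right _ _)).trans (le_max_right _ _)).trans hX
  obtain ⟨S, γ, hFam, hS0, hSd, hSG, hγ0, hγ1, hV, hvp, hγμ, hη, hq⟩ := hpar X hXa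
  refine ⟨hV, ?_⟩
  intro b hb T κ hκ hEI B hBs hB hEP
  have hPJ : 2 ^ 2 ^ JJ δ X ≤ X := by
    have h5 := (hwtx X hXe).1
    have h6 : (X : ℝ) ^ δ ≤ (X : ℝ) ^ (1 : ℝ) := by
      apply Real.rpow_le_rpow_of_exponent_le _ (by linarith)
      exact_mod_cast hX1
    rw [Real.rpow_one] at h6
    have h7 := h5.trans h6
    exact_mod_cast h7
  have hSMb : SMbT Λ δ (1 / 10) γ κ X b K β S T B := by
    intro U hU hN B' hB' c hc
    obtain ⟨k1, k2⟩ := hsm X hXb b hb T κ hκ hEI S hFam hS0 hSd hSG γ hγ0 hγ1 U hU hN B' hB' c hc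
    exact ⟨k1, fun a₀ ha₀ haG => k2 a₀ ha₀ (hEP a₀ haG)⟩
  have hst : WstT Λ δ (1 / 10) (1 / 10) γ κ X b K β S T B :=
    { sm := hSMb
      s0 := by norm_num
      κ0 := hκ
      γ0 := hγ0
      β0 := fun τ => (hub τ).2.le
      β1 := hβ1
      gg := hSG
      hS := fun τ R hR => (hFam τ R hR).1
      η0 := by norm_num
      hη := hη
      hq := hq
      pJ := hPJ
      v0 := hV
      hX := hX1 }
  have hZ := (mni_ofT hMni hst hB).1
  have hOm := Om_posT hst K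
  set A : ℝ := κ * Om δ X K * ZB γ β S B with hA
  have hA0 : 0 < A := by rw [hA]; positivity
  have hR : ∀ n, rU δ X B n = if (∀ a ∈ B, rg (P1 (HH X) (JJ δ X)) a n = 1) then 1 else 0 := by
    intro n
    unfold rU
    split_ifs with h
    · exact prod_eq_one h
    · push Not at h
      obtain ⟨a, ha, h⟩ := h
      apply prod_eq_zero ha
      unfold rg at h ⊢
      split_ifs with h5
      · rw [if_pos h5] at h; exact absurd rfl h
      · rfl
  have hcnt := count_aux (Ω := (SI X b).filter (fun n => n ∈ T)) (w := ww δ γ X β S B) (B := B)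
    (R := fun n => ∀ a ∈ B, rg (P1 (HH X) (JJ δ X)) a n = 1) (m := m) (K := K) (μ := μ) (Z := A) (M₀ := M₀) hB hK
    (fun n _ => ww_nonneg B n) (by
      intro n hn
      rw [mem_filter] at hn
      suffices key : ww δ γ X β S B n ≤ M₀ * rU δ X B n by
        rw [hR n] at key
        convert key using 3
      have hW : |WW B (fun _ => 1) (xh γ β S n)| ≤ ((K : ℝ) + 1) ^ t * Q ^ t := by
        have := WW_bound (t := t) (B := B) (x := xh γ β S n) hQ1 (by
          intro τ a ha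
          have ha' := hBs ha
          have haΛ : (a : ℝ) ≤ Λ * Real.log X := by
            have h5 : a ≤ ⌊Λ * Real.log X⌋₊ := (mem_BB.1 ha').2.1
            have h6 : 0 ≤ Λ * Real.log X := by
              have : 0 ≤ Real.log X := Real.log_nonneg (by exact_mod_cast hX1)
              positivity
            exact (Nat.le_floor_iff h6).1 h5
          have h5 := hpt X hXd b n a hn.1 (mem_Bw1 ha') haΛ (S τ) (fun R hR => (hFam τ R hR).1)
          unfold xh
          have hg := hSG τ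
          have hβ := hub τ
          have hβ1' : β τ ≤ 1 := by
            rw [← hβ1]
            exact single_le_sum (f := β) (fun τ _ => (hub τ).2.le) (mem_univ τ)
          have hbg : 0 ≤ β τ / GG (S τ) := div_nonneg hβ.2.le (by linarith)
          rw [abs_mul, abs_mul, abs_of_nonneg hγ0, abs_of_nonneg hbg]
          have h6 : β τ / GG (S τ) ≤ 1 := by
            rw [div_le_one (by linarith)]
            linarith
          have h7 : γ ≤ (1 / δ) ^ 2 := by linarith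
          have h8 : β τ / GG (S τ) * |FS (S τ) a n| ≤ M₁ := by
            calc β τ / GG (S τ) * |FS (S τ) a n| ≤ 1 * M₁ := by
                  apply mul_le_mul h6 h5 (abs_nonneg _) zero_le_one
              _ = M₁ := one_mul _
          calc γ * (β τ / GG (S τ) * |FS (S τ) a n|) ≤ (1 / δ) ^ 2 * M₁ := by
                apply mul_le_mul h7 h8 _ (by positivity)
                exact mul_nonneg hbg (abs_nonneg _)
            _ ≤ Q := by rw [hQ]; linarith)
        rw [hB] at this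
        exact this
      unfold ww
      rw [mul_comm]
      apply mul_le_mul_of_nonneg_right _ (rU_nonneg B n)
      rw [hM₀, ← sq_abs]
      exact pow_le_pow_left₀ (abs_nonneg _) hW 2) hM₀0 hA0
    (by
      have := W1T hMni hst hB hBs
      rwa [← hA] at this) hμ (by
      intro a ha
      have h5 := W2T hCol hCob hMni hst hB hBs ha ha
      rw [hγμ, ← hA] at h5
      have h6 : ((SI X b).filter (fun n => n ∈ T)).filter (fun n => (n + a).Prime) =
          (SP X b a).filter (fun n => n ∈ T) := by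
        ext n
        simp only [SI, SP, mem_filter]
        tauto
      rw [h6]
      norm_num at h5 ⊢
      exact h5)
  have h5 : κ * Om δ X K ≤ A := by
    rw [hA]
    exact le_mul_of_one_le_right (by positivity) hZ
  have h6 : 1 / (K * M₀) * (κ * Om δ X K) ≤ A / (K * M₀) := by
    rw [div_mul_eq_mul_div, one_mul]
    exact div_le_div_of_nonneg_right h5 (by positivity)
  refine le_trans (h6.trans hcnt) (le_of_eq ?_)
  congr!

end Run7.h994.MC
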