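import Pool.Agent.Run7.h994.MC.Stm
import Pool.Agent.W333.HR.Par

/-!
# Project MC, piece PAR1: the choice of the parameters (the text is that of `Pool/Agent/W333/HR/Par.lean`)
-/

set_option autoImplicit false
set_option linter.all false

open Finset

namespace Run7.h994.MC

open Pool.Agent.H361R2.PP Pool.Agent.W70.HR Pool.Agent.W333.HR
open Pool.Agent.H410R2.AC (wt GG cfg term WW pos Inj coef)

theorem par1 : Pool.Agent.H410R2.AC.Types → GGTypes → Mer → S_MV → PntX → S_PAR1 := by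
  intro hTy hGGT hMer hMV hPnt μ s lv hμ hs hlv0 hlv
  obtain ⟨T, hTd⟩ : ∃ T : ℕ, T = 1 := ⟨1, rfl⟩
  have hT : 1 ≤ T := by omega
  obtain ⟨CT, hCT1, hCT⟩ := hGGT
  obtain ⟨CM, hCM1, hCM⟩ := hMer
  obtain ⟨cV, hcV, hMVX⟩ := hMV
  have hCM0 : 0 < CM := by linarith
  have hT0 : (1 : ℝ) ≤ T := by exact_mod_cast hT
  have hT0' : (0 : ℝ) < T := by linarith
  obtain ⟨s', hs'⟩ : ∃ s' : ℝ, s' = 1 / 2 := ⟨_, rfl⟩
  have hs'0 : 0 < s' := by rw [hs']; norm_num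
  have hs'1 : s' ≤ 1 / 2 := by rw [hs']
  obtain ⟨η', hη'⟩ : ∃ η' : ℝ, η' = s / (2 * μ * T * CM) := ⟨_, rfl⟩
  have hη'0 : 0 < η' := by rw [hη']; positivity
  obtain ⟨t, u, β, V₀, hV₀, huβ, hβ1, hu, hty⟩ := hTy CT η' (lv / 4) hCT1 hη'0 (by linarith)
  have ht : 1 ≤ t := by
    rcases Nat.eq_zero_or_pos t with h | h
    · subst h
      simp at hβ1
    · exact h
  have ht0 : (1 : ℝ) ≤ t := by exact_mod_cast ht
  have ht0' : (0 : ℝ) < t := by linarith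
  obtain ⟨dβ, hdβ0, hdβ⟩ : ∃ d : ℝ, 0 < d ∧ ∀ τ, d ≤ β τ ^ 2 / η' := by
    have hpos : ∀ τ, 0 < η' / β τ ^ 2 := fun τ => div_pos hη'0 (pow_pos (huβ τ).2 2)
    refine ⟨1 / (∑ τ, η' / β τ ^ 2 + 1), ?_, fun τ => ?_⟩
    · have : 0 ≤ ∑ τ, η' / β τ ^ 2 := sum_nonneg fun τ _ => (hpos τ).le
      positivity
    · have h1 : η' / β τ ^ 2 ≤ ∑ τ, η' / β τ ^ 2 :=
        single_le_sum (f := fun τ => η' / β τ ^ 2) (fun τ _ => (hpos τ).le) (mem_univ τ)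
      calc 1 / (∑ τ, η' / β τ ^ 2 + 1) ≤ 1 / (η' / β τ ^ 2) :=
            one_div_le_one_div_of_le (hpos τ) (by linarith)
        _ = β τ ^ 2 / η' := by rw [one_div_div]
  obtain ⟨δ₀, hδ₀⟩ : ∃ δ₀ : ℝ, δ₀ = min (min V₀ dβ) (min (min (1 / 8) (μ * cV / (2 * t)))
    (1 / (2 * CM * μ + 1))) := ⟨_, rfl⟩
  refine ⟨t, t, u, β, ht, huβ, hβ1, hu, δ₀, ?_, ?_⟩
  · rw [hδ₀]
    exact lt_min (lt_min hV₀ hdβ0) (lt_min (lt_min (by norm_num) (by positivity)) (by positivity))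
  intro δ hδ0 hδ
  have hδ1 : δ ≤ V₀ := hδ.trans (by rw [hδ₀]; exact (min_le_left _ _).trans (min_le_left _ _))
  have hδ2 : δ ≤ dβ := hδ.trans (by rw [hδ₀]; exact (min_le_left _ _).trans (min_le_right _ _))
  have hδ3 : δ ≤ 1 / 8 := hδ.trans (by
    rw [hδ₀]; exact (min_le_right _ _).trans ((min_le_left _ _).trans (min_le_left _ _)))
  have hδ4 : δ ≤ μ * cV / (2 * t) := hδ.trans (by
    rw [hδ₀]; exact (min_le_right _ _).trans ((min_le_left _ _).trans (min_le_right _ _)))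
  have hδ5 : δ ≤ 1 / (2 * CM * μ + 1) := hδ.trans (by
    rw [hδ₀]; exact (min_le_right _ _).trans (min_le_right _ _))
  obtain ⟨X1, hGX⟩ := hCT δ hδ0 hδ3
  obtain ⟨X2, hMX⟩ := hCM δ hδ0 (by linarith)
  obtain ⟨X3, hVX⟩ := hMVX δ hδ0 (by linarith)
  obtain ⟨X4, hPX⟩ := hPnt s' hs'0
  refine ⟨X1 + X2 + X3 + X4 + 2, fun X hX => ?_⟩
  have hX2 : 2 ≤ X := by omega
  have hX1 : 1 ≤ X := by omega
  have hXr : (0 : ℝ) < X := by exact_mod_cast hX1
  have hL : 0 < Real.log X := Real.log_pos (by exact_mod_cast hX2)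
  obtain ⟨hV0, hM1, hM2⟩ := hMX X (by omega)
  change 0 < VV δ X at hV0
  change VV δ X * _ * _ ≤ CM at hM1
  change _ = VV δ X * _ at hM2
  have hM3 := hVX X (by omega)
  obtain ⟨S, hS1, hS2, hS3, hS4⟩ := fam_of (X := X) (T := lv / 4) hδ0 hL (by linarith)
    (hty δ · · · hδ0 hδ1) (hGX X (by omega))
  have hP := hPX X (by omega)
  rw [abs_le] at hP
  -- the density
  obtain ⟨M, hM⟩ : ∃ M : ℝ, M = VV δ X * ((Nat.totient (Wm X) : ℝ) / Wm X) *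
    (δ * Real.log X) := ⟨_, rfl⟩
  obtain ⟨ρ, hρ⟩ : ∃ ρ : ℝ, ρ = Pr X * Real.log X / X := ⟨_, rfl⟩
  have hρX : Pr X * Real.log X = ρ * X := by rw [hρ]; field_simp
  have hρ1 : 1 - s' ≤ ρ := by
    have h1 := hP.1
    rw [hρX] at h1
    by_contra hcon
    push Not at hcon
    have := mul_lt_mul_of_pos_right hcon hXr
    linarith
  have hρ2 : ρ ≤ 1 + s' := by
    have h1 := hP.2
    rw [hρX] at h1
    by_contra hcon
    push Not at hcon
    have := mul_lt_mul_of_pos_right hcon hXr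
    linarith
  have hvp : vp δ X = ρ * δ / M := by rw [hρ, hM]; exact vp_eq hX1 hL hV0 hδ0
  rw [← hM] at hM1 hM3
  have hM0 : 0 < M := lt_of_lt_of_le hcV hM3
  have hρ0 : 0 < ρ := by linarith
  have hvp0 : 0 < vp δ X := by rw [hvp]; positivity
  have hvp1 : δ / (2 * CM) ≤ vp δ X := by
    rw [hvp, div_le_div_iff₀ (by positivity) hM0]
    have h1 : δ * M ≤ δ * CM := mul_le_mul_of_nonneg_left hM1 hδ0.le
    have h2 : (1 / 2 : ℝ) ≤ ρ := by linarith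
    have h3 : 1 / 2 * (δ * (2 * CM)) ≤ ρ * (δ * (2 * CM)) :=
      mul_le_mul_of_nonneg_right h2 (by positivity)
    linarith
  have hvp2 : vp δ X ≤ 2 * δ / cV := by
    rw [hvp, div_le_div_iff₀ hM0 hcV]
    have h1 : ρ * δ * cV ≤ 2 * δ * cV := by
      have : ρ ≤ 2 := by linarith
      gcongr
    have h2 : 2 * δ * cV ≤ 2 * δ * M := mul_le_mul_of_nonneg_left hM3 (by positivity)
    linarith
  -- the size
  obtain ⟨Q, hQ⟩ : ∃ Q : ℝ, Q = μ / (t * vp δ X) := ⟨_, rfl⟩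
  have hQ0 : 0 < Q := by rw [hQ]; positivity
  have hQ1 : 1 ≤ Q := by
    rw [hQ, le_div_iff₀ (by positivity), one_mul]
    calc (t : ℝ) * vp δ X ≤ t * (2 * δ / cV) := mul_le_mul_of_nonneg_left hvp2 ht0'.le
      _ ≤ t * (2 * (μ * cV / (2 * t)) / cV) := by gcongr
      _ = μ := by field_simp
  have hQ2 : Q ≤ 2 * CM * μ / (t * δ) := by
    rw [hQ, div_le_div_iff₀ (by positivity) (by positivity)]
    have h1 : δ ≤ vp δ X * (2 * CM) := by rwa [div_le_iff₀ (by positivity)] at hvp1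
    calc μ * (t * δ) ≤ μ * (t * (vp δ X * (2 * CM))) := by gcongr
      _ = 2 * CM * μ * (t * vp δ X) := by ring
  obtain ⟨γ, hγ⟩ : ∃ γ : ℝ, γ = Real.sqrt Q - 1 := ⟨_, rfl⟩
  have hγ0 : 0 ≤ γ := by
    rw [hγ, sub_nonneg]
    exact Real.one_le_sqrt.2 hQ1
  have hγ1 : (1 + γ) ^ 2 = Q := by
    rw [hγ, add_sub_cancel, Real.sq_sqrt hQ0.le]
  have hγ2 : γ ^ 2 ≤ Q := by
    rw [← hγ1]
    exact pow_le_pow_left₀ hγ0 (by linarith) 2
  -- one-particle masses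
  have hG0 : ∀ τ, 0 < GG (S τ) := fun τ =>
    lt_of_lt_of_le (by have := (huβ τ).2; positivity) (hS4 τ)
  have hβG : ∀ τ, β τ ^ 2 / GG (S τ) ≤ η' * δ := by
    intro τ
    rw [div_le_iff₀ (hG0 τ)]
    have := hS4 τ
    rw [div_le_iff₀ (by positivity)] at this
    linarith
  have hmass : ∀ τ, γ ^ 2 * (β τ ^ 2 / GG (S τ)) ≤ s / (T * t) := by
    intro τ
    calc γ ^ 2 * (β τ ^ 2 / GG (S τ)) ≤ (2 * CM * μ / (t * δ)) * (η' * δ) :=
          mul_le_mul (hγ2.trans hQ2) (hβG τ) (div_nonneg (sq_nonneg _) (hG0 τ).le) (by positivity)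
      _ = s / (T * t) := by
          rw [hη']
          field_simp
  refine ⟨S, γ, hS1, hS2, hS3, ?_, hγ0, ?_, hV0, hvp0, ?_, ?_, ?_⟩
  · intro τ
    refine le_trans ?_ (hS4 τ)
    rw [le_div_iff₀ (by positivity), one_mul]
    have h1 := hδ2.trans (hdβ τ)
    rw [le_div_iff₀ hη'0] at h1
    linarith
  · have h1 : (1 + γ) ^ 2 ≤ ((1 / δ) ^ 2) ^ 2 := by
      rw [hγ1]
      refine hQ2.trans ?_
      have h2 : δ * (2 * CM * μ) ≤ 1 := by
        rw [le_div_iff₀ (by positivity)] at hδ5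
        linarith
      rw [div_le_iff₀ (by positivity)]
      have h3 : ((1 / δ) ^ 2) ^ 2 * (t * δ) = t * (1 / δ) ^ 3 := by
        field_simp
      rw [h3]
      have h4 : 2 * CM * μ ≤ 1 / δ := by
        rw [le_div_iff₀ hδ0]; linarith
      have h5 : (1 : ℝ) ≤ 1 / δ := by
        rw [le_div_iff₀ hδ0]; linarith
      have h6 : 1 / δ ≤ (1 / δ) ^ 3 := by
        calc 1 / δ = (1 / δ) ^ 1 := (pow_one _).symm
          _ ≤ (1 / δ) ^ 3 := pow_le_pow_right₀ h5 (by norm_num)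
      have h7 : (1 / δ) ^ 3 ≤ t * (1 / δ) ^ 3 := le_mul_of_one_le_left (by positivity) ht0
      linarith
    exact (pow_le_pow_iff_left₀ (by linarith) (by positivity) (by norm_num)).mp h1
  · rw [hγ1, hQ]
    field_simp
  · intro τ
    have h1 := hmass τ
    have h2 : (t : ℝ) * (γ ^ 2 * (β τ ^ 2 / GG (S τ))) ≤ (T * t : ℝ) * (γ ^ 2 * (β τ ^ 2 / GG (S τ))) := by
      rw [hTd, Nat.cast_one, one_mul]
    calc (t : ℝ) * (γ ^ 2 * (β τ ^ 2 / GG (S τ))) ≤ (T * t : ℝ) * (γ ^ 2 * (β τ ^ 2 / GG (S τ))) := h2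
      _ ≤ (T * t : ℝ) * (s / (T * t)) := mul_le_mul_of_nonneg_left h1 (by positivity)
      _ = s := by field_simp
  · calc ∑ τ, γ ^ 2 * (β τ ^ 2 / GG (S τ)) ≤ ∑ τ : Fin t, s / (T * t) :=
          sum_le_sum fun τ _ => hmass τ
      _ = s / T := by
          rw [sum_const, card_univ, Fintype.card_fin, nsmul_eq_mul]
          field_simp
      _ ≤ s := div_le_self hs.le hT0

end Run7.h994.MC
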