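import Pool.Agent.Run7.h994.MC.MLT
import Pool.Agent.Run7.h994.MC.SMT
import Pool.Agent.Run7.h994.MC.PAR1
import Pool.Agent.Run7.h994.MC.MTT
import Pool.Agent.W70.HR.Asm

/-!
# Project MC: the engine assembled
-/

set_option autoImplicit false

namespace Run7.h994.MC

open Pool.Agent.H361R2.PP Pool.Agent.W70.HR

theorem mltA : S_MLT := mlt_of mla Pool.Agent.H804R2.PPSm2.sm2 gbd Pool.Agent.H325R2.wtx

theorem mttA : S_MTT :=
  mtt (smt mltA) pt (par1 Pool.Agent.H708R2.types (Pool.Agent.H488R2.ggtypes Pool.Agent.H325R2.wtx)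
    mer mv Pool.Agent.H325R2.pnt) Pool.Agent.H872R2.PPCol.col Pool.Agent.H872R2.PPCol.cob
    Pool.Agent.H433R2.PPMni.mni Pool.Agent.H325R2.wtx

end Run7.h994.MC
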