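import Pool.Agent.Run7.h994.MC.FinD

/-!
# Project MC: simultaneous primes of a subsystem
-/

set_option autoImplicit false

namespace Run7.h994.MC

open Finset Filter Topology
open Run7.h462.BPG (lam lam_pos lam_le_quarter lam_le_inv)
open scoped Polynomial

/-- all the numbers `F(n) + a + h_i` are free of prime factors `≤ N^ρ`, and those with `i ∈ I` are primes -/
def Sim {K : ℕ} (F : ℤ[X]) (h : Fin K → ℕ) (I : Finset (Fin K)) (ρ : ℝ) (N n a : ℕ) : Prop :=
  (∀ i, ∀ p : ℕ, p.Prime → (p : ℝ) ≤ (N : ℝ) ^ ρ → ¬ (p : ℤ) ∣ F.eval (n : ℤ) + a + h i) ∧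
    ∀ i ∈ I, Nat.Prime (F.eval (n : ℤ) + a + h i).toNat

/-- the polynomials `F + a + h_i`, `i ∈ I`, are irreducible and their product has no fixed prime divisor -/
def Sch {K : ℕ} (F : ℤ[X]) (h : Fin K → ℕ) (I : Finset (Fin K)) (a : ℕ) : Prop :=
  (∀ i ∈ I, Irreducible (F + Polynomial.C ((a : ℤ) + h i))) ∧
    ∀ p : ℕ, p.Prime → ∃ n : ℕ, ∀ i ∈ I, ¬ (p : ℤ) ∣ F.eval (n : ℤ) + a + h i

open Classical in
/-- many simultaneous primes imply the conditions of Schinzel -/
theorem sch_of {K : ℕ} (F : ℤ[X]) (hd : 1 ≤ F.natDegree) (h : Fin K → ℕ) (I : Finset (Fin K)) (ρ : ℝ) (N a : ℕ)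
    (hc : (K + 2) * F.natDegree < #((Icc 1 N).filter (fun n => Sim F h I ρ N n a))) : Sch F h I a := by
  constructor
  · intro i hi
    have hdeg : (F + Polynomial.C ((a : ℤ) + h i)).natDegree = F.natDegree := Polynomial.natDegree_add_C
    apply Run7.h462.QA.irr _ (by rw [hdeg]; exact hd) (Icc 1 N)
    rw [hdeg]
    have h1 : #((Icc 1 N).filter (fun n => Sim F h I ρ N n a)) ≤
        #((Icc 1 N).filter (fun n : ℕ => Nat.Prime ((F + Polynomial.C ((a : ℤ) + h i)).eval (n : ℤ)).toNat)) := by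
      apply card_le_card
      intro n hn
      rw [mem_filter] at hn ⊢
      refine ⟨hn.1, ?_⟩
      have h2 := hn.2.2 i hi
      rw [Polynomial.eval_add, Polynomial.eval_C, ← add_assoc]
      exact h2
    have h2 : 2 * F.natDegree ≤ (K + 2) * F.natDegree := Nat.mul_le_mul_right _ (by omega)
    omega
  · intro p hp
    by_contra hcon
    push Not at hcon
    have h1 : (Icc 1 N).filter (fun n => Sim F h I ρ N n a) ⊆
        (univ : Finset (Fin K)).biUnion (fun i => (Icc 1 N).filter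
          (fun n : ℕ => (F + Polynomial.C ((a : ℤ) + h i)).eval (n : ℤ) = (p : ℤ))) := by
      intro n hn
      rw [mem_filter] at hn
      obtain ⟨i, hi, hdvd⟩ := hcon n
      rw [mem_biUnion]
      refine ⟨i, mem_univ _, ?_⟩
      rw [mem_filter]
      refine ⟨hn.1, ?_⟩
      rw [Polynomial.eval_add, Polynomial.eval_C, ← add_assoc]
      have h3 := hn.2.2 i hi
      have hpos : 0 < F.eval (n : ℤ) + a + h i := by
        have := h3.pos
        omega
      have e1 : ((F.eval (n : ℤ) + a + h i).toNat : ℤ) = F.eval (n : ℤ) + a + h i := Int.toNat_of_nonneg hpos.le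
      rw [← e1] at hdvd ⊢
      have h4 : p ∣ (F.eval (n : ℤ) + a + h i).toNat := by exact_mod_cast hdvd
      have h5 := (Nat.prime_dvd_prime_iff_eq hp h3).1 h4
      rw [← h5]
    have h2 : ∀ i : Fin K, #((Icc 1 N).filter (fun n : ℕ => (F + Polynomial.C ((a : ℤ) + h i)).eval (n : ℤ) = (p : ℤ))) ≤
        F.natDegree := by
      intro i
      have hdeg : (F + Polynomial.C ((a : ℤ) + h i)).natDegree = F.natDegree := Polynomial.natDegree_add_C
      have h3 := Run7.h462.QA.card_eval_eq (F + Polynomial.C ((a : ℤ) + h i)) (p : ℤ) (by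
        intro h4
        rw [h4, Polynomial.natDegree_C] at hdeg
        omega) (Icc 1 N)
      rw [hdeg] at h3
      exact h3
    have h3 : #((Icc 1 N).filter (fun n => Sim F h I ρ N n a)) ≤ K * F.natDegree := by
      refine (card_le_card h1).trans (card_biUnion_le.trans ?_)
      refine (sum_le_sum fun i _ => h2 i).trans ?_
      simp
    have h4 : K * F.natDegree ≤ (K + 2) * F.natDegree := Nat.mul_le_mul_right _ (by omega)
    omega

open Classical in
/-- the theorem for subsystems -/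
theorem mainI (d : ℕ) (hd : 2 ≤ d) (k : ℕ) (ε : ℝ) (hε : 0 < ε) :
    ∃ K : ℕ, 1 ≤ K ∧ ∀ F : ℤ[X], F.natDegree = d → 0 < F.leadingCoeff →
      ∀ h : Fin K → ℕ, Function.Injective h → Adm h →
      ∃ c ρ : ℝ, 0 < c ∧ 0 < ρ ∧ ∃ N₀ : ℕ, ∀ N : ℕ, N₀ ≤ N → ∀ A : ℕ,
        (N : ℝ) ^ ((1 - lam d) * (d : ℝ) - 1 + ε) ≤ A → (A : ℝ) ≤ (N : ℝ) ^ (d - 1) →
        ∃ I : Finset (Fin K), #I = k ∧
        c * A ≤ (#((Icc 1 A).filter (fun a => Sch F h I a ∧ c * (N / Real.log N ^ K) ≤
          (#((Icc 1 N).filter (fun n => Sim F h I ρ N n a)) : ℝ))) : ℝ) := by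
  obtain ⟨K, hK, H⟩ := main d hd k ε hε
  refine ⟨K, hK, fun F hF hl h hinj hadm => ?_⟩
  obtain ⟨c, ρ, hc, hρ, N₁, H⟩ := H F hF hl h hinj hadm
  obtain ⟨Q, hQ⟩ : ∃ Q : ℕ, Q = #(powersetCard k (univ : Finset (Fin K))) + 1 := ⟨_, rfl⟩
  have hQ0 : (0 : ℝ) < Q := by rw [hQ]; positivity
  obtain ⟨M1, hM1⟩ := eventually_atTop.1 (Run7.h757.BP.Fin.rpow_ge_log 1 one_pos K
    ((((K + 2) * d : ℕ) + 1) * Q / c) (by positivity))
  refine ⟨c / Q, ρ, by positivity, hρ, N₁ + M1 + 10, fun N hN A hA1 hA2 => ?_⟩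
  have hA := (H N (by omega) A hA1 hA2).1
  have g1 := hM1 N (by omega)
  rw [Real.rpow_one] at g1
  have hNR : (10 : ℝ) ≤ N := by exact_mod_cast (by omega : 10 ≤ N)
  have hL0 : 0 < Real.log N := Real.log_pos (by linarith)
  obtain ⟨NL, hNL⟩ : ∃ NL : ℝ, NL = (N : ℝ) / Real.log N ^ K := ⟨_, rfl⟩
  rw [← hNL] at hA ⊢
  have hNL0 : 0 < NL := by rw [hNL]; positivity
  have hbig : ((((K + 2) * d : ℕ) + 1 : ℝ)) ≤ c / Q * NL := by
    rw [hNL, div_mul_div_comm, le_div_iff₀ (by positivity)]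
    rw [div_mul_eq_mul_div, div_le_iff₀ hc] at g1
    linarith
  obtain ⟨P, hP⟩ : ∃ P : Finset (Finset (Fin K)), P = powersetCard k univ := ⟨_, rfl⟩
  rw [← hP] at hQ
  have hPQ : (#P : ℝ) ≤ Q := by
    rw [hQ]
    push_cast
    linarith
  obtain ⟨G, hG⟩ : ∃ G : Finset ℕ, G = (Icc 1 A).filter (fun a => c * NL ≤
    (#((Icc 1 N).filter (fun n => Gd F h k ρ N n a)) : ℝ)) := ⟨_, rfl⟩
  rw [← hG] at hA
  have hApos : (0 : ℝ) < A := by
    refine lt_of_lt_of_le ?_ hA1
    positivity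
  -- for every good `a` a subset
  have hsub : ∀ a ∈ G, ∃ I ∈ P, c / Q * NL ≤ (#((Icc 1 N).filter (fun n => Sim F h I ρ N n a)) : ℝ) := by
    intro a ha
    rw [hG, mem_filter] at ha
    by_contra hcon
    push Not at hcon
    have h1 : (Icc 1 N).filter (fun n => Gd F h k ρ N n a) ⊆ P.biUnion
        (fun I => (Icc 1 N).filter (fun n => Sim F h I ρ N n a)) := by
      intro n hn
      rw [mem_filter] at hn
      obtain ⟨hn1, hn2, hn3⟩ := hn
      obtain ⟨I, hI1, hI2⟩ := exists_subset_card_eq hn3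
      rw [mem_biUnion]
      refine ⟨I, ?_, ?_⟩
      · rw [hP, mem_powersetCard]
        exact ⟨subset_univ _, hI2⟩
      · rw [mem_filter]
        refine ⟨hn1, hn2, fun i hi => ?_⟩
        exact (mem_filter.1 (hI1 hi)).2
    have h2 : (#((Icc 1 N).filter (fun n => Gd F h k ρ N n a)) : ℝ) ≤
        ∑ I ∈ P, (#((Icc 1 N).filter (fun n => Sim F h I ρ N n a)) : ℝ) := by
      exact_mod_cast (card_le_card h1).trans card_biUnion_le
    have hPne : P.Nonempty := by
      by_contra hne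
      rw [not_nonempty_iff_eq_empty] at hne
      rw [hne, sum_empty] at h2
      have : 0 < c * NL := by positivity
      linarith [ha.2]
    have h3 : ∑ I ∈ P, (#((Icc 1 N).filter (fun n => Sim F h I ρ N n a)) : ℝ) < ∑ _I ∈ P, c / Q * NL :=
      sum_lt_sum_of_nonempty hPne hcon
    rw [sum_const, nsmul_eq_mul] at h3
    have h4 : (#P : ℝ) * (c / Q * NL) ≤ Q * (c / Q * NL) := by gcongr
    have h5 : (Q : ℝ) * (c / Q * NL) = c * NL := by field_simp
    linarith [ha.2]
  -- one subset for many `a`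
  have hmany : ∃ I ∈ P, c / Q * A ≤ (#(G.filter (fun a => c / Q * NL ≤
      (#((Icc 1 N).filter (fun n => Sim F h I ρ N n a)) : ℝ))) : ℝ) := by
    by_contra hcon
    push Not at hcon
    have h1 : G ⊆ P.biUnion (fun I => G.filter (fun a => c / Q * NL ≤
        (#((Icc 1 N).filter (fun n => Sim F h I ρ N n a)) : ℝ))) := by
      intro a ha
      obtain ⟨I, hI, h2⟩ := hsub a ha
      rw [mem_biUnion]
      exact ⟨I, hI, mem_filter.2 ⟨ha, h2⟩⟩
    have h2 : (#G : ℝ) ≤ ∑ I ∈ P, (#(G.filter (fun a => c / Q * NL ≤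
        (#((Icc 1 N).filter (fun n => Sim F h I ρ N n a)) : ℝ))) : ℝ) := by
      exact_mod_cast (card_le_card h1).trans card_biUnion_le
    have hPne : P.Nonempty := by
      by_contra hne
      rw [not_nonempty_iff_eq_empty] at hne
      rw [hne, sum_empty] at h2
      have : 0 < c * A := by positivity
      linarith
    have h3 := sum_lt_sum_of_nonempty hPne hcon
    rw [sum_const, nsmul_eq_mul] at h3
    have h4 : (#P : ℝ) * (c / Q * A) ≤ Q * (c / Q * A) := by gcongr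
    have h5 : (Q : ℝ) * (c / Q * A) = c * A := by field_simp
    linarith
  obtain ⟨I, hI, hIc⟩ := hmany
  refine ⟨I, ?_, hIc.trans ?_⟩
  · rw [hP, mem_powersetCard] at hI
    exact hI.2
  · apply Nat.cast_le.2
    apply card_le_card
    intro a ha
    rw [mem_filter] at ha ⊢
    obtain ⟨haG, h2⟩ := ha
    rw [hG, mem_filter] at haG
    refine ⟨haG.1, ?_, h2⟩
    apply sch_of F (by omega) h I ρ N a
    rw [hF]
    have h3 : (((K + 2) * d : ℕ) : ℝ) < (#((Icc 1 N).filter (fun n => Sim F h I ρ N n a)) : ℝ) := by linarith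
    exact_mod_cast h3

end Run7.h994.MC
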