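import Pool.Agent.Run7.h994.MC.FinD

/-!
# Project MC: bounded clusters of primes after the values of a polynomial
-/

set_option autoImplicit false

namespace Run7.h994.MC

open Finset Filter Topology
open Run7.h462.BPG (lam lam_pos lam_le_quarter lam_le_inv)
open scoped Polynomial

/-- the tuple `i K!` -/
def hst (K : ℕ) : Fin K → ℕ := fun i => i.1 * K.factorial

theorem hst_inj (K : ℕ) : Function.Injective (hst K) := by
  intro i j hij
  unfold hst at hij
  exact Fin.ext (Nat.eq_of_mul_eq_mul_right (Nat.factorial_pos K) hij)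

theorem hst_adm (K : ℕ) : Adm (hst K) := by
  intro p hp
  by_cases hpK : p ≤ K
  · refine ⟨1, fun i hdvd => ?_⟩
    have h1 : p ∣ hst K i := by
      unfold hst
      exact Dvd.dvd.mul_left (Nat.dvd_factorial hp.pos hpK) _
    have h2 : p ∣ 1 := (Nat.dvd_add_left h1).1 hdvd
    exact hp.one_lt.ne' (Nat.dvd_one.1 h2)
  · push Not at hpK
    by_contra hcon
    push Not at hcon
    choose f hf using hcon
    have h1 : #(range p) ≤ #(univ : Finset (Fin K)) := by
      apply card_le_card_of_injOn f (fun _ _ => mem_coe.2 (mem_univ _))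
      intro x hx y hy hxy
      rw [mem_coe, mem_range] at hx hy
      have h2 := hf x
      have h3 := hf y
      rw [← hxy] at h3
      have h4 : x + hst K (f x) ≡ y + hst K (f x) [MOD p] :=
        ((Nat.modEq_zero_iff_dvd.2 h2).trans (Nat.modEq_zero_iff_dvd.2 h3).symm)
      exact (Nat.ModEq.add_right_cancel' _ h4).eq_of_lt_of_lt hx hy
    rw [card_range, card_univ, Fintype.card_fin] at h1
    omega

/-- the positions `a ≤ A - D` of primes `F(n) + a` such that there are at least `k` primes in `[F(n) + a, F(n) + a + D]` -/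
def Cl (F : ℤ[X]) (k D A n : ℕ) : Finset ℕ :=
  (Icc 1 (A - D)).filter (fun a : ℕ => Nat.Prime (F.eval (n : ℤ) + a).toNat ∧
    k ≤ #((Icc a (a + D)).filter (fun b : ℕ => Nat.Prime (F.eval (n : ℤ) + b).toNat)))

open Classical in
theorem good_le_Cl {K k : ℕ} (hk : 1 ≤ k) (F : ℤ[X]) (h : Fin K → ℕ) (ρ : ℝ) (hinj : Function.Injective h) (D A A' N n : ℕ)
    (hD : ∀ i, h i ≤ D) (hA : A' + D + D ≤ A) :
    #((Icc 1 A').filter (fun a => Gd F h k ρ N n a)) ≤ K * #(Cl F k D A n) := by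
  have h1 : (Icc 1 A').filter (fun a => Gd F h k ρ N n a) ⊆
      (univ : Finset (Fin K)).biUnion (fun i => (Icc 1 A').filter (fun a => a + h i ∈ Cl F k D A n)) := by
    intro a ha
    rw [mem_filter, mem_Icc] at ha
    obtain ⟨⟨ha1, ha2⟩, -, hm⟩ := ha
    obtain ⟨J, hJ⟩ : ∃ J : Finset (Fin K), J = univ.filter (fun i => Nat.Prime (F.eval (n : ℤ) + a + h i).toNat) := ⟨_, rfl⟩
    rw [← hJ] at hm
    have hJne : J.Nonempty := card_pos.1 (by omega)
    obtain ⟨i, hi, hmin⟩ := exists_min_image J h hJne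
    rw [mem_biUnion]
    refine ⟨i, mem_univ _, ?_⟩
    rw [mem_filter, mem_Icc]
    refine ⟨⟨ha1, ha2⟩, ?_⟩
    have hpr : ∀ j ∈ J, Nat.Prime (F.eval (n : ℤ) + ((a + h j : ℕ) : ℤ)).toNat := by
      intro j hj
      rw [hJ, mem_filter] at hj
      push_cast
      rw [← add_assoc]
      exact hj.2
    unfold Cl
    rw [mem_filter, mem_Icc]
    have hiD := hD i
    refine ⟨⟨by omega, by omega⟩, hpr i hi, hm.trans ?_⟩
    have h2 : J.image (fun j => a + h j) ⊆
        (Icc (a + h i) (a + h i + D)).filter (fun b : ℕ => Nat.Prime (F.eval (n : ℤ) + b).toNat) := by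
      intro b hb
      rw [mem_image] at hb
      obtain ⟨j, hj, rfl⟩ := hb
      rw [mem_filter, mem_Icc]
      have h3 := hmin j hj
      have h4 := hD j
      exact ⟨⟨by omega, by omega⟩, hpr j hj⟩
    have h3 : #(J.image (fun j => a + h j)) = #J := by
      apply card_image_of_injective
      intro x y hxy
      simp only at hxy
      exact hinj (by omega)
    rw [← h3]
    exact card_le_card h2
  refine (card_le_card h1).trans (card_biUnion_le.trans ?_)
  have h2 : ∀ i ∈ (univ : Finset (Fin K)), #((Icc 1 A').filter (fun a => a + h i ∈ Cl F k D A n)) ≤ #(Cl F k D A n) := by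
    intro i _
    apply card_le_card_of_injOn (fun a => a + h i)
    · intro a ha
      rw [mem_coe, mem_filter] at ha
      exact ha.2
    · intro a _ b _ hab
      simp only at hab
      omega
  refine (sum_le_sum h2).trans ?_
  simp

/-- bounded clusters of primes after the values `F(n)`, for a positive proportion of the `n` -/
theorem clusters (d : ℕ) (hd : 2 ≤ d) (k : ℕ) (hk : 1 ≤ k) (ε : ℝ) (hε : 0 < ε) :
    ∃ D : ℕ, 1 ≤ D ∧ ∀ F : ℤ[X], F.natDegree = d → 0 < F.leadingCoeff → ∃ c : ℝ, 0 < c ∧ ∃ N₀ : ℕ, ∀ N : ℕ, N₀ ≤ N →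
      ∀ A : ℕ, (N : ℝ) ^ ((1 - lam d) * (d : ℝ) - 1 + ε) ≤ A → (A : ℝ) ≤ (N : ℝ) ^ (d - 1) →
        c * N ≤ (#((Icc 1 N).filter (fun n => c * (A / Real.log N ^ D) ≤ (#(Cl F k D A n) : ℝ))) : ℝ) := by
  classical
  obtain ⟨K, hK, H⟩ := main d hd k (ε / 2) (by positivity)
  obtain ⟨D, hD⟩ : ∃ D : ℕ, D = K * K.factorial + K := ⟨_, rfl⟩
  have hKD : K ≤ D := by rw [hD]; omega
  refine ⟨D, by omega, fun F hF hl => ?_⟩
  obtain ⟨c, ρ, hc, hρ, N₁, H⟩ := H F hF hl (hst K) (hst_inj K) (hst_adm K)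
  have hKr : (0 : ℝ) < K := by exact_mod_cast hK
  have hK1 : (1 : ℝ) ≤ K := by exact_mod_cast hK
  have hlimp : ∀ p : ℝ, 0 < p → Tendsto (fun N : ℕ => (N : ℝ) ^ p) atTop atTop := fun p hp =>
    (tendsto_rpow_atTop hp).comp tendsto_natCast_atTop_atTop
  obtain ⟨M1, hM1⟩ := eventually_atTop.1 ((hlimp (ε / 2) (by positivity)).eventually_ge_atTop (2 : ℝ))
  obtain ⟨M2, hM2⟩ := eventually_atTop.1 ((hlimp (1 / 2) (by norm_num)).eventually_ge_atTop (4 * D : ℝ))
  refine ⟨c / (2 * K), by positivity, N₁ + M1 + M2 + 10, fun N hN A hA1 hA2 => ?_⟩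
  have g1 := hM1 N (by omega)
  have g2 := hM2 N (by omega)
  have hNR : (10 : ℝ) ≤ N := by exact_mod_cast (by omega : 10 ≤ N)
  have hN0 : (0 : ℝ) < N := by linarith
  have hN1 : (1 : ℝ) ≤ N := by linarith
  obtain ⟨e, he⟩ : ∃ e : ℝ, e = (1 - lam d) * (d : ℝ) - 1 := ⟨_, rfl⟩
  have hdR2 : (2 : ℝ) ≤ d := by exact_mod_cast hd
  have he2 : 1 / 2 ≤ e := by
    have hlam4 := lam_le_quarter d
    have h1 : 3 / 4 * 2 ≤ (1 - lam d) * (d : ℝ) := by
      apply mul_le_mul (by linarith) hdR2 (by norm_num) (by linarith)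
    rw [he]
    linarith
  rw [← he] at hA1 H
  have hhalf : (N : ℝ) ^ (1 / 2 : ℝ) ≤ (N : ℝ) ^ (e + ε / 2) := Real.rpow_le_rpow_of_exponent_le hN1 (by linarith)
  have hA3 : 2 * (N : ℝ) ^ (e + ε / 2) ≤ A := by
    have h1 : (N : ℝ) ^ (e + ε) = (N : ℝ) ^ (e + ε / 2) * (N : ℝ) ^ (ε / 2) := by
      rw [← Real.rpow_add hN0]
      congr 1
      ring
    rw [h1] at hA1
    have h2 : (N : ℝ) ^ (e + ε / 2) * 2 ≤ (N : ℝ) ^ (e + ε / 2) * (N : ℝ) ^ (ε / 2) := by gcongr
    linarith
  have hD0 : (0 : ℝ) ≤ D := Nat.cast_nonneg _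
  have hA4 : 4 * (D : ℝ) ≤ A := by linarith
  have hA5 : 4 * D ≤ A := by exact_mod_cast hA4
  have hA6 : ((A - (D + D) : ℕ) : ℝ) = A - 2 * D := by
    rw [Nat.cast_sub (by omega)]
    push_cast
    ring
  have hA7 : (A : ℝ) / 2 ≤ ((A - (D + D) : ℕ) : ℝ) := by rw [hA6]; linarith
  obtain ⟨-, h2⟩ := H N (by omega) (A - (D + D)) (by linarith) (by
    rw [hA6]
    linarith)
  have hL1 : 1 ≤ Real.log N := by
    rw [Real.le_log_iff_exp_le hN0]
    have := Real.exp_one_lt_d9
    linarith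
  have hLK : Real.log N ^ K ≤ Real.log N ^ D := pow_le_pow_right₀ hL1 hKD
  have hLpos : 0 < Real.log N := by linarith
  calc c / (2 * K) * N ≤ c * N := by
        apply mul_le_mul_of_nonneg_right _ hN0.le
        rw [div_le_iff₀ (by positivity)]
        nlinarith
    _ ≤ _ := h2
    _ ≤ _ := by
        apply Nat.cast_le.2
        apply card_le_card
        intro n hn
        rw [mem_filter] at hn ⊢
        refine ⟨hn.1, ?_⟩
        have h3 := good_le_Cl hk F (hst K) ρ (hst_inj K) D A (A - (D + D)) N n (fun i => by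
          have h4 : hst K i ≤ K * K.factorial := by
            unfold hst
            exact Nat.mul_le_mul_right _ i.2.le
          omega) (by omega)
        have h4 : (#((Icc 1 (A - (D + D))).filter (fun a => Gd F (hst K) k ρ N n a)) : ℝ) ≤ K * #(Cl F k D A n) := by
          exact_mod_cast h3
        have h5 := hn.2.trans h4
        have h6 : c / (2 * K) * (A / Real.log N ^ D) * K ≤ K * #(Cl F k D A n) := by
          refine le_trans ?_ h5
          calc c / (2 * K) * (A / Real.log N ^ D) * K = c * (A / 2 / Real.log N ^ D) := by field_simp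
            _ ≤ c * (((A - (D + D) : ℕ) : ℝ) / Real.log N ^ K) := by gcongr
        have h7 : (K : ℝ) * (c / (2 * K) * (A / Real.log N ^ D)) ≤ K * #(Cl F k D A n) := by linarith
        exact le_of_mul_le_mul_left h7 hKr

end Run7.h994.MC
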