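import Pool.Agent.Run7.h994.MC.Cor2

/-!
# Project MC: translates of one bounded pattern after the values of a polynomial
-/

set_option autoImplicit false

namespace Run7.h994.MC

open Finset Filter Topology
open Run7.h462.BPG (lam lam_pos lam_le_quarter lam_le_inv)
open scoped Polynomial

/-- pigeonhole principle, twice -/
theorem pigeon2 {α τ : Type*} (G : Finset α) (P : Finset τ) {Q X Y : ℝ} (hQ : 0 < Q) (hPQ : (#P : ℝ) ≤ Q)
    (hX : 0 < X) (hY : 0 < Y) (R : α → τ → ℝ) (hR : ∀ s ∈ G, Y ≤ ∑ t ∈ P, R s t) (hG : X ≤ (#G : ℝ)) :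
    ∃ t ∈ P, X / Q ≤ (#(G.filter (fun s => Y / Q ≤ R s t)) : ℝ) := by
  classical
  have hsub : ∀ s ∈ G, ∃ t ∈ P, Y / Q ≤ R s t := by
    intro s hs
    by_contra hcon
    push Not at hcon
    have hPne : P.Nonempty := by
      by_contra hne
      rw [not_nonempty_iff_eq_empty] at hne
      have := hR s hs
      rw [hne, sum_empty] at this
      linarith
    have h3 := sum_lt_sum_of_nonempty hPne hcon
    rw [sum_const, nsmul_eq_mul] at h3
    have h4 : (#P : ℝ) * (Y / Q) ≤ Q * (Y / Q) := mul_le_mul_of_nonneg_right hPQ (by positivity)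
    have h5 : Q * (Y / Q) = Y := by field_simp
    linarith [hR s hs]
  by_contra hcon
  push Not at hcon
  have h1 : G ⊆ P.biUnion (fun t => G.filter (fun s => Y / Q ≤ R s t)) := by
    intro s hs
    obtain ⟨t, ht, h2⟩ := hsub s hs
    rw [mem_biUnion]
    exact ⟨t, ht, mem_filter.2 ⟨hs, h2⟩⟩
  have h2 : (#G : ℝ) ≤ ∑ t ∈ P, (#(G.filter (fun s => Y / Q ≤ R s t)) : ℝ) := by
    have := (card_le_card h1).trans card_biUnion_le
    exact_mod_cast this
  have hPne : P.Nonempty := by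
    by_contra hne
    rw [not_nonempty_iff_eq_empty] at hne
    rw [hne, sum_empty] at h2
    linarith
  have h3 := sum_lt_sum_of_nonempty hPne hcon
  rw [sum_const, nsmul_eq_mul] at h3
  have h4 : (#P : ℝ) * (X / Q) ≤ Q * (X / Q) := mul_le_mul_of_nonneg_right hPQ (by positivity)
  have h5 : Q * (X / Q) = X := by field_simp
  linarith

/-- the positions `a ≤ A - D` such that all `F(n) + a + g`, `g ∈ H`, are primes -/
def Pt (F : ℤ[X]) (H : Finset ℕ) (D A n : ℕ) : Finset ℕ :=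
  (Icc 1 (A - D)).filter (fun a : ℕ => ∀ g ∈ H, Nat.Prime (F.eval (n : ℤ) + a + g).toNat)

open Classical in
theorem Cl_sub_Pt (F : ℤ[X]) {k : ℕ} (hk : 1 ≤ k) (D A n : ℕ) :
    #(Cl F k D A n) ≤ ∑ H ∈ ((range (D + 1)).powerset.filter (fun H => #H = k ∧ 0 ∈ H)), #(Pt F H D A n) := by
  refine (card_le_card ?_).trans card_biUnion_le
  intro a ha
  unfold Cl at ha
  rw [mem_filter, mem_Icc] at ha
  obtain ⟨⟨ha1, ha2⟩, hp, hk'⟩ := ha
  obtain ⟨B, hB⟩ : ∃ B : Finset ℕ, B = (Icc a (a + D)).filter (fun b : ℕ => Nat.Prime (F.eval (n : ℤ) + b).toNat) :=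
    ⟨_, rfl⟩
  rw [← hB] at hk'
  have haB : a ∈ B := by
    rw [hB, mem_filter, mem_Icc]
    exact ⟨⟨le_rfl, by omega⟩, hp⟩
  obtain ⟨B', hB'1, hB'2, hB'3⟩ : ∃ B' : Finset ℕ, {a} ⊆ B' ∧ B' ⊆ B ∧ #B' = k :=
    exists_subsuperset_card_eq (singleton_subset_iff.2 haB) (by rw [card_singleton]; exact hk) hk'
  rw [singleton_subset_iff] at hB'1
  have hBm : ∀ b ∈ B', a ≤ b ∧ b ≤ a + D ∧ Nat.Prime (F.eval (n : ℤ) + b).toNat := by
    intro b hb
    have := hB'2 hb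
    rw [hB, mem_filter, mem_Icc] at this
    exact ⟨this.1.1, this.1.2, this.2⟩
  rw [mem_biUnion]
  refine ⟨B'.image (fun b => b - a), ?_, ?_⟩
  · rw [mem_filter, mem_powerset]
    refine ⟨?_, ?_, ?_⟩
    · intro g hg
      rw [mem_image] at hg
      obtain ⟨b, hb, rfl⟩ := hg
      have := hBm b hb
      rw [mem_range]
      omega
    · rw [card_image_of_injOn, hB'3]
      intro x hx y hy hxy
      rw [mem_coe] at hx hy
      have h1 := hBm x hx
      have h2 := hBm y hy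
      simp only at hxy
      omega
    · rw [mem_image]
      exact ⟨a, hB'1, by omega⟩
  · unfold Pt
    rw [mem_filter, mem_Icc]
    refine ⟨⟨ha1, ha2⟩, ?_⟩
    intro g hg
    rw [mem_image] at hg
    obtain ⟨b, hb, rfl⟩ := hg
    obtain ⟨h1, h2, h3⟩ := hBm b hb
    have h4 : F.eval (n : ℤ) + a + ((b - a : ℕ) : ℤ) = F.eval (n : ℤ) + b := by
      rw [Nat.cast_sub h1]
      ring
    rw [h4]
    exact h3

/-- one bounded pattern of `k` primes after the values `F(n)`, for a positive proportion of the `n` -/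
theorem patterns (d : ℕ) (hd : 2 ≤ d) (k : ℕ) (hk : 1 ≤ k) (ε : ℝ) (hε : 0 < ε) :
    ∃ D : ℕ, 1 ≤ D ∧ ∀ F : ℤ[X], F.natDegree = d → 0 < F.leadingCoeff → ∃ c : ℝ, 0 < c ∧ ∃ N₀ : ℕ, ∀ N : ℕ, N₀ ≤ N →
      ∀ A : ℕ, (N : ℝ) ^ ((1 - lam d) * (d : ℝ) - 1 + ε) ≤ A → (A : ℝ) ≤ (N : ℝ) ^ (d - 1) →
        ∃ H ⊆ range (D + 1), #H = k ∧ 0 ∈ H ∧
        c * N ≤ (#((Icc 1 N).filter (fun n => c * (A / Real.log N ^ D) ≤ (#(Pt F H D A n) : ℝ))) : ℝ) := by
  classical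
  obtain ⟨D, hD, H⟩ := clusters d hd k hk ε hε
  refine ⟨D, hD, fun F hF hl => ?_⟩
  obtain ⟨c, hc, N₀, H⟩ := H F hF hl
  obtain ⟨P, hP⟩ : ∃ P : Finset (Finset ℕ), P = (range (D + 1)).powerset.filter (fun H => #H = k ∧ 0 ∈ H) := ⟨_, rfl⟩
  obtain ⟨Q, hQ⟩ : ∃ Q : ℝ, Q = #P + 1 := ⟨_, rfl⟩
  have hQ1 : 1 ≤ Q := by rw [hQ]; have : (0 : ℝ) ≤ #P := Nat.cast_nonneg _; linarith
  refine ⟨c / Q, by positivity, N₀ + 10, fun N hN A hA1 hA2 => ?_⟩
  have h1 := H N (by omega) A hA1 hA2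
  have hNR : (10 : ℝ) ≤ N := by exact_mod_cast (by omega : 10 ≤ N)
  have hL0 : 0 < Real.log N := Real.log_pos (by linarith)
  have hApos : (0 : ℝ) < A := by
    refine lt_of_lt_of_le ?_ hA1
    positivity
  obtain ⟨G, hG⟩ : ∃ G : Finset ℕ, G = (Icc 1 N).filter (fun n => c * (A / Real.log N ^ D) ≤ (#(Cl F k D A n) : ℝ)) :=
    ⟨_, rfl⟩
  rw [← hG] at h1
  obtain ⟨Ht, hHt, h2⟩ := pigeon2 G P (Q := Q) (X := c * N) (Y := c * (A / Real.log N ^ D)) (by linarith)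
    (by rw [hQ]; linarith) (by positivity) (by positivity) (fun n H => (#(Pt F H D A n) : ℝ)) (by
      intro n hn
      rw [hG, mem_filter] at hn
      refine hn.2.trans ?_
      have h3 := Cl_sub_Pt F hk D A n
      rw [← hP] at h3
      exact_mod_cast h3) h1
  rw [hP, mem_filter, mem_powerset] at hHt
  refine ⟨Ht, hHt.1, hHt.2.1, hHt.2.2, ?_⟩
  have e1 : c / Q * N = c * N / Q := by ring
  have e2 : c / Q * (A / Real.log N ^ D) = c * (A / Real.log N ^ D) / Q := by ring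
  rw [e1, e2]
  refine h2.trans ?_
  apply Nat.cast_le.2
  apply card_le_card
  intro n hn
  rw [mem_filter] at hn ⊢
  refine ⟨?_, hn.2⟩
  rw [hG, mem_filter] at hn
  exact hn.1.1

end Run7.h994.MC
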