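import Pool.Agent.Run7.h994.MC.Stm
import Pool.Agent.H361R2.PP.Cls2

/-!
# Project MC: the number of the good elements of the thin set
-/

set_option autoImplicit false

namespace Run7.h994.MC

open Finset Filter Topology
open Run7.h462.BPG (lam)
open Pool.Agent.H361R2.PP
open Pool.Agent.W70.HR (Bw rU Om OmP S_MV)
open scoped Polynomial

open Classical in
/-- the elements `v` of the thin set such that all `v + 1 + h_i` are rough and at least `m` of them are primes -/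
noncomputable def GX {k : ℕ} (s : ℝ) (d : ℕ) (t κ : ℝ) (h : Fin k → ℕ) (m : ℕ) (δ : ℝ) (X : ℕ) : Finset ℕ :=
  (TT s d t κ X).filter (fun v => (∀ i, ∀ p : ℕ, p.Prime → (p : ℝ) < (X : ℝ) ^ (δ / 2) → ¬ p ∣ v + 1 + h i) ∧
    m ≤ #(univ.filter (fun i => (v + 1 + h i).Prime)))

open Classical in
theorem class_sub {k : ℕ} {s : ℝ} {d : ℕ} {t κ : ℝ} {h : Fin k → ℕ} {m : ℕ} {δ : ℝ} {X b : ℕ}
    [DecidablePred (fun n : ℕ => (∀ a ∈ univ.image (fun i => h i + 1), rg (P1 (HH X) (JJ δ X)) a n = 1) ∧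
        m ≤ #((univ.image (fun i => h i + 1)).filter (fun a => (n + a).Prime)))]
    (hb : ∀ i, (b + 1 + h i).Coprime (Wm X)) (hw2 : (X : ℝ) ^ (δ / 2) ≤ (2 : ℝ) ^ 2 ^ JJ δ X) :
    ((SI X b).filter (fun n => n ∈ TT s d t κ X)).filter (fun n =>
      (∀ a ∈ univ.image (fun i => h i + 1), rg (P1 (HH X) (JJ δ X)) a n = 1) ∧
        m ≤ #((univ.image (fun i => h i + 1)).filter (fun a => (n + a).Prime))) ⊆
    (GX s d t κ h m δ X).filter (fun n => n % Wm X = b) := by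
  intro n hn
  rw [mem_filter, mem_filter] at hn
  obtain ⟨⟨hnI, hnT⟩, hrg, hm⟩ := hn
  have hnb : n % Wm X = b := by
    unfold SI at hnI
    exact (mem_filter.1 hnI).2
  rw [mem_filter]
  refine ⟨?_, hnb⟩
  unfold GX
  rw [mem_filter]
  refine ⟨hnT, ?_, ?_⟩
  · intro i p hp hpX hdvd
    by_cases hpH : p ≤ HH X
    · have h1 : p ∣ Wm X := by
        unfold Wm
        exact (hp.dvd_primorial_iff).2 hpH
      have h2 : n + 1 + h i ≡ b + 1 + h i [MOD Wm X] := by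
        have h3 : n ≡ b [MOD Wm X] := by
          rw [← hnb]
          exact (Nat.mod_modEq _ _).symm
        exact (h3.add_right 1).add_right (h i)
      have h4 : n + 1 + h i ≡ b + 1 + h i [MOD p] := h2.of_dvd h1
      have h5 : p ∣ b + 1 + h i := (Nat.ModEq.dvd_iff h4 dvd_rfl).1 hdvd
      have h6 := Nat.dvd_gcd h5 h1
      rw [hb i] at h6
      exact hp.one_lt.ne' (Nat.dvd_one.1 h6)
    · push Not at hpH
      have h1 := hrg (h i + 1) (mem_image.2 ⟨i, mem_univ _, rfl⟩)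
      unfold rg at h1
      have h2 : p ∈ P1 (HH X) (JJ δ X) := by
        unfold P1
        rw [mem_filter, mem_range]
        refine ⟨?_, hp, hpH⟩
        have h3 : (p : ℝ) < ((2 ^ 2 ^ JJ δ X : ℕ) : ℝ) := by
          push_cast
          exact hpX.trans_le hw2
        exact_mod_cast h3
      split_ifs at h1 with h3
      · apply h3 p h2
        have : n + (h i + 1) = n + 1 + h i := by omega
        rw [this]
        exact hdvd
      · norm_num at h1
  · refine hm.trans ?_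
    have h1 : (univ.image (fun i => h i + 1)).filter (fun a => (n + a).Prime) ⊆
        (univ.filter (fun i => (n + 1 + h i).Prime)).image (fun i => h i + 1) := by
      intro a ha
      rw [mem_filter, mem_image] at ha
      obtain ⟨⟨i, -, rfl⟩, hp⟩ := ha
      rw [mem_image]
      refine ⟨i, ?_, rfl⟩
      rw [mem_filter]
      refine ⟨mem_univ _, ?_⟩
      have : n + (h i + 1) = n + 1 + h i := by omega
      rwa [this] at hp
    exact (card_le_card h1).trans card_image_le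

open Classical in
/-- the count of the good elements -/
theorem thin_count (hMTT : S_MTT) (hMV : S_MV) (hWtx : Wtx) (m : ℕ) (lv : ℝ) (hlv0 : 0 < lv) (hlv : lv ≤ 1 / 16) :
    ∃ K : ℕ, 1 ≤ K ∧ ∀ (s : ℝ) (d : ℕ) (_ : ∀ (K' A' : ℕ), ∃ X₀ : ℕ, ∀ X : ℕ, X₀ ≤ X →
      ∀ b : ℕ, b < Wm X → ∀ κ t : ℝ, (X : ℝ) ^ (-lam d + 256 * lv) ≤ κ → κ ≤ 1 / 4 →
        EI X b (TT s d t κ X) κ lv K' A' ∧ ∀ a₀ ∈ Bw 1 X b, EP X b a₀ (TT s d t κ X) κ lv K' A')
      (_ : S_BSM K) (h : Fin K → ℕ) (_ : Function.Injective h) (_ : Adm h),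
      ∃ (δ c : ℝ) (X₀ : ℕ), 0 < δ ∧ δ ≤ 1 / 8 ∧ 0 < c ∧ ∀ X : ℕ, X₀ ≤ X → ∀ κ t : ℝ,
        (X : ℝ) ^ (-lam d + 256 * lv) ≤ κ → κ ≤ 1 / 4 →
        c * (κ * X / Real.log X ^ K) ≤ (#(GX s d t κ h m δ X) : ℝ) := by
  obtain ⟨K, hK, hM⟩ := hMTT m lv hlv0 hlv
  refine ⟨K, hK, fun s d hE hBSM h hinj hadm => ?_⟩
  obtain ⟨δ, c₁, K', A', X₁, hδ0, hδ8, hc₁, hM⟩ := hM 1 one_pos
  obtain ⟨X₂, hE⟩ := hE K' A'
  obtain ⟨c₂, hc₂, X₃, hB⟩ := hBSM h hinj hadm
  obtain ⟨cV, hcV, hMV⟩ := hMV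
  obtain ⟨X₄, hMV⟩ := hMV δ hδ0 (by linarith)
  obtain ⟨X₅, hW⟩ := hWtx.2 δ hδ0 (by linarith)
  have hev : ∀ᶠ X : ℕ in atTop, ((∑ i, (h i + 1) : ℕ) : ℝ) ≤ 1 * Real.log X := by
    have h1 : Tendsto (fun N : ℕ => 1 * Real.log (N : ℝ)) atTop atTop := by
      simp only [one_mul]
      exact Real.tendsto_log_atTop.comp tendsto_natCast_atTop_atTop
    exact h1.eventually_ge_atTop _
  obtain ⟨X₆, h6⟩ := eventually_atTop.1 hev
  refine ⟨δ, c₁ * c₂ * (cV / δ) ^ K, X₁ + X₂ + X₃ + X₄ + X₅ + X₆ + 16, hδ0, hδ8, by positivity, ?_⟩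
  intro X hX κ t hκ1 hκ2
  obtain ⟨hV0, hM⟩ := hM X (by omega)
  have hE := hE X (by omega)
  have hB := hB X (by omega)
  have hMV := hMV X (by omega)
  obtain ⟨-, hw2, -⟩ := hW X (by omega)
  have h6 := h6 X (by omega)
  have hX16 : (16 : ℝ) ≤ X := by exact_mod_cast (by omega : 16 ≤ X)
  have hX0 : (0 : ℝ) < X := by linarith
  have hL0 : 0 < Real.log X := Real.log_pos (by linarith)
  have hκ0 : 0 < κ := lt_of_lt_of_le (by positivity) hκ1
  have hWpos : 0 < Wm X := Pool.Agent.H361R2.PP.Wm_pos X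
  have hWr : (0 : ℝ) < Wm X := by exact_mod_cast hWpos
  have hφ : (0 : ℝ) < Nat.totient (Wm X) := by exact_mod_cast Nat.totient_pos.mpr hWpos
  obtain ⟨Cl, hCl⟩ : ∃ Cl : Finset ℕ, Cl = (range (Wm X)).filter (fun b => ∀ i, (b + 1 + h i).Coprime (Wm X)) :=
    ⟨_, rfl⟩
  have hBcard : #(univ.image (fun i => h i + 1)) = K := by
    rw [card_image_of_injective _ (fun i j hij => hinj (by simpa using hij)), card_univ, Fintype.card_fin]
  have hone : ∀ b ∈ Cl, c₁ * (κ * Om δ X K) ≤ (#((GX s d t κ h m δ X).filter (fun n => n % Wm X = b)) : ℝ) := by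
    intro b hb
    rw [hCl, mem_filter, mem_range] at hb
    obtain ⟨hbW, hbc⟩ := hb
    obtain ⟨hEI, hEP⟩ := hE b hbW κ t hκ1 hκ2
    have hBw : univ.image (fun i => h i + 1) ⊆ Bw 1 X b := by
      intro a ha
      rw [mem_image] at ha
      obtain ⟨i, -, rfl⟩ := ha
      unfold Bw
      rw [mem_BB]
      refine ⟨by omega, ?_, ?_⟩
      · apply Nat.le_floor
        refine le_trans ?_ h6
        have h7 : h i + 1 ≤ ∑ i, (h i + 1) :=
          single_le_sum (f := fun i => h i + 1) (fun _ _ => Nat.zero_le _) (mem_univ i)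
        exact_mod_cast h7
      · have := hbc i
        have h8 : b + (h i + 1) = b + 1 + h i := by omega
        rwa [h8]
    have h9 := hM b hbW (TT s d t κ X) κ hκ0 hEI (univ.image (fun i => h i + 1)) hBw hBcard
      (fun a ha => hEP a (hBw ha))
    refine h9.trans ?_
    have h10 := card_le_card (class_sub (s := s) (d := d) (t := t) (κ := κ) (h := h) (m := m) (δ := δ) (X := X) (b := b)
      hbc hw2)
    have h11 : ((#((GX s d t κ h m δ X).filter (fun n => n % Wm X = b)) : ℕ) : ℝ) ≥ _ := Nat.cast_le.2 h10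
    refine le_trans (le_of_eq ?_) h11
    congr!
  have hsum : (#Cl : ℝ) * (c₁ * (κ * Om δ X K)) ≤ (#(GX s d t κ h m δ X) : ℝ) := by
    have h1 : #(GX s d t κ h m δ X) = ∑ b ∈ range (Wm X), #((GX s d t κ h m δ X).filter (fun n => n % Wm X = b)) :=
      card_eq_sum_card_fiberwise (fun n _ => mem_coe.2 (mem_range.2 (Nat.mod_lt _ hWpos)))
    rw [h1]
    push_cast
    calc (#Cl : ℝ) * (c₁ * (κ * Om δ X K)) = ∑ b ∈ Cl, c₁ * (κ * Om δ X K) := by rw [sum_const, nsmul_eq_mul]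
      _ ≤ ∑ b ∈ Cl, (#((GX s d t κ h m δ X).filter (fun n => n % Wm X = b)) : ℝ) := sum_le_sum hone
      _ ≤ _ := by
          apply sum_le_sum_of_subset_of_nonneg
          · rw [hCl]; exact filter_subset _ _
          · intro _ _ _; positivity
  rw [← hCl] at hB
  refine le_trans ?_ hsum
  have hOm : Om δ X K = X / Wm X * VV δ X ^ K := rfl
  obtain ⟨v, hv⟩ : ∃ v : ℝ, v = VV δ X * ((Nat.totient (Wm X) : ℝ) / Wm X) := ⟨_, rfl⟩
  have hv0 : 0 < v := by rw [hv]; positivity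
  have hv1 : cV / δ / Real.log X ≤ v := by
    rw [← hv] at hMV
    rw [div_div, div_le_iff₀ (by positivity)]
    exact hMV
  calc c₁ * c₂ * (cV / δ) ^ K * (κ * X / Real.log X ^ K) = c₁ * c₂ * (κ * X) * (cV / δ / Real.log X) ^ K := by
        rw [div_pow (cV / δ)]
        ring
    _ ≤ c₁ * c₂ * (κ * X) * v ^ K := by
        gcongr
    _ = c₂ * (Wm X * ((Nat.totient (Wm X) : ℝ) / Wm X) ^ K) * (c₁ * (κ * Om δ X K)) := by
        rw [hv, hOm, mul_pow]
        field_simp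
    _ ≤ (#Cl : ℝ) * (c₁ * (κ * Om δ X K)) := by
        apply mul_le_mul_of_nonneg_right hB
        rw [hOm]
        positivity

end Run7.h994.MC
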