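import Pool.Agent.Run7.h994.MC.FinA
import Pool.Agent.Run7.h757.BP.Fin

/-!
# Project MC: the lower bound for the number of the pairs
-/

set_option autoImplicit false

namespace Run7.h994.MC

open Finset Filter Topology
open Run7.h462.BPG (lam lam_pos lam_le_quarter lam_le_inv)
open Pool.Agent.H361R2.PP (Wtx)
open Pool.Agent.W70.HR (S_MV)
open scoped Polynomial

/-- all the `F(n) + a + h_i` are free of prime factors `≤ N^ρ` and at least `m` of them are primes -/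
def Gd {k : ℕ} (F : ℤ[X]) (h : Fin k → ℕ) (m : ℕ) (ρ : ℝ) (N n a : ℕ) : Prop :=
  (∀ i, ∀ p : ℕ, p.Prime → (p : ℝ) ≤ (N : ℝ) ^ ρ → ¬ (p : ℤ) ∣ F.eval (n : ℤ) + a + h i) ∧
    m ≤ #(univ.filter (fun i => Nat.Prime (F.eval (n : ℤ) + a + h i).toNat))

open Classical in
/-- the good pairs -/
noncomputable def PN {k : ℕ} (F : ℤ[X]) (h : Fin k → ℕ) (m : ℕ) (ρ : ℝ) (N A : ℕ) : Finset (ℕ × ℕ) :=
  ((Icc 1 N) ×ˢ (Icc 1 A)).filter (fun t => Gd F h m ρ N t.1 t.2)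

theorem GX_le_PN {k : ℕ} {F : ℤ[X]} {h : Fin k → ℕ} {m : ℕ} {s ρ δ t κ : ℝ} {d N A X : ℕ}
    (hG : ∀ v ∈ TT s d t κ X, ∃ n ∈ Icc 1 N, ∃ a ∈ Icc 1 (A - 1), (v : ℤ) = F.eval (n : ℤ) + a)
    (hρ : (N : ℝ) ^ ρ < (X : ℝ) ^ (δ / 2)) : #(GX s d t κ h m δ X) ≤ #(PN F h m ρ N A) := by
  classical
  have h1 : GX s d t κ h m δ X ⊆ (PN F h m ρ N A).image (fun t => (F.eval (t.1 : ℤ) + t.2 - 1).toNat) := by
    intro v hv
    unfold GX at hv
    rw [mem_filter] at hv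
    obtain ⟨hvT, hr, hm⟩ := hv
    obtain ⟨n, hn, a, ha, hva⟩ := hG v hvT
    rw [mem_Icc] at ha
    rw [mem_image]
    refine ⟨(n, a + 1), ?_, ?_⟩
    · unfold PN
      rw [mem_filter, mem_product]
      refine ⟨⟨hn, mem_Icc.2 ⟨by omega, by omega⟩⟩, ?_⟩
      have hval : ∀ i, F.eval (n : ℤ) + ((a + 1 : ℕ) : ℤ) + h i = ((v + 1 + h i : ℕ) : ℤ) := by
        intro i
        push_cast
        rw [hva]
        ring
      refine ⟨?_, ?_⟩
      · intro i p hp hpN hdvd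
        simp only at hdvd
        rw [hval i, Int.natCast_dvd_natCast] at hdvd
        exact hr i p hp (lt_of_le_of_lt hpN hρ) hdvd
      · refine hm.trans (card_le_card ?_)
        intro i hi
        rw [mem_filter] at hi ⊢
        refine ⟨mem_univ _, ?_⟩
        simp only
        rw [hval i, Int.toNat_natCast]
        exact hi.2
    · simp only
      push_cast
      have : F.eval (n : ℤ) + ((a : ℤ) + 1) - 1 = v := by rw [hva]; ring
      rw [this, Int.toNat_natCast]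
  exact (card_le_card h1).trans card_image_le

/-- the lower bound for the number of the good pairs -/
theorem pairs (hMTT : S_MTT) (hMV : S_MV) (hWtx : Wtx) (d : ℕ) (hd : 2 ≤ d) (m : ℕ) (ε : ℝ) (hε : 0 < ε) :
    ∃ K : ℕ, 1 ≤ K ∧ ∀ F : ℤ[X], F.natDegree = d → S_GEO F → S_EQT ((F.leadingCoeff : ℝ) ^ (-1 / (d : ℝ))) d →
      S_BSM K → ∀ h : Fin K → ℕ, Function.Injective h → Adm h →
      ∃ c ρ : ℝ, 0 < c ∧ 0 < ρ ∧ ρ ≤ 1 / 10 ∧ ∃ N₀ : ℕ, ∀ N : ℕ, N₀ ≤ N → ∀ A : ℕ,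
        (N : ℝ) ^ ((1 - lam d) * (d : ℝ) - 1 + ε) ≤ A → (A : ℝ) ≤ c * (N : ℝ) ^ (d - 1) →
        c * (A * N / Real.log N ^ K) ≤ (#(PN F h m ρ N A) : ℝ) := by
  have hdR : (2 : ℝ) ≤ d := by exact_mod_cast hd
  have hd0 : (0 : ℝ) < d := by linarith
  have hl0 := lam_pos (d := d) (by omega)
  have hl4 := lam_le_quarter d
  have hli := lam_le_inv d
  obtain ⟨ε₁, hε₁⟩ : ∃ ε₁ : ℝ, ε₁ = min (ε / (2 * d)) (lam d / 2) := ⟨_, rfl⟩
  have hε₁0 : 0 < ε₁ := by rw [hε₁]; exact lt_min (by positivity) (by linarith)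
  have hε₁a : ε₁ ≤ ε / (2 * d) := by rw [hε₁]; exact min_le_left _ _
  have hε₁b : ε₁ ≤ lam d / 2 := by rw [hε₁]; exact min_le_right _ _
  obtain ⟨K, hK, hthin⟩ := thin_count hMTT hMV hWtx m (ε₁ / 256) (by positivity) (by linarith)
  refine ⟨K, hK, fun F hF hGEO hEQT hBSM h hinj hadm => ?_⟩
  have e256 : 256 * (ε₁ / 256) = ε₁ := by ring
  obtain ⟨δ, c₁, X₁, hδ0, hδ8, hc₁, hthin⟩ := hthin _ d (fun K' A' => by
    have h1 := hEQT ε₁ 1 K' A' hε₁0 (by linarith) one_pos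
    rw [e256]
    exact h1) hBSM h hinj hadm
  rw [e256] at hthin
  obtain ⟨β, c₀, C₀, N₁, hc₀, hC₀, hG⟩ := hGEO
  rw [hF] at hG
  obtain ⟨c, hc⟩ : ∃ c : ℝ, c = min c₀ (c₁ * (c₀ ^ 2 / (2 * (2 * d) ^ K))) := ⟨_, rfl⟩
  have hc0 : 0 < c := by rw [hc]; exact lt_min hc₀ (by positivity)
  have hcc₀ : c ≤ c₀ := by rw [hc]; exact min_le_left _ _
  have hcc₁ : c ≤ c₁ * (c₀ ^ 2 / (2 * (2 * d) ^ K)) := by rw [hc]; exact min_le_right _ _
  -- largeness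
  have hlimL : Tendsto (fun N : ℕ => Real.log (N : ℝ)) atTop atTop :=
    Real.tendsto_log_atTop.comp tendsto_natCast_atTop_atTop
  have hlimp : ∀ p : ℝ, 0 < p → Tendsto (fun N : ℕ => (N : ℝ) ^ p) atTop atTop := fun p hp =>
    (tendsto_rpow_atTop hp).comp tendsto_natCast_atTop_atTop
  obtain ⟨M1, hM1⟩ := eventually_atTop.1 (Run7.h757.BP.Fin.rpow_ge_log ε hε 1 1 one_pos)
  obtain ⟨M2, hM2⟩ := eventually_atTop.1 ((hlimp (ε / 2) (by positivity)).eventually_ge_atTop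
    (c₀ ^ (-lam d + ε₁) * (2 / c₀)))
  obtain ⟨M3, hM3⟩ := eventually_atTop.1 ((hlimp 1 one_pos).eventually_ge_atTop (1 / c₀ + X₁ / c₀ + C₀ + 4))
  obtain ⟨M4, hM4⟩ := eventually_atTop.1 ((hlimp (ε / 2) (by positivity)).eventually_ge_atTop 2)
  obtain ⟨M5, hM5⟩ := eventually_atTop.1 (Run7.h757.BP.Fin.rpow_ge_log (ε / 2) (by positivity) 1 1 one_pos)
  refine ⟨c, δ / 4, hc0, by positivity, by linarith, N₁ + M1 + M2 + M3 + M4 + M5 + 4, fun N hN A hA1 hA2 => ?_⟩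
  have g1 := hM1 N (by omega)
  have g2 := hM2 N (by omega)
  have g3 := hM3 N (by omega)
  have g4 := hM4 N (by omega)
  have g5 := hM5 N (by omega)
  rw [Real.rpow_one] at g3
  have hNr : (4 : ℝ) ≤ N := by exact_mod_cast (by omega : 4 ≤ N)
  have hN0 : (0 : ℝ) < N := by linarith
  have hN1 : (1 : ℝ) ≤ N := by linarith
  obtain ⟨L, hL⟩ : ∃ L : ℝ, L = Real.log N := ⟨_, rfl⟩
  have hL1 : 1 ≤ L := by
    rw [hL, Real.le_log_iff_exp_le hN0]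
    have := Real.exp_one_lt_d9
    linarith
  rw [← hL, pow_one, one_mul] at g1 g5
  -- `A`
  have hexp : ((d - 2 : ℕ) : ℝ) + ε ≤ (1 - lam d) * (d : ℝ) - 1 + ε := by
    rw [Nat.cast_sub hd]
    push_cast
    have h1 : lam d * d ≤ 1 := by
      rw [le_div_iff₀ hd0] at hli
      exact hli
    linarith
  have hA3 : (N : ℝ) ^ (d - 2) * (N : ℝ) ^ ε ≤ A := by
    calc (N : ℝ) ^ (d - 2) * (N : ℝ) ^ ε = (N : ℝ) ^ (((d - 2 : ℕ) : ℝ) + ε) := by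
          rw [Real.rpow_add hN0, Real.rpow_natCast]
      _ ≤ (N : ℝ) ^ ((1 - lam d) * (d : ℝ) - 1 + ε) := Real.rpow_le_rpow_of_exponent_le hN1 hexp
      _ ≤ A := hA1
  have hNd2 : (1 : ℝ) ≤ (N : ℝ) ^ (d - 2) := one_le_pow₀ hN1
  have hNε : L + 1 ≤ (N : ℝ) ^ ε := by
    have h1 : (N : ℝ) ^ ε = (N : ℝ) ^ (ε / 2) * (N : ℝ) ^ (ε / 2) := by
      rw [← Real.rpow_add hN0]
      congr 1
      ring
    rw [h1]
    nlinarith
  have hA4 : (N : ℝ) ^ (d - 2) * L + 1 ≤ A := by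
    have h1 : (N : ℝ) ^ (d - 2) * (L + 1) ≤ A := (mul_le_mul_of_nonneg_left hNε (by positivity)).trans hA3
    linarith
  have hA2' : (2 : ℝ) ≤ A := by nlinarith
  have hAn : 2 ≤ A := by exact_mod_cast hA2'
  have hAm : ((A - 1 : ℕ) : ℝ) = A - 1 := by
    rw [Nat.cast_sub (by omega)]
    push_cast
    ring
  obtain ⟨X, κ, hX1, hX2, hκ1, hκ2, hTT⟩ := hG N (A - 1) (by omega) (by rw [← hL, hAm]; linarith) (by
    rw [hAm]
    have : c * (N : ℝ) ^ (d - 1) ≤ c₀ * (N : ℝ) ^ (d - 1) := by gcongr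
    linarith)
  rw [hAm] at hκ1
  -- `X`
  have hNd : (N : ℝ) ^ d = N * (N : ℝ) ^ (d - 1) := by
    rw [← pow_succ']
    congr 1
    omega
  have hNd1 : (N : ℝ) ≤ (N : ℝ) ^ (d - 1) := by
    calc (N : ℝ) = (N : ℝ) ^ 1 := (pow_one _).symm
      _ ≤ (N : ℝ) ^ (d - 1) := pow_le_pow_right₀ hN1 (by omega)
  have hcN : 1 / c₀ + X₁ / c₀ + C₀ + 4 ≤ (N : ℝ) := g3
  have hX₁0 : (0 : ℝ) ≤ X₁ := Nat.cast_nonneg _
  have hcN1 : 1 ≤ c₀ * N := by
    have : 1 / c₀ ≤ N := by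
      have : 0 ≤ X₁ / c₀ := by positivity
      linarith
    rw [div_le_iff₀ hc₀] at this
    linarith
  have hcN2 : X₁ ≤ c₀ * N := by
    have : X₁ / c₀ ≤ N := by
      have : 0 ≤ 1 / c₀ := by positivity
      linarith
    rw [div_le_iff₀ hc₀] at this
    linarith
  have hCN : C₀ ≤ N := by
    have : 0 ≤ X₁ / c₀ := by positivity
    have : 0 ≤ 1 / c₀ := by positivity
    linarith
  have hXN : (N : ℝ) ≤ X := by
    calc (N : ℝ) ≤ (N : ℝ) ^ (d - 1) := hNd1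
      _ = 1 * (N : ℝ) ^ (d - 1) := (one_mul _).symm
      _ ≤ (c₀ * N) * (N : ℝ) ^ (d - 1) := by gcongr
      _ = c₀ * (N : ℝ) ^ d := by rw [hNd]; ring
      _ ≤ X := hX1
  have hX0 : (0 : ℝ) < X := by linarith
  have hXX₁ : X₁ ≤ X := by
    have : (X₁ : ℝ) ≤ X := by
      calc (X₁ : ℝ) ≤ c₀ * N := hcN2
        _ ≤ c₀ * (N : ℝ) ^ d := by
            rw [hNd]
            have : (N : ℝ) * 1 ≤ N * (N : ℝ) ^ (d - 1) := by
              gcongr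
              linarith
            nlinarith
        _ ≤ X := hX1
    exact_mod_cast this
  have hρ : (N : ℝ) ^ (δ / 4) < (X : ℝ) ^ (δ / 2) := by
    calc (N : ℝ) ^ (δ / 4) < (N : ℝ) ^ (δ / 2) :=
          Real.rpow_lt_rpow_of_exponent_lt (by linarith) (by linarith)
      _ ≤ (X : ℝ) ^ (δ / 2) := Real.rpow_le_rpow hN0.le hXN (by positivity)
  -- `κ`
  have hAhalf : (A : ℝ) / 2 ≤ A - 1 := by linarith
  have hκ3 : c₀ / 2 * (A / (N : ℝ) ^ (d - 1)) ≤ κ := by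
    refine le_trans ?_ hκ1
    have h1 : c₀ / 2 * (A / (N : ℝ) ^ (d - 1)) = c₀ * (A / 2 / (N : ℝ) ^ (d - 1)) := by ring
    rw [h1]
    gcongr
  have hκ4 : (X : ℝ) ^ (-lam d + ε₁) ≤ κ := by
    have hneg : -lam d + ε₁ ≤ 0 := by linarith
    have hcNd : 0 < c₀ * (N : ℝ) ^ d := by positivity
    have h1 : (X : ℝ) ^ (-lam d + ε₁) ≤ (c₀ * (N : ℝ) ^ d) ^ (-lam d + ε₁) :=
      Real.rpow_le_rpow_of_nonpos hcNd hX1 hneg
    have h2 : (c₀ * (N : ℝ) ^ d) ^ (-lam d + ε₁) = c₀ ^ (-lam d + ε₁) * (N : ℝ) ^ (-lam d * d + d * ε₁) := by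
      rw [Real.mul_rpow hc₀.le (by positivity), ← Real.rpow_natCast, ← Real.rpow_mul hN0.le]
      congr 2
      ring
    have h3 : (d : ℝ) * ε₁ ≤ ε / 2 := by
      have : ε₁ * (2 * d) ≤ ε := by rwa [le_div_iff₀ (by positivity)] at hε₁a
      linarith
    have h4 : (N : ℝ) ^ (-lam d * d + d * ε₁) ≤ (N : ℝ) ^ (-lam d * d + ε / 2) :=
      Real.rpow_le_rpow_of_exponent_le hN1 (by linarith)
    have h5 : (N : ℝ) ^ (-lam d * d + ε) = (N : ℝ) ^ (-lam d * d + ε / 2) * (N : ℝ) ^ (ε / 2) := by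
      rw [← Real.rpow_add hN0]
      congr 1
      ring
    have h6 : (N : ℝ) ^ (-lam d * d + ε) ≤ A / (N : ℝ) ^ (d - 1) := by
      rw [le_div_iff₀ (by positivity)]
      calc (N : ℝ) ^ (-lam d * d + ε) * (N : ℝ) ^ (d - 1) =
          (N : ℝ) ^ (-lam d * d + ε) * (N : ℝ) ^ (((d - 1 : ℕ) : ℝ)) := by rw [Real.rpow_natCast]
        _ = (N : ℝ) ^ ((1 - lam d) * (d : ℝ) - 1 + ε) := by
            rw [← Real.rpow_add hN0]
            congr 1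
            rw [Nat.cast_sub (by omega)]
            push_cast
            ring
        _ ≤ A := hA1
    calc (X : ℝ) ^ (-lam d + ε₁) ≤ c₀ ^ (-lam d + ε₁) * (N : ℝ) ^ (-lam d * d + d * ε₁) := by rw [← h2]; exact h1
      _ ≤ c₀ ^ (-lam d + ε₁) * (N : ℝ) ^ (-lam d * d + ε / 2) := by gcongr
      _ = (c₀ / 2) * ((N : ℝ) ^ (-lam d * d + ε / 2) * (c₀ ^ (-lam d + ε₁) * (2 / c₀))) := by
          field_simp
      _ ≤ (c₀ / 2) * ((N : ℝ) ^ (-lam d * d + ε / 2) * (N : ℝ) ^ (ε / 2)) := by gcongr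
      _ = (c₀ / 2) * (N : ℝ) ^ (-lam d * d + ε) := by rw [h5]
      _ ≤ (c₀ / 2) * (A / (N : ℝ) ^ (d - 1)) := by gcongr
      _ ≤ κ := hκ3
  have hκ0 : 0 < κ := lt_of_lt_of_le (by positivity) hκ4
  have hmain := hthin X hXX₁ κ (β - κ) hκ4 hκ2
  have hcard : (#(GX ((F.leadingCoeff : ℝ) ^ (-1 / (d : ℝ))) d (β - κ) κ h m δ X) : ℝ) ≤
      #(PN F h m (δ / 4) N A) := by
    exact_mod_cast GX_le_PN hTT hρ
  refine le_trans ?_ (hmain.trans hcard)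
  -- `log X`
  have hLX1 : 0 < Real.log X := Real.log_pos (by linarith)
  have hLX : Real.log X ≤ 2 * d * L := by
    have h1 : Real.log X ≤ Real.log (C₀ * (N : ℝ) ^ d) := Real.log_le_log hX0 hX2
    rw [Real.log_mul (by linarith) (by positivity), Real.log_pow, ← hL] at h1
    have h2 : Real.log C₀ ≤ L := by rw [hL]; exact Real.log_le_log (by linarith) hCN
    nlinarith
  have hLXK : Real.log X ^ K ≤ (2 * d) ^ K * L ^ K := by
    rw [← mul_pow]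
    exact pow_le_pow_left₀ hLX1.le hLX K
  rw [← hL]
  have hL0 : 0 < L := by linarith
  calc c * (A * N / L ^ K) ≤ c₁ * (c₀ ^ 2 / (2 * (2 * d) ^ K)) * (A * N / L ^ K) := by gcongr
    _ = c₁ * ((c₀ / 2 * (A / (N : ℝ) ^ (d - 1))) * (c₀ * (N : ℝ) ^ d) / ((2 * d) ^ K * L ^ K)) := by
        rw [hNd]
        field_simp
    _ ≤ c₁ * (κ * X / Real.log X ^ K) := by
        gcongr

end Run7.h994.MC
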