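import Pool.Agent.Run7.h994.MC.FinB
import Pool.Agent.Run7.h462.KT.Bas
import Pool.Agent.Run7.h304.KT.GA

/-!
# Project MC: from the pairs to the values of `a` and to the values of `n`
-/

set_option autoImplicit false

namespace Run7.h994.MC

open Finset Filter Topology
open Pool.Agent.H373R2.T7 (pz Vz Vz_pos)
open Run7.h462.KT (gk sh inj S_SQK S_CLK gk_nonneg mem_inj)
open scoped Polynomial

/-- the Cauchy-Schwarz argument -/
theorem cs_count {S Ex : Finset ℕ} {f g : ℕ → ℝ} {A c C₃ C₄ : ℝ} (hc : 0 < c) (hC₃ : 0 < C₃) (hC₄ : 0 < C₄)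
    (hS : (#S : ℝ) ≤ A) (hEx : Ex ⊆ S) (hg : ∀ a, 0 ≤ g a)
    (h1 : c * A ≤ ∑ a ∈ S, f a) (h2 : ∑ a ∈ Ex, f a ≤ c / 4 * A) (h3 : ∀ a ∈ S, a ∉ Ex → f a ≤ C₃ * g a)
    (h4 : ∑ a ∈ S, g a ^ 2 ≤ C₄ * A) (h5 : ∀ a, 0 ≤ f a) :
    c ^ 2 / (4 * C₃ ^ 2 * C₄) * A ≤ (#(S.filter (fun a => c / 4 ≤ f a)) : ℝ) := by
  classical
  obtain ⟨G, hG⟩ : ∃ G : Finset ℕ, G = S.filter (fun a => c / 4 ≤ f a) := ⟨_, rfl⟩
  have hGS : G ⊆ S := by rw [hG]; exact filter_subset _ _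
  rw [← hG]
  have e1 : ∑ a ∈ S, f a ≤ ∑ a ∈ Ex, f a + #S * (c / 4) + ∑ a ∈ G, C₃ * g a := by
    have h6 : ∀ a ∈ S, f a ≤ (if a ∈ Ex then f a else 0) + c / 4 + (if a ∈ G then C₃ * g a else 0) := by
      intro a ha
      have hp : 0 ≤ C₃ * g a := mul_nonneg hC₃.le (hg a)
      by_cases haE : a ∈ Ex
      · rw [if_pos haE]
        split_ifs <;> linarith
      · rw [if_neg haE]
        by_cases haG : a ∈ G
        · rw [if_pos haG]
          have := h3 a ha haE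
          linarith
        · rw [if_neg haG]
          have h7 : ¬ c / 4 ≤ f a := by
            intro h8
            apply haG
            rw [hG, mem_filter]
            exact ⟨ha, h8⟩
          linarith
    refine (sum_le_sum h6).trans (le_of_eq ?_)
    rw [sum_add_distrib, sum_add_distrib, sum_const, nsmul_eq_mul]
    have e2 : ∑ a ∈ S, (if a ∈ Ex then f a else 0) = ∑ a ∈ Ex, f a := by
      rw [← sum_filter]
      congr 1
      ext a
      rw [mem_filter]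
      exact ⟨fun h => h.2, fun h => ⟨hEx h, h⟩⟩
    have e3 : ∑ a ∈ S, (if a ∈ G then C₃ * g a else 0) = ∑ a ∈ G, (C₃ * g a) := by
      rw [← sum_filter]
      congr 1
      ext a
      rw [mem_filter]
      exact ⟨fun h => h.2, fun h => ⟨hGS h, h⟩⟩
    rw [e2, e3]
  rw [← mul_sum] at e1
  have e4 : (#S : ℝ) * (c / 4) ≤ A * (c / 4) := mul_le_mul_of_nonneg_right hS (by positivity)
  have e5 : c / 2 * A ≤ C₃ * ∑ a ∈ G, g a := by linarith
  obtain ⟨t, ht⟩ : ∃ t : ℝ, t = c / (2 * C₃ * C₄) := ⟨_, rfl⟩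
  have ht0 : 0 < t := by rw [ht]; positivity
  have e6 : ∑ a ∈ G, g a ≤ #G / (2 * t) + t / 2 * (C₄ * A) := by
    have h6 : ∀ a ∈ G, g a ≤ 1 / (2 * t) + t / 2 * g a ^ 2 := by
      intro a _
      have h7 : g a * (2 * t) ≤ (1 / (2 * t) + t / 2 * g a ^ 2) * (2 * t) := by
        have e7 : (1 / (2 * t) + t / 2 * g a ^ 2) * (2 * t) = 1 + t ^ 2 * g a ^ 2 := by field_simp
        rw [e7]
        nlinarith [sq_nonneg (t * g a - 1)]
      exact le_of_mul_le_mul_right h7 (by positivity)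
    calc ∑ a ∈ G, g a ≤ ∑ a ∈ G, (1 / (2 * t) + t / 2 * g a ^ 2) := sum_le_sum h6
      _ = #G * (1 / (2 * t)) + t / 2 * ∑ a ∈ G, g a ^ 2 := by
          rw [sum_add_distrib, sum_const, nsmul_eq_mul, mul_sum]
      _ ≤ #G * (1 / (2 * t)) + t / 2 * (C₄ * A) := by
          have h8 : ∑ a ∈ G, g a ^ 2 ≤ ∑ a ∈ S, g a ^ 2 := by
            apply sum_le_sum_of_subset_of_nonneg hGS
            intro a _ _; positivity
          have h9 := h8.trans h4
          gcongr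
      _ = _ := by ring
  have e7 : C₃ * (t / 2 * (C₄ * A)) = c / 4 * A := by
    rw [ht]
    field_simp
    ring
  have e8 : C₃ * ∑ a ∈ G, g a ≤ C₃ * (#G / (2 * t)) + C₃ * (t / 2 * (C₄ * A)) := by
    have := mul_le_mul_of_nonneg_left e6 hC₃.le
    linarith
  have e9 : c / 4 * A ≤ C₃ * (#G / (2 * t)) := by linarith
  have e10 : C₃ * (#G / (2 * t)) = #G * (C₃ ^ 2 * C₄ / c) := by
    rw [ht]
    field_simp
  rw [e10] at e9
  calc c ^ 2 / (4 * C₃ ^ 2 * C₄) * A = c / 4 * A * (c / (C₃ ^ 2 * C₄)) := by field_simp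
    _ ≤ #G * (C₃ ^ 2 * C₄ / c) * (c / (C₃ ^ 2 * C₄)) := by gcongr
    _ = #G := by field_simp

open Classical in
theorem card_PN {k : ℕ} (F : ℤ[X]) (h : Fin k → ℕ) (m : ℕ) (ρ : ℝ) (N A : ℕ) :
    #(PN F h m ρ N A) = ∑ a ∈ Icc 1 A, #((Icc 1 N).filter (fun n => Gd F h m ρ N n a)) ∧
    #(PN F h m ρ N A) = ∑ n ∈ Icc 1 N, #((Icc 1 A).filter (fun a => Gd F h m ρ N n a)) := by
  unfold PN
  simp only [card_filter]
  exact ⟨sum_product_right _ _ _, sum_product _ _ _⟩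

theorem sh_inj' {k : ℕ} {h : Fin k → ℕ} (hinj : Function.Injective h) (y : ℕ) : Function.Injective (sh y h) := by
  intro i j hij
  unfold sh at hij
  exact hinj (by omega)

open Classical in
/-- a positive proportion of the `a` -/
theorem sideA (F : ℤ[X]) (hd2 : 2 ≤ F.natDegree) {K : ℕ} (h : Fin K → ℕ) (hinj : Function.Injective h)
    (hRUB : S_RUB F K) (hSQ : S_SQK F K) (hCL : S_CLK F K) (m : ℕ) {ρ c : ℝ} (hρ : 0 < ρ) (hρ1 : ρ ≤ 1 / 10)
    (hc : 0 < c) : ∃ c' : ℝ, 0 < c' ∧ ∃ N₀ : ℕ, ∀ N : ℕ, N₀ ≤ N → ∀ A : ℕ, (N : ℝ) ^ (1 / 2 : ℝ) ≤ A →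
      (A : ℝ) ≤ (N : ℝ) ^ (F.natDegree - 1) → c * (A * N / Real.log N ^ K) ≤ (#(PN F h m ρ N A) : ℝ) →
      c' * A ≤ (#((Icc 1 A).filter (fun a => c' * (N / Real.log N ^ K) ≤
        (#((Icc 1 N).filter (fun n => Gd F h m ρ N n a)) : ℝ))) : ℝ) := by
  obtain ⟨C₁, κ, hC₁, hκ, -, N₁, hR⟩ := hRUB ρ hρ hρ1
  obtain ⟨E₀, hCL⟩ := hCL (K + 1) 1 one_pos
  obtain ⟨A₁, hCL⟩ := hCL (E₀ + 4) (by omega)
  obtain ⟨C₃, hC₃, A₂, hSQ⟩ := hSQ (E₀ + 4)
  obtain ⟨E, hE⟩ : ∃ E : ℕ, E = E₀ + 4 := ⟨_, rfl⟩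
  rw [← hE] at hCL hSQ
  obtain ⟨Hm, hHm⟩ : ∃ Hm : ℕ, Hm = ∑ i, h i + 1 := ⟨_, rfl⟩
  have hhi : ∀ i, h i < Hm := by
    intro i
    have : h i ≤ ∑ i, h i := single_le_sum (f := h) (fun _ _ => Nat.zero_le _) (mem_univ i)
    omega
  have hHm0 : (0 : ℝ) < Hm := by
    have : 0 < Hm := by omega
    exact_mod_cast this
  obtain ⟨D₃, hD₃⟩ : ∃ D₃ : ℝ, D₃ = 2 * C₁ / κ ^ K := ⟨_, rfl⟩
  have hD₃0 : 0 < D₃ := by rw [hD₃]; positivity
  obtain ⟨D₄, hD₄⟩ : ∃ D₄ : ℝ, D₄ = C₃ * (Hm : ℝ) ^ K := ⟨_, rfl⟩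
  have hD₄0 : 0 < D₄ := by rw [hD₄]; positivity
  obtain ⟨c', hc'⟩ : ∃ c' : ℝ, c' = min (c / 4) (c ^ 2 / (4 * D₃ ^ 2 * D₄)) := ⟨_, rfl⟩
  have hc'0 : 0 < c' := by rw [hc']; exact lt_min (by positivity) (by positivity)
  have hc'1 : c' ≤ c / 4 := by rw [hc']; exact min_le_left _ _
  have hc'2 : c' ≤ c ^ 2 / (4 * D₃ ^ 2 * D₄) := by rw [hc']; exact min_le_right _ _
  -- largeness
  have hlimL : Tendsto (fun N : ℕ => Real.log (N : ℝ)) atTop atTop :=
    Real.tendsto_log_atTop.comp tendsto_natCast_atTop_atTop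
  have hlimp : ∀ p : ℝ, 0 < p → Tendsto (fun N : ℕ => (N : ℝ) ^ p) atTop atTop := fun p hp =>
    (tendsto_rpow_atTop hp).comp tendsto_natCast_atTop_atTop
  have hdR2 : (2 : ℝ) ≤ F.natDegree := by exact_mod_cast hd2
  obtain ⟨M1, hM1⟩ := eventually_atTop.1 (Run7.h757.BP.Fin.rpow_ge_log κ hκ E ((F.natDegree : ℝ) ^ E) (by positivity))
  obtain ⟨M2, hM2⟩ := eventually_atTop.1 (Run7.h757.BP.Fin.rpow_ge_log (1 / 2) (by norm_num) K (8 * (K * Hm + 1) / c)
    (by positivity))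
  obtain ⟨M3, hM3⟩ := eventually_atTop.1 (hlimL.eventually_ge_atTop (8 * K * 2 ^ (K + 1) / c + 8))
  obtain ⟨M5, hM5⟩ := eventually_atTop.1 ((hlimp (1 / 2) (by norm_num)).eventually_ge_atTop ((A₁ : ℝ) + A₂ + 2))
  refine ⟨c', hc'0, N₁ + M1 + M2 + M3 + M5 + 10, fun N hN A hA1 hA2 hPN => ?_⟩
  have g1 := hM1 N (by omega)
  have g2 := hM2 N (by omega)
  have g3 := hM3 N (by omega)
  have g5 := hM5 N (by omega)
  obtain ⟨L, hL⟩ : ∃ L : ℝ, L = Real.log N := ⟨_, rfl⟩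
  rw [← hL] at g1 g2 g3 hPN ⊢
  have hNR : (10 : ℝ) ≤ N := by exact_mod_cast (by omega : 10 ≤ N)
  have hN0 : (0 : ℝ) < N := by linarith
  have hN1 : (1 : ℝ) ≤ N := by linarith
  have h8c : 0 ≤ 8 * (K : ℝ) * 2 ^ (K + 1) / c := by positivity
  have hL8 : 8 ≤ L := by linarith
  have hL0 : 0 < L := by linarith
  have hAbig : (A₁ : ℝ) + A₂ + 2 ≤ A := g5.trans hA1
  have hAbig' : A₁ + A₂ + 2 ≤ A := by exact_mod_cast hAbig
  have hA₁0 : (0 : ℝ) ≤ A₁ := Nat.cast_nonneg _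
  have hA₂0 : (0 : ℝ) ≤ A₂ := Nat.cast_nonneg _
  have hApos : (0 : ℝ) < A := by linarith
  obtain ⟨LA, hLA⟩ : ∃ LA : ℝ, LA = Real.log A := ⟨_, rfl⟩
  have hLA1 : L / 2 ≤ LA := by
    rw [hLA]
    have h1 := Real.log_le_log (by positivity) hA1
    rw [Real.log_rpow hN0, ← hL] at h1
    linarith
  have hLA2 : LA ≤ F.natDegree * L := by
    rw [hLA]
    have h1 := Real.log_le_log hApos hA2
    rw [Real.log_pow, ← hL] at h1
    have h2 : ((F.natDegree - 1 : ℕ) : ℝ) ≤ F.natDegree := by exact_mod_cast (by omega : F.natDegree - 1 ≤ F.natDegree)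
    exact h1.trans (mul_le_mul_of_nonneg_right h2 hL0.le)
  have hLA0 : 0 < LA := by linarith
  have hLA4 : 4 ≤ LA := by linarith
  -- `w`
  obtain ⟨w, hw⟩ : ∃ w : ℕ, w = ⌊LA ^ E⌋₊ := ⟨_, rfl⟩
  have hwle : (w : ℝ) ≤ LA ^ E := by rw [hw]; exact Nat.floor_le (by positivity)
  have hw2 : 2 ≤ w := by
    have h1 : LA ^ E < w + 1 := by rw [hw]; exact Nat.lt_floor_add_one _
    have h2 : LA ^ 1 ≤ LA ^ E := pow_le_pow_right₀ (by linarith) (by omega)
    rw [pow_one] at h2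
    have h3 : (2 : ℝ) < w := by linarith
    exact_mod_cast h3.le
  have h4L : LA ^ E ≤ (F.natDegree : ℝ) ^ E * L ^ E := by
    rw [← mul_pow]
    exact pow_le_pow_left₀ hLA0.le hLA2 _
  obtain ⟨z, hz2, hzκ, hzρ, hzR⟩ := hR N (by omega)
  have hwz : w ≤ z := by
    have h1 : (w : ℝ) ≤ z := hwle.trans (h4L.trans (g1.trans hzκ))
    exact_mod_cast h1
  have hz3 : z ^ 3 ≤ A := by
    have h1 : ((z ^ 3 : ℕ) : ℝ) ≤ A := by
      push_cast
      calc (z : ℝ) ^ 3 ≤ ((N : ℝ) ^ (1 / 10 : ℝ)) ^ 3 := by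
            apply pow_le_pow_left₀ (Nat.cast_nonneg _)
            exact hzρ.trans (Real.rpow_le_rpow_of_exponent_le hN1 hρ1)
        _ = (N : ℝ) ^ (3 / 10 : ℝ) := by
            rw [← Real.rpow_natCast, ← Real.rpow_mul hN0.le]
            norm_num
        _ ≤ (N : ℝ) ^ (1 / 2 : ℝ) := Real.rpow_le_rpow_of_exponent_le hN1 (by norm_num)
        _ ≤ A := hA1
    exact_mod_cast h1
  obtain ⟨Bt, hBt1, hBt2, hBt3⟩ := hCL A (by omega)
  rw [← hLA] at hBt2 hBt3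
  rw [← hw] at hBt3
  obtain ⟨S, hS⟩ : ∃ S : Finset ℕ, S = Icc 1 A := ⟨_, rfl⟩
  obtain ⟨Ex, hEx⟩ : ∃ Ex : Finset ℕ, Ex = S.filter (fun a => ∃ i, a + h i ∈ Bt ∨ A < a + h i) := ⟨_, rfl⟩
  have hExS : Ex ⊆ S := by rw [hEx]; exact filter_subset _ _
  have hSc : (#S : ℝ) ≤ A := by rw [hS, Nat.card_Icc, Nat.add_sub_cancel]
  have hExc : (#Ex : ℝ) ≤ K * (A / LA ^ (K + 1) + Hm) := by
    have h1 : Ex ⊆ (univ : Finset (Fin K)).biUnion (fun i => (S.filter (fun a => a + h i ∈ Bt)) ∪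
        (S.filter (fun a => A < a + h i))) := by
      intro a ha
      rw [hEx, mem_filter] at ha
      obtain ⟨h2, i, hi⟩ := ha
      rw [mem_biUnion]
      refine ⟨i, mem_univ _, ?_⟩
      rw [mem_union, mem_filter, mem_filter]
      rcases hi with hi | hi
      · exact Or.inl ⟨h2, hi⟩
      · exact Or.inr ⟨h2, hi⟩
    have h2 : ∀ i : Fin K, #((S.filter (fun a => a + h i ∈ Bt)) ∪ (S.filter (fun a => A < a + h i))) ≤ #Bt + Hm := by
      intro i
      refine (card_union_le _ _).trans (Nat.add_le_add ?_ ?_)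
      · apply Finset.card_le_card_of_injOn (fun a => a + h i)
        · intro a ha
          rw [mem_coe, mem_filter] at ha
          exact ha.2
        · intro a _ b _ hab
          simp only at hab
          omega
      · have h3 : S.filter (fun a => A < a + h i) ⊆ Ioc (A - h i) A := by
          intro a ha
          rw [mem_filter, hS, mem_Icc] at ha
          rw [mem_Ioc]
          omega
        refine (card_le_card h3).trans ?_
        rw [Nat.card_Ioc]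
        have := hhi i
        omega
    have h3 : #Ex ≤ K * (#Bt + Hm) := by
      refine (card_le_card h1).trans (card_biUnion_le.trans ?_)
      refine (sum_le_sum fun i _ => h2 i).trans ?_
      simp
    have h4 : (#Ex : ℝ) ≤ K * ((#Bt : ℝ) + Hm) := by exact_mod_cast h3
    refine h4.trans ?_
    gcongr
  have hExn : ∀ a ∈ S, a ∉ Ex → ∀ i, a + h i ∉ Bt ∧ a + h i ≤ A := by
    intro a ha haE i
    constructor
    · intro hB
      apply haE
      rw [hEx, mem_filter]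
      exact ⟨ha, i, Or.inl hB⟩
    · by_contra hB
      apply haE
      rw [hEx, mem_filter]
      exact ⟨ha, i, Or.inr (by omega)⟩
  obtain ⟨NL, hNL⟩ : ∃ NL : ℝ, NL = (N : ℝ) / L ^ K := ⟨_, rfl⟩
  have hNL0 : 0 < NL := by rw [hNL]; positivity
  obtain ⟨R, hRd⟩ : ∃ R : ℕ → ℝ, R = fun a => (#((Icc 1 N).filter (fun n => Gd F h m ρ N n a)) : ℝ) := ⟨_, rfl⟩
  have hRa : ∀ a, (#((Icc 1 N).filter (fun n => Gd F h m ρ N n a)) : ℝ) = R a := fun a => by rw [hRd]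
  have hR0 : ∀ a, 0 ≤ R a := by
    intro a
    rw [← hRa a]
    exact Nat.cast_nonneg _
  have hRN : ∀ a, R a ≤ N := by
    intro a
    rw [← hRa a]
    have h1 : #((Icc 1 N).filter (fun n => Gd F h m ρ N n a)) ≤ #(Icc 1 N) := card_filter_le _ _
    rw [Nat.card_Icc, Nat.add_sub_cancel] at h1
    exact_mod_cast h1
  obtain ⟨G1, hG1⟩ : ∃ G1 : ℕ → ℝ, G1 = fun a => gk F (sh a h) w := ⟨_, rfl⟩
  have hG1a : ∀ a, gk F (sh a h) w = G1 a := fun a => by rw [hG1]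
  have hG10 : ∀ a, 0 ≤ G1 a := by
    intro a
    rw [← hG1a a]
    exact gk_nonneg F _ w
  have hsum : c * (A * N / L ^ K) ≤ ∑ a ∈ S, R a := by
    rw [(card_PN F h m ρ N A).1] at hPN
    push_cast at hPN
    rw [hS]
    refine hPN.trans (le_of_eq ?_)
    exact sum_congr rfl fun a _ => hRa a
  have hVz : Vz z ≤ 1 / (κ * L) := by
    have h1 : Vz z ≤ 1 / Real.log z := Pool.Agent.N792.V1_le z hz2
    refine h1.trans (one_div_le_one_div_of_le (by positivity) ?_)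
    have h2 := Real.log_le_log (by positivity) hzκ
    rw [Real.log_rpow hN0, ← hL] at h2
    exact h2
  have hVz0 : 0 < Vz z := Vz_pos z
  have hup : ∀ a ∈ S, a ∉ Ex → R a / NL ≤ D₃ * G1 a := by
    intro a ha haE
    have hB := hExn a ha haE
    rw [hS, mem_Icc] at ha
    have h1 := hBt3 (sh a h) (sh_inj' hinj a) (fun i => by
      rw [mem_Icc]
      have := (hB i).2
      unfold sh
      omega) (fun i => (hB i).1) z hwz hz3
    rw [hG1a] at h1
    have h2 := (abs_le.1 h1).2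
    have h3 : gk F (sh a h) z ≤ 2 * G1 a := by linarith
    have h5 := hzR (sh a h) 0
    have h50 : 0 ≤ gk F (sh a h) z := gk_nonneg F _ z
    have h6 : R a ≤ Rk F (sh a h) 0 z N := by
      rw [← hRa a]
      unfold Rk
      apply Nat.cast_le.2
      apply card_le_card
      intro n hn
      rw [mem_filter] at hn ⊢
      refine ⟨hn.1, ?_⟩
      intro i p hp hpz hdvd
      refine hn.2.1 i p hp ?_ ?_
      · refine le_trans ?_ hzρ
        exact_mod_cast hpz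
      · unfold sh at hdvd
        push_cast at hdvd
        rw [zero_add] at hdvd
        have e : F.eval (n : ℤ) + (a : ℤ) + h i = F.eval (n : ℤ) + ((a : ℤ) + h i) := by ring
        rw [e]
        exact hdvd
    rw [div_le_iff₀ hNL0]
    calc R a ≤ C₁ * N * (Vz z ^ K * gk F (sh a h) z) := h6.trans h5
      _ ≤ C₁ * N * ((1 / (κ * L)) ^ K * (2 * G1 a)) := by gcongr
      _ = D₃ * G1 a * NL := by
          rw [hD₃, hNL, div_pow, one_pow, mul_pow]
          field_simp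
  have hSQ' : ∑ a ∈ S, G1 a ^ 2 ≤ D₄ * A := by
    have h1 := hSQ A (by omega) w hw2 (by rw [← hLA]; exact hwle) Hm
    have h2 : h ∈ inj K Hm := mem_inj.2 ⟨hhi, hinj⟩
    have h3 : ∑ y ∈ Icc 1 A, gk F (sh y h) w ^ 2 ≤ ∑ h' ∈ inj K Hm, ∑ y ∈ Icc 1 A, gk F (sh y h') w ^ 2 :=
      single_le_sum (f := fun h' => ∑ y ∈ Icc 1 A, gk F (sh y h') w ^ 2)
        (fun _ _ => sum_nonneg fun _ _ => by positivity) h2
    rw [hS, hG1, hD₄]
    calc ∑ a ∈ Icc 1 A, gk F (sh a h) w ^ 2 ≤ _ := h3.trans h1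
      _ = _ := by ring
  have hExs : ∑ a ∈ Ex, R a / NL ≤ c / 4 * A := by
    have h1 : ∑ a ∈ Ex, R a / NL ≤ ∑ _a ∈ Ex, L ^ K := by
      apply sum_le_sum
      intro a _
      rw [div_le_iff₀ hNL0, hNL]
      have := hRN a
      calc R a ≤ N := this
        _ = L ^ K * (N / L ^ K) := by field_simp
    refine h1.trans ?_
    rw [sum_const, nsmul_eq_mul]
    have h2 : (K : ℝ) * (A / LA ^ (K + 1)) * L ^ K ≤ c / 8 * A := by
      calc (K : ℝ) * (A / LA ^ (K + 1)) * L ^ K ≤ (K : ℝ) * (A / (L / 2) ^ (K + 1)) * L ^ K := by gcongr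
        _ = A * (K * 2 ^ (K + 1) / L) := by
            rw [div_pow, pow_succ L]
            field_simp
        _ ≤ A * (c / 8) := by
            apply mul_le_mul_of_nonneg_left _ hApos.le
            rw [div_le_iff₀ hL0]
            have h3 : 8 * (K : ℝ) * 2 ^ (K + 1) / c ≤ L := by linarith
            rw [div_le_iff₀ hc] at h3
            linarith
        _ = _ := by ring
    have h3 : (K : ℝ) * Hm * L ^ K ≤ c / 8 * A := by
      have h4 : 8 * ((K : ℝ) * Hm + 1) / c * L ^ K ≤ A := g2.trans hA1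
      rw [div_mul_eq_mul_div, div_le_iff₀ hc] at h4
      have h5 : 0 < L ^ K := by positivity
      nlinarith
    have h4 := mul_le_mul_of_nonneg_right hExc (by positivity : (0 : ℝ) ≤ L ^ K)
    calc (#Ex : ℝ) * L ^ K ≤ K * (A / LA ^ (K + 1) + Hm) * L ^ K := h4
      _ = (K : ℝ) * (A / LA ^ (K + 1)) * L ^ K + (K : ℝ) * Hm * L ^ K := by ring
      _ ≤ c / 8 * A + c / 8 * A := add_le_add h2 h3
      _ = _ := by ring
  have hfin := cs_count (S := S) (Ex := Ex) (f := fun a => R a / NL) (g := G1) (A := A) (c := c) (C₃ := D₃) (C₄ := D₄)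
    hc hD₃0 hD₄0 hSc hExS hG10 (by
      rw [← sum_div, le_div_iff₀ hNL0]
      refine le_trans (le_of_eq ?_) hsum
      rw [hNL]
      ring) hExs hup hSQ' (fun a => div_nonneg (hR0 a) hNL0.le)
  calc c' * A ≤ c ^ 2 / (4 * D₃ ^ 2 * D₄) * A := mul_le_mul_of_nonneg_right hc'2 hApos.le
    _ ≤ _ := hfin
    _ ≤ _ := by
        apply Nat.cast_le.2
        apply card_le_card
        intro a ha
        rw [mem_filter] at ha ⊢
        rw [← hS]
        refine ⟨ha.1, ?_⟩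
        rw [hRa, ← hNL]
        have h1 := ha.2
        rw [le_div_iff₀ hNL0] at h1
        exact (mul_le_mul_of_nonneg_right hc'1 hNL0.le).trans h1

/-- the truncated singular series of a fixed linear tuple is bounded -/
theorem gk_fixed {K : ℕ} (h : Fin K → ℕ) (hinj : Function.Injective h) : ∃ (G : ℝ) (y : ℕ), 0 < G ∧
    ∀ w : ℕ, y ≤ w → gk (Polynomial.X : ℤ[X]) h w ≤ G := by
  classical
  obtain ⟨y, hy⟩ : ∃ y : ℕ, y = ∑ i, h i := ⟨_, rfl⟩
  have hV := Vz_pos y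
  refine ⟨(Vz y ^ K)⁻¹, y, by positivity, fun w hw => ?_⟩
  have h1 := Run7.h304.KT.gk_split h y w hw
  have h2 : (pz w).filter (fun p => y < p ∧ Run7.h462.KT.ov h p) = ∅ := by
    rw [filter_eq_empty_iff]
    rintro p - ⟨hp, i, j, hij, hmod⟩
    have hi : h i ≤ y := by rw [hy]; exact single_le_sum (f := h) (fun _ _ => Nat.zero_le _) (mem_univ i)
    have hj : h j ≤ y := by rw [hy]; exact single_le_sum (f := h) (fun _ _ => Nat.zero_le _) (mem_univ j)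
    have := Nat.ModEq.eq_of_lt_of_lt hmod (by omega) (by omega)
    exact hij (hinj this)
  rw [h2, prod_empty, mul_one] at h1
  exact h1.trans (Run7.h304.KT.gk_le h y)

open Classical in
/-- a positive proportion of the `n` -/
theorem sideN (F : ℤ[X]) (hd2 : 2 ≤ F.natDegree) {K : ℕ} (h : Fin K → ℕ) (hinj : Function.Injective h)
    (hRUB : S_RUB (Polynomial.X : ℤ[X]) K) (m : ℕ) {ρ c : ℝ} (hρ : 0 < ρ) (hρ1 : ρ ≤ 1 / 10)
    (hc : 0 < c) : ∃ c' : ℝ, 0 < c' ∧ ∃ N₀ : ℕ, ∀ N : ℕ, N₀ ≤ N → ∀ A : ℕ, (N : ℝ) ^ (1 / 2 : ℝ) ≤ A →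
      (A : ℝ) ≤ (N : ℝ) ^ (F.natDegree - 1) → c * (A * N / Real.log N ^ K) ≤ (#(PN F h m ρ N A) : ℝ) →
      c' * N ≤ (#((Icc 1 N).filter (fun n => c' * (A / Real.log N ^ K) ≤
        (#((Icc 1 A).filter (fun a => Gd F h m ρ N n a)) : ℝ))) : ℝ) := by
  have hdR2 : (2 : ℝ) ≤ F.natDegree := by exact_mod_cast hd2
  have hdR0 : (0 : ℝ) < F.natDegree := by linarith
  obtain ⟨ρ', hρ'⟩ : ∃ ρ' : ℝ, ρ' = ρ / F.natDegree := ⟨_, rfl⟩
  have hρ'0 : 0 < ρ' := by rw [hρ']; positivity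
  have hρ'1 : ρ' ≤ 1 / 10 := by
    rw [hρ', div_le_iff₀ hdR0]
    nlinarith
  obtain ⟨C₁, κ, hC₁, hκ, -, N₁, hR⟩ := hRUB ρ' hρ'0 hρ'1
  obtain ⟨G, y, hG0, hG⟩ := gk_fixed h hinj
  obtain ⟨C₅, hC₅⟩ : ∃ C₅ : ℝ, C₅ = C₁ * ((2 / κ) ^ K * G) := ⟨_, rfl⟩
  have hC₅0 : 0 < C₅ := by rw [hC₅]; positivity
  obtain ⟨c', hc'⟩ : ∃ c' : ℝ, c' = min (c / 2) (c / (2 * C₅)) := ⟨_, rfl⟩
  have hc'0 : 0 < c' := by rw [hc']; exact lt_min (by positivity) (by positivity)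
  have hc'1 : c' ≤ c / 2 := by rw [hc']; exact min_le_left _ _
  have hc'2 : c' ≤ c / (2 * C₅) := by rw [hc']; exact min_le_right _ _
  have hlimp : ∀ p : ℝ, 0 < p → Tendsto (fun N : ℕ => (N : ℝ) ^ p) atTop atTop := fun p hp =>
    (tendsto_rpow_atTop hp).comp tendsto_natCast_atTop_atTop
  obtain ⟨M1, hM1⟩ := eventually_atTop.1 ((hlimp (1 / 2) (by norm_num)).eventually_ge_atTop ((N₁ : ℝ) + 2))
  obtain ⟨M2, hM2⟩ := eventually_atTop.1 ((hlimp (κ / 2) (by positivity)).eventually_ge_atTop (y : ℝ))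
  refine ⟨c', hc'0, M1 + M2 + 10, fun N hN A hA1 hA2 hPN => ?_⟩
  have g1 := hM1 N (by omega)
  have g2 := hM2 N (by omega)
  obtain ⟨L, hL⟩ : ∃ L : ℝ, L = Real.log N := ⟨_, rfl⟩
  rw [← hL] at hPN ⊢
  have hNR : (10 : ℝ) ≤ N := by exact_mod_cast (by omega : 10 ≤ N)
  have hN0 : (0 : ℝ) < N := by linarith
  have hN1 : (1 : ℝ) ≤ N := by linarith
  have hL0 : 0 < L := by rw [hL]; exact Real.log_pos (by linarith)
  have hN₁0 : (0 : ℝ) ≤ N₁ := Nat.cast_nonneg _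
  have hAbig : (N₁ : ℝ) + 2 ≤ A := g1.trans hA1
  have hAbig' : N₁ + 2 ≤ A := by exact_mod_cast hAbig
  have hApos : (0 : ℝ) < A := by linarith
  have hLA1 : L / 2 ≤ Real.log A := by
    have h1 := Real.log_le_log (by positivity) hA1
    rw [Real.log_rpow hN0, ← hL] at h1
    linarith
  obtain ⟨z, hz2, hzκ, hzρ, hzR⟩ := hR A (by omega)
  have hyz : y ≤ z := by
    have h1 : (y : ℝ) ≤ z := by
      refine g2.trans (le_trans ?_ hzκ)
      calc (N : ℝ) ^ (κ / 2) = ((N : ℝ) ^ (1 / 2 : ℝ)) ^ κ := by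
            rw [← Real.rpow_mul hN0.le]
            congr 1
            ring
        _ ≤ (A : ℝ) ^ κ := Real.rpow_le_rpow (by positivity) hA1 hκ.le
    exact_mod_cast h1
  have hzN : (z : ℝ) ≤ (N : ℝ) ^ ρ := by
    refine hzρ.trans ?_
    calc (A : ℝ) ^ ρ' ≤ ((N : ℝ) ^ (F.natDegree - 1)) ^ ρ' := Real.rpow_le_rpow hApos.le hA2 hρ'0.le
      _ = (N : ℝ) ^ (((F.natDegree - 1 : ℕ) : ℝ) * ρ') := by
          rw [← Real.rpow_natCast, ← Real.rpow_mul hN0.le]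
      _ ≤ (N : ℝ) ^ ρ := by
          apply Real.rpow_le_rpow_of_exponent_le hN1
          rw [hρ', mul_div_assoc', div_le_iff₀ hdR0]
          have : ((F.natDegree - 1 : ℕ) : ℝ) ≤ F.natDegree := by exact_mod_cast (by omega : F.natDegree - 1 ≤ F.natDegree)
          nlinarith
  have hVz : Vz z ≤ 2 / (κ * L) := by
    have h1 : Vz z ≤ 1 / Real.log z := Pool.Agent.N792.V1_le z hz2
    have h2 : κ * L / 2 ≤ Real.log z := by
      have h3 := Real.log_le_log (by positivity) hzκ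
      rw [Real.log_rpow hApos] at h3
      refine le_trans ?_ h3
      have := mul_le_mul_of_nonneg_left hLA1 hκ.le
      linarith
    refine h1.trans ((one_div_le_one_div_of_le (by positivity) h2).trans (le_of_eq ?_))
    rw [one_div_div]
  have hVz0 : 0 < Vz z := Vz_pos z
  obtain ⟨AL, hAL⟩ : ∃ AL : ℝ, AL = (A : ℝ) / L ^ K := ⟨_, rfl⟩
  have hAL0 : 0 < AL := by rw [hAL]; positivity
  obtain ⟨R, hRd⟩ : ∃ R : ℕ → ℝ, R = fun n => (#((Icc 1 A).filter (fun a => Gd F h m ρ N n a)) : ℝ) := ⟨_, rfl⟩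
  have hRa : ∀ n, (#((Icc 1 A).filter (fun a => Gd F h m ρ N n a)) : ℝ) = R n := fun n => by rw [hRd]
  have hsum : c * (A * N / L ^ K) ≤ ∑ n ∈ Icc 1 N, R n := by
    rw [(card_PN F h m ρ N A).2] at hPN
    push_cast at hPN
    refine hPN.trans (le_of_eq ?_)
    exact sum_congr rfl fun n _ => hRa n
  have hup : ∀ n, R n ≤ C₅ * AL := by
    intro n
    have h5 := hzR h (F.eval (n : ℤ))
    have h6 : R n ≤ Rk (Polynomial.X : ℤ[X]) h (F.eval (n : ℤ)) z A := by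
      rw [← hRa n]
      unfold Rk
      apply Nat.cast_le.2
      apply card_le_card
      intro a ha
      rw [mem_filter] at ha ⊢
      refine ⟨ha.1, ?_⟩
      intro i p hp hpz hdvd
      rw [Polynomial.eval_X] at hdvd
      refine ha.2.1 i p hp ?_ hdvd
      refine le_trans ?_ hzN
      exact_mod_cast hpz
    calc R n ≤ C₁ * A * (Vz z ^ K * gk (Polynomial.X : ℤ[X]) h z) := h6.trans h5
      _ ≤ C₁ * A * ((2 / (κ * L)) ^ K * G) := by
          have := hG z hyz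
          have h0 := gk_nonneg (Polynomial.X : ℤ[X]) h z
          gcongr
      _ = C₅ * AL := by
          rw [hC₅, hAL, div_pow, div_pow, mul_pow]
          field_simp
  obtain ⟨Gs, hGs⟩ : ∃ Gs : Finset ℕ, Gs = (Icc 1 N).filter (fun n => c' * (A / L ^ K) ≤
        (#((Icc 1 A).filter (fun a => Gd F h m ρ N n a)) : ℝ)) := ⟨_, rfl⟩
  rw [← hGs]
  have h1 : ∑ n ∈ Icc 1 N, R n ≤ ∑ n ∈ Icc 1 N, ((if n ∈ Gs then C₅ * AL else 0) + c / 2 * AL) := by
    apply sum_le_sum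
    intro n hn
    by_cases hnG : n ∈ Gs
    · rw [if_pos hnG]
      have := hup n
      have : 0 ≤ c / 2 * AL := by positivity
      linarith
    · rw [if_neg hnG]
      have h2 : R n < c' * AL := by
        by_contra h3
        push Not at h3
        apply hnG
        rw [hGs, mem_filter]
        refine ⟨hn, ?_⟩
        rw [hRa, ← hAL]
        exact h3
      have h3 : c' * AL ≤ c / 2 * AL := mul_le_mul_of_nonneg_right hc'1 hAL0.le
      linarith
  have h2 : ∑ n ∈ Icc 1 N, ((if n ∈ Gs then C₅ * AL else 0) + c / 2 * AL) = #Gs * (C₅ * AL) + N * (c / 2 * AL) := by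
    rw [sum_add_distrib, ← sum_filter, sum_const, sum_const, nsmul_eq_mul, nsmul_eq_mul, Nat.card_Icc,
      Nat.add_sub_cancel]
    congr 3
    apply congrArg
    ext n
    rw [mem_filter, hGs, mem_filter]
    tauto
  have h3 : c * (A * N / L ^ K) = c * N * AL := by rw [hAL]; ring
  have h4 : c / 2 * N ≤ #Gs * C₅ := by
    have h5 : (c / 2 * N) * AL ≤ (#Gs * C₅) * AL := by
      rw [h3] at hsum
      rw [h2] at h1
      nlinarith
    exact le_of_mul_le_mul_right h5 hAL0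
  calc c' * N ≤ c / (2 * C₅) * N := mul_le_mul_of_nonneg_right hc'2 hN0.le
    _ = c / 2 * N / C₅ := by field_simp
    _ ≤ #Gs * C₅ / C₅ := div_le_div_of_nonneg_right h4 hC₅0.le
    _ = #Gs := by field_simp

end Run7.h994.MC
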