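import Pool.Agent.Run7.h994.MC.FinC
import Pool.Agent.Run7.h994.MC.AsmE
import Pool.Agent.Run7.h462.KT.All
import Pool.Agent.Run7.h888.MC.TIA
import Pool.Agent.Run7.h888.MC.GEO
import Pool.Agent.Run7.h888.MC.BSM
import Pool.Agent.Run7.h834.MC.ESQ
import Pool.Agent.Run7.h834.MC.TRQ
import Pool.Agent.Run7.h56.MC.INQ
import Pool.Agent.Run7.h56.MC.PRQ
import Pool.Agent.Run7.h688.MC2.EQT
import Pool.Agent.Run7.h304.MC.RUB

/-!
# Project MC: the assembled theorems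
-/

set_option autoImplicit false

namespace Run7.h994.MC

open Finset Filter Topology
open Run7.h462.BPG (lam lam_pos lam_le_quarter lam_le_inv)
open scoped Polynomial

/-- equidistribution of the thin sets -/
theorem eqtA (s : ℝ) (hs : 0 < s) (d : ℕ) (hd : 2 ≤ d) : S_EQT s d := by
  have hbil := Run7.h462.BPG.bil _ d hd (Run7.h462.BPD.tii _ hs d hd (Run7.h462.BPD.spc d (by omega)))
  exact Run7.h688.MC2.eqt s d hd (Run7.h56.MC.inq s hs d hd)
    (Run7.h56.MC.prq s hs d hd (Run7.h834.MC.trq (Run7.h834.MC.esq Run7.h757.BP.Vau.vau hbil (Run7.h888.MC.tia s hs d hd))))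

open Classical in
/-- the theorem of project MC -/
theorem main (d : ℕ) (hd : 2 ≤ d) (m : ℕ) (ε : ℝ) (hε : 0 < ε) :
    ∃ K : ℕ, 1 ≤ K ∧ ∀ F : ℤ[X], F.natDegree = d → 0 < F.leadingCoeff →
      ∀ h : Fin K → ℕ, Function.Injective h → Adm h →
      ∃ c ρ : ℝ, 0 < c ∧ 0 < ρ ∧ ∃ N₀ : ℕ, ∀ N : ℕ, N₀ ≤ N → ∀ A : ℕ,
        (N : ℝ) ^ ((1 - lam d) * (d : ℝ) - 1 + ε) ≤ A → (A : ℝ) ≤ (N : ℝ) ^ (d - 1) →
        c * A ≤ (#((Icc 1 A).filter (fun a => c * (N / Real.log N ^ K) ≤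
          (#((Icc 1 N).filter (fun n => Gd F h m ρ N n a)) : ℝ))) : ℝ) ∧
        c * N ≤ (#((Icc 1 N).filter (fun n => c * (A / Real.log N ^ K) ≤
          (#((Icc 1 A).filter (fun a => Gd F h m ρ N n a)) : ℝ))) : ℝ) := by
  obtain ⟨K, hK, H⟩ := pairs mttA Pool.Agent.W70.HR.mv Pool.Agent.H325R2.wtx d hd m (ε / 2) (by positivity)
  refine ⟨K, hK, fun F hF hl h hinj hadm => ?_⟩
  have hs : (0 : ℝ) < (F.leadingCoeff : ℝ) ^ (-1 / (d : ℝ)) := by
    apply Real.rpow_pos_of_pos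
    exact_mod_cast hl
  obtain ⟨c, ρ, hc, hρ, hρ1, N₁, H⟩ := H F hF (Run7.h888.MC.geo F (by omega) hl) (eqtA _ hs d hd) (Run7.h888.MC.bsm K) h
    hinj hadm
  have hOV : Run7.h462.KT.S_OV K := Run7.h304.KT.ov_main K
  have hd2 : 2 ≤ F.natDegree := by omega
  obtain ⟨b, hb⟩ : ∃ b : ℝ, b = min c 1 := ⟨_, rfl⟩
  have hb0 : 0 < b := by rw [hb]; exact lt_min hc one_pos
  have hb1 : b ≤ 1 := by rw [hb]; exact min_le_right _ _
  have hbc : b ≤ c := by rw [hb]; exact min_le_left _ _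
  obtain ⟨cA, hcA, N₂, HA⟩ := sideA F hd2 h hinj (Pool.Agent.Run7.h304.MC.RUB F K)
    (Run7.h824.KT.sqk F K hl.ne' (by omega) hOV) (Run7.h462.KT.clk F K (by omega)) m hρ hρ1 hc
  obtain ⟨cN, hcN, N₃, HN⟩ := sideN F hd2 h hinj (Pool.Agent.Run7.h304.MC.RUB _ K) m hρ hρ1 hc
  obtain ⟨c', hc'⟩ : ∃ c' : ℝ, c' = min cA cN * (b / 2) := ⟨_, rfl⟩
  have hmin0 : 0 < min cA cN := lt_min hcA hcN
  have hc'0 : 0 < c' := by rw [hc']; positivity
  have hb2 : b / 2 ≤ 1 := by linarith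
  have hc'A : c' ≤ cA * (b / 2) := by
    rw [hc']
    exact mul_le_mul_of_nonneg_right (min_le_left _ _) (by positivity)
  have hc'N : c' ≤ cN * (b / 2) := by
    rw [hc']
    exact mul_le_mul_of_nonneg_right (min_le_right _ _) (by positivity)
  have hc'A1 : c' ≤ cA := hc'A.trans (by nlinarith)
  have hc'N1 : c' ≤ cN := hc'N.trans (by nlinarith)
  have hlimp : ∀ p : ℝ, 0 < p → Tendsto (fun N : ℕ => (N : ℝ) ^ p) atTop atTop := fun p hp =>
    (tendsto_rpow_atTop hp).comp tendsto_natCast_atTop_atTop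
  obtain ⟨M4, hM4⟩ := eventually_atTop.1 ((hlimp (ε / 2) (by positivity)).eventually_ge_atTop (2 / b))
  refine ⟨c', ρ, hc'0, hρ, N₁ + N₂ + N₃ + M4 + 10, fun N hN A0 hA1 hA2 => ?_⟩
  have g4 := hM4 N (by omega)
  have hNR : (10 : ℝ) ≤ N := by exact_mod_cast (by omega : 10 ≤ N)
  have hN0 : (0 : ℝ) < N := by linarith
  have hN1 : (1 : ℝ) ≤ N := by linarith
  obtain ⟨e, he⟩ : ∃ e : ℝ, e = (1 - lam d) * (d : ℝ) - 1 := ⟨_, rfl⟩
  have hdR2 : (2 : ℝ) ≤ d := by exact_mod_cast hd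
  have he2 : 1 / 2 ≤ e := by
    have hlam4 := lam_le_quarter d
    have h1 : 3 / 4 * 2 ≤ (1 - lam d) * (d : ℝ) := by
      apply mul_le_mul (by linarith) hdR2 (by norm_num) (by linarith)
    rw [he]
    linarith
  rw [← he] at hA1 H
  obtain ⟨A, hA⟩ : ∃ A : ℕ, A = ⌊b * A0⌋₊ := ⟨_, rfl⟩
  have hA0R : (0 : ℝ) ≤ A0 := Nat.cast_nonneg _
  have hAle : (A : ℝ) ≤ b * A0 := by rw [hA]; exact Nat.floor_le (by positivity)
  have hNe1 : 1 ≤ (N : ℝ) ^ (e + ε / 2) := Real.one_le_rpow hN1 (by linarith)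
  have hbA0 : 2 * (N : ℝ) ^ (e + ε / 2) ≤ b * A0 := by
    have h1 : (N : ℝ) ^ (e + ε) = (N : ℝ) ^ (e + ε / 2) * (N : ℝ) ^ (ε / 2) := by
      rw [← Real.rpow_add hN0]
      congr 1
      ring
    rw [h1] at hA1
    have h2 : (N : ℝ) ^ (e + ε / 2) * (2 / b) ≤ A0 := by
      refine le_trans ?_ hA1
      gcongr
    calc 2 * (N : ℝ) ^ (e + ε / 2) = b * ((N : ℝ) ^ (e + ε / 2) * (2 / b)) := by field_simp
      _ ≤ _ := by gcongr
  have hAge2 : b * A0 / 2 ≤ A := by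
    have h1 : b * A0 < A + 1 := by rw [hA]; exact Nat.lt_floor_add_one _
    linarith
  have hAge : (N : ℝ) ^ (e + ε / 2) ≤ A := by linarith
  have hAlec : (A : ℝ) ≤ c * (N : ℝ) ^ (d - 1) := by
    refine hAle.trans ?_
    gcongr
  have hAA0r : (A : ℝ) ≤ A0 := by
    refine hAle.trans ?_
    calc b * A0 ≤ 1 * A0 := by gcongr
      _ = A0 := one_mul _
  have hAA0 : A ≤ A0 := by exact_mod_cast hAA0r
  have hAN : (A : ℝ) ≤ (N : ℝ) ^ (F.natDegree - 1) := by
    rw [hF]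
    exact hAA0r.trans hA2
  have hAhalf : (N : ℝ) ^ (1 / 2 : ℝ) ≤ A :=
    (Real.rpow_le_rpow_of_exponent_le hN1 (by linarith)).trans hAge
  have hP := H N (by omega) A hAge hAlec
  have h1 := HA N (by omega) A hAhalf hAN hP
  have h2 := HN N (by omega) A hAhalf hAN hP
  have hL0 : 0 < Real.log N := Real.log_pos (by linarith)
  constructor
  · calc c' * A0 ≤ cA * (b / 2) * A0 := mul_le_mul_of_nonneg_right hc'A hA0R
      _ = cA * (b * A0 / 2) := by ring
      _ ≤ cA * A := by gcongr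
      _ ≤ _ := h1
      _ ≤ _ := by
          apply Nat.cast_le.2
          apply card_le_card
          intro a ha
          rw [mem_filter, mem_Icc] at ha ⊢
          refine ⟨⟨ha.1.1, ha.1.2.trans hAA0⟩, le_trans ?_ ha.2⟩
          gcongr
  · calc c' * N ≤ cN * N := by gcongr
      _ ≤ _ := h2
      _ ≤ _ := by
          apply Nat.cast_le.2
          apply card_le_card
          intro n hn
          rw [mem_filter] at hn ⊢
          refine ⟨hn.1, ?_⟩
          have h3 : (#((Icc 1 A).filter (fun a => Gd F h m ρ N n a)) : ℝ) ≤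
              #((Icc 1 A0).filter (fun a => Gd F h m ρ N n a)) := by
            apply Nat.cast_le.2
            apply card_le_card
            apply filter_subset_filter
            exact Icc_subset_Icc_right hAA0
          refine le_trans ?_ (hn.2.trans h3)
          calc c' * (A0 / Real.log N ^ K) ≤ cN * (b / 2) * (A0 / Real.log N ^ K) := by gcongr
            _ = cN * (b * A0 / 2 / Real.log N ^ K) := by ring
            _ ≤ cN * (A / Real.log N ^ K) := by gcongr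

end Run7.h994.MC
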