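import Pool.Agent.Run7.h994.MC.Stm
import Pool.Agent.W327.HR.Mlb

/-!
# Project MC, piece MLT: correlations in a set `T` (the text is that of `Pool/Agent/W327/HR/Mlb.lean`)
-/

set_option autoImplicit false

open Finset Filter Topology

namespace Run7.h994.MC

open Pool.Agent.H361R2.PP
open Pool.Agent.H410R2
open Pool.Agent.H862R2.PPSm5
open Pool.Agent.W70.HR
open W327.HR
open Pool.Agent.H410R2.AC (wt GG cfg term WW pos Inj coef)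

open Classical in
theorem coreT {N K : ℕ} (hB : MBody N K) {Λ θ lv δ d G : ℝ} {b X b0 : ℕ} (hΛ : 0 < Λ)
    (hθ : 0 < θ) (_hθ1 : θ ≤ lv) (hlv : lv ≤ 1 / 4) (hδ : 0 < δ) (hδ1 : δ ≤ 1 / 8)
    (hKb : K ≤ b) (hδb : δ * (K * b) ≤ θ / 4) (hd0 : 0 < d) (hd : d ≤ 1)
    (hX16 : 16 ≤ X) (hKH : K ≤ HH X) (hw1 : (2 : ℝ) ^ 2 ^ JJ δ X ≤ (X : ℝ) ^ δ)
    (hw3 : HH X < 2 ^ 2 ^ JJ δ X) (hJ : 1 ≤ JJ δ X)
    (hPi : ∏ p ∈ P2 (JJ δ X) X, (1 + (1 : ℝ) / ((p : ℝ) - 1)) ≤ G)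
    (hdl : ∀ P : Finset ℕ, (∀ p ∈ P, p.Prime ∧ HH X < p) → ∀ U : Finset ℕ, U.card ≤ N →
      (∀ a ∈ U, 1 ≤ a ∧ (a : ℝ) ≤ Λ * Real.log X) → ∀ o : Option ℕ,
      (∀ a ∈ o, 1 ≤ a ∧ (a : ℝ) ≤ Λ * Real.log X ∧ a ∉ U) → EN.dl (ee o) rho P U ≤ d)
    {o : Option ℕ} {S : Finset ℕ} {Ω E : ℝ} {Er : Finset ℕ → ℝ} (hΩ : 0 ≤ Ω) (hE0 : 0 ≤ E)
    (hEq : Eqd o ((PX X).filter (fun p : ℕ => (p : ℝ) ≤ (X : ℝ) ^ (1 / 2 : ℝ))) S Ω Er)
    (hEs : ∑ D ∈ (PX X).powerset.filter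
      (fun D : Finset ℕ => ∏ p ∈ D, (p : ℝ) ≤ (X : ℝ) ^ (lv)),
      (K : ℝ) ^ D.card * Er D ≤ E)
    {U : Finset ℕ} (hU : U ⊆ Bw Λ X b0) (hUN : U.card ≤ N)
    (ho : ∀ a ∈ o, 1 ≤ a ∧ (a : ℝ) ≤ Λ * Real.log X ∧ a ∉ U)
    {F F' : ℕ → Finset (Finset ℕ)} {u u' : ℕ → ℝ}
    (hF : ∀ a ∈ U, 0 ≤ u a ∧ Fam δ X (u a) (F a)) (hF' : ∀ a ∈ U, 0 ≤ u' a ∧ Fam δ X (u' a) (F' a))
    (hsum : ∑ a ∈ U, (u a + u' a) ≤ lv - θ)
    (hor : (∀ a ∈ U, F a = F' a) ∨ ∃ a ∈ U, Disjoint (F a) (F' a)) :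
    |∑ n ∈ S, rU δ X U n * ((∏ a ∈ U, FS (F a) a n) * ∏ a ∈ U, FS (F' a) a n) -
      (if ∀ a ∈ U, F a = F' a then Ω * VV δ X ^ U.card * ∏ a ∈ U, GG (F a) else 0)| ≤
      Ω * VV δ X ^ U.card * (K * G ^ K * (Real.exp (K * d) - 1 + (1 / 2 : ℝ) ^ b)) +
        K * G ^ K * (((JJ δ X : ℝ) + 2) * E) := by
  have hXr : (16 : ℝ) ≤ X := by exact_mod_cast hX16
  have hX0 : (0 : ℝ) < X := by linarith
  have hX1 : (1 : ℝ) ≤ X := by linarith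
  set J := JJ δ X with hJdef
  set M : ℕ := 2 ^ 2 ^ J with hM
  have hMr : ((2 : ℝ) ^ 2 ^ J) = (M : ℝ) := by rw [hM]; push_cast; rfl
  rw [hMr] at hw1
  have hle : ∀ {x y : ℝ}, x ≤ y → (X : ℝ) ^ x ≤ (X : ℝ) ^ y := fun h =>
    Real.rpow_le_rpow_of_exponent_le hX1 h
  set z : ℕ := ⌊(X : ℝ) ^ (1 / 2 : ℝ)⌋₊ with hz
  have hzX : z ≤ X := by
    have h1 : (X : ℝ) ^ (1 / 2 : ℝ) ≤ X := by
      calc (X : ℝ) ^ (1 / 2 : ℝ) ≤ (X : ℝ) ^ (1 : ℝ) := hle (by norm_num)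
        _ = X := Real.rpow_one _
    have h2 : (z : ℝ) ≤ X := (Nat.floor_le (by positivity)).trans h1
    exact_mod_cast h2
  have hP2' : ∀ p ∈ P2 J z, p.Prime ∧ M ≤ p := fun p hp => (Finset.mem_filter.1 hp).2
  have hP2sub : P2 J z ⊆ P2 J X := by
    intro p hp
    unfold P2 at hp ⊢
    rw [Finset.mem_filter, Finset.mem_range] at hp ⊢
    exact ⟨by omega, hp.2⟩
  have hP1 : ∀ p ∈ P1 (HH X) J, p.Prime ∧ HH X < p := fun p hp => (Finset.mem_filter.1 hp).2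
  have hunion : ∀ p ∈ P1 (HH X) J ∪ P2 J z, p.Prime ∧ HH X < p := by
    intro p hp
    rcases Finset.mem_union.1 hp with h | h
    · exact hP1 p h
    · exact ⟨(hP2' p h).1, lt_of_lt_of_le hw3 (hP2' p h).2⟩
  have hsubPX : P1 (HH X) J ∪ P2 J z ⊆
      (PX X).filter (fun p : ℕ => (p : ℝ) ≤ (X : ℝ) ^ (1 / 2 : ℝ)) := by
    intro p hp
    obtain ⟨h1, h2⟩ := hunion p hp
    have h3 : (p : ℝ) ≤ (X : ℝ) ^ (1 / 2 : ℝ) := by
      rcases Finset.mem_union.1 hp with h | h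
      · have h5 : p < M := by
          have := (Finset.mem_filter.1 h).1
          rwa [Finset.mem_range] at this
        have h6 : (p : ℝ) ≤ M := by exact_mod_cast h5.le
        exact h6.trans (hw1.trans (hle (by linarith)))
      · have h5 : p < z + 1 := by
          have := (Finset.mem_filter.1 h).1
          rwa [Finset.mem_range] at this
        have h6 : (p : ℝ) ≤ z := by exact_mod_cast (by omega : p ≤ z)
        exact h6.trans (Nat.floor_le (by positivity))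
    have h4 : p ≤ X := by
      have h5 : (X : ℝ) ^ (1 / 2 : ℝ) ≤ X := by
        calc (X : ℝ) ^ (1 / 2 : ℝ) ≤ (X : ℝ) ^ (1 : ℝ) := hle (by norm_num)
          _ = X := Real.rpow_one _
      exact_mod_cast h3.trans h5
    rw [Finset.mem_filter]
    unfold PX
    rw [Finset.mem_filter, Finset.mem_range]
    exact ⟨⟨by omega, h1, h2⟩, h3⟩
  have hua : ∀ a ∈ U, u a ≤ 1 / 2 ∧ u' a ≤ 1 / 2 := by
    intro a ha
    have h1 : u a + u' a ≤ ∑ a ∈ U, (u a + u' a) :=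
      Finset.single_le_sum (f := fun a => u a + u' a)
        (fun i hi => add_nonneg (hF i hi).1 (hF' i hi).1) ha
    have h2 := (hF a ha).1
    have h3 := (hF' a ha).1
    constructor <;> linarith
  have hprod : ∀ f f' : ℕ → Finset ℕ, (∀ a ∈ U, f a ∈ F a ∧ f' a ∈ F' a) →
      (∏ a ∈ U, ∏ p ∈ f a, p) * (∏ a ∈ U, ∏ p ∈ f' a, p) ≤ ⌊(X : ℝ) ^ (lv - θ)⌋₊ := by
    intro f f' hf
    apply Nat.le_floor
    push_cast
    have h1 : ∏ a ∈ U, ∏ p ∈ f a, (p : ℝ) ≤ ∏ a ∈ U, (X : ℝ) ^ (u a) :=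
      Finset.prod_le_prod (fun a _ => Finset.prod_nonneg fun p _ => Nat.cast_nonneg p)
        (fun a ha => by
          obtain ⟨k1, k2⟩ := (hF a ha).2 (f a) (hf a ha).1
          exact (fam_sub hX16 (hua a ha).1 k1 k2).2)
    have h2 : ∏ a ∈ U, ∏ p ∈ f' a, (p : ℝ) ≤ ∏ a ∈ U, (X : ℝ) ^ (u' a) :=
      Finset.prod_le_prod (fun a _ => Finset.prod_nonneg fun p _ => Nat.cast_nonneg p)
        (fun a ha => by
          obtain ⟨k1, k2⟩ := (hF' a ha).2 (f' a) (hf a ha).2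
          exact (fam_sub hX16 (hua a ha).2 k1 k2).2)
    calc (∏ a ∈ U, ∏ p ∈ f a, (p : ℝ)) * ∏ a ∈ U, ∏ p ∈ f' a, (p : ℝ)
        ≤ (∏ a ∈ U, (X : ℝ) ^ (u a)) * ∏ a ∈ U, (X : ℝ) ^ (u' a) :=
          mul_le_mul h1 h2
            (Finset.prod_nonneg fun a _ => Finset.prod_nonneg fun p _ => Nat.cast_nonneg p)
            (by positivity)
      _ = (X : ℝ) ^ (∑ a ∈ U, (u a + u' a)) := by
          rw [← Real.rpow_sum_of_pos hX0, ← Real.rpow_sum_of_pos hX0, ← Real.rpow_add hX0,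
            Finset.sum_add_distrib]
      _ ≤ (X : ℝ) ^ (lv - θ) := hle hsum
  have hD0 : M ^ (K * b) * ⌊(X : ℝ) ^ (lv - θ)⌋₊ ≤ ⌊(X : ℝ) ^ (lv)⌋₊ := by
    apply Nat.le_floor
    push_cast
    have h1 : (M : ℝ) ^ (K * b) ≤ (X : ℝ) ^ (θ / 4) := by
      calc (M : ℝ) ^ (K * b) ≤ ((X : ℝ) ^ δ) ^ (K * b) :=
            pow_le_pow_left₀ (Nat.cast_nonneg _) hw1 _
        _ = (X : ℝ) ^ (δ * ((K * b : ℕ) : ℝ)) := by
            rw [← Real.rpow_natCast, ← Real.rpow_mul hX0.le]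
        _ ≤ (X : ℝ) ^ (θ / 4) := by
            apply hle
            push_cast
            exact hδb
    have h2 : (⌊(X : ℝ) ^ (lv - θ)⌋₊ : ℝ) ≤ (X : ℝ) ^ (lv - θ) :=
      Nat.floor_le (by positivity)
    calc (M : ℝ) ^ (K * b) * (⌊(X : ℝ) ^ (lv - θ)⌋₊ : ℝ)
        ≤ (X : ℝ) ^ (θ / 4) * (X : ℝ) ^ (lv - θ) :=
          mul_le_mul h1 h2 (by positivity) (by positivity)
      _ = (X : ℝ) ^ (θ / 4 + (lv - θ)) := by rw [Real.rpow_add hX0]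
      _ ≤ (X : ℝ) ^ (lv) := hle (by linarith)
  have hErsum : ∑ T ∈ (P1 (HH X) J ∪ P2 J z).powerset.filter
      (fun T : Finset ℕ => ∏ p ∈ T, p ≤ ⌊(X : ℝ) ^ (lv)⌋₊), (K : ℝ) ^ T.card * Er T ≤ E := by
    refine le_trans ?_ hEs
    apply Finset.sum_le_sum_of_subset_of_nonneg
    · intro T hT
      rw [Finset.mem_filter, Finset.mem_powerset] at hT ⊢
      refine ⟨fun p hp => (Finset.mem_filter.1 (hsubPX (hT.1 hp))).1, ?_⟩
      have h1 := (Nat.le_floor_iff (by positivity)).1 hT.2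
      push_cast at h1
      exact h1
    · intro T _ _
      exact mul_nonneg (by positivity) (hEq.2.1 T)
  have main := hB o δ X b J ⌊(X : ℝ) ^ (lv)⌋₊ ⌊(X : ℝ) ^ (lv - θ)⌋₊ (P2 J z) S Ω Er U
    F F' d E hUN rfl hKb hKH hw3 hJ hP2' (by
      intro a ha
      refine ⟨fun R hR => ?_, fun R hR => ?_⟩
      · obtain ⟨k1, k2⟩ := (hF a ha).2 R hR
        exact (fam_sub hX16 (hua a ha).1 k1 k2).1
      · obtain ⟨k1, k2⟩ := (hF' a ha).2 R hR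
        exact (fam_sub hX16 (hua a ha).2 k1 k2).1) hprod hΩ (eqd_mono hsubPX hEq) hErsum hD0 hd
    (hdl _ hunion U hUN (fun a ha => Bw_mem hΛ (by omega) (hU ha)) o ho) hor
  refine main.trans ?_
  have hpi : AC.Pi1 (P2 J z) ≤ G :=
    (pi1_mono hP2sub (fun p hp => (Finset.mem_filter.1 hp).2.1)).trans hPi
  have hpi0 : 0 ≤ AC.Pi1 (P2 J z) := by
    unfold AC.Pi1
    apply Finset.prod_nonneg
    intro p hp
    have h1 : (1 : ℝ) < p := by exact_mod_cast (hP2' p hp).1.one_lt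
    have h2 : (0 : ℝ) < (p : ℝ) - 1 := by linarith
    positivity
  have hpk : AC.Pi1 (P2 J z) ^ K ≤ G ^ K := pow_le_pow_left₀ hpi0 hpi K
  have hexp : 0 ≤ Real.exp (K * d) - 1 + (1 / 2 : ℝ) ^ b := by
    have h1 : 1 ≤ Real.exp (K * d) := Real.one_le_exp (by positivity)
    have h2 : (0 : ℝ) ≤ (1 / 2 : ℝ) ^ b := by positivity
    linarith
  have hVV := vv_nonneg δ X
  unfold EN.EE
  have e1 : (K : ℝ) * AC.Pi1 (P2 J z) ^ K ≤ K * G ^ K :=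
    mul_le_mul_of_nonneg_left hpk (Nat.cast_nonneg K)
  apply add_le_add
  · exact mul_le_mul_of_nonneg_left (mul_le_mul_of_nonneg_right e1 hexp) (by positivity)
  · exact mul_le_mul_of_nonneg_right e1 (by positivity)
open Classical in
theorem mlt_of (hMLA : S_MLA) (hSm2 : Sm2) (hGbd : Gbd) (hW : Wtx) : S_MLT := by
  intro N m Λ lv θ s hΛ hθ hθ1 hlv hs
  obtain ⟨K, hK, hB⟩ := mbody hMLA N
  obtain ⟨Cg, hCg, hGbd⟩ := hGbd 1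
  obtain ⟨cv, hcv, hcv1, hvv⟩ := vv_lower
  set M : ℕ := Cg + m with hMdef
  have hM : 1 ≤ M := by omega
  have hMr : (1 : ℝ) ≤ M := by exact_mod_cast hM
  have hM0 : (0 : ℝ) < M := by linarith
  obtain ⟨δ₀, hδ₀, hδ₀8, hδ⟩ := choose_delta K M θ (s / 3) 1 hK hM hθ (by positivity) one_pos
  refine ⟨K, N + 2, δ₀, hδ₀, fun δ hδ0 hδle => ?_⟩
  obtain ⟨b, hKb, hδb, hb⟩ := hδ δ hδ0 hδle
  have hδ8 : δ ≤ 1 / 8 := hδle.trans hδ₀8
  have hδ1 : δ ≤ 1 := by linarith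
  set V : ℝ := (δ / M) ^ M with hV
  have hV0 : 0 < V := by positivity
  have hGV : (((Cg : ℝ) / δ) ^ Cg) ^ K ≤ δ ^ m * (1 / V ^ K) := gv hCg hK hδ0 hδ1
  obtain ⟨d, hd0, hd1, hd⟩ := choose_d K (K / V ^ K) (s / 3) (by positivity) (by positivity)
  obtain ⟨X₁, h1⟩ := hSm2 N Λ d hΛ hd0
  obtain ⟨X₃, h3⟩ := hGbd δ hδ0 hδ8
  obtain ⟨X₄, hw⟩ := hW.2 δ hδ0 hδ1
  have hev : ∀ᶠ X : ℕ in atTop, (max K 2 ≤ HH X) ∧ (2 < (X : ℝ) ^ (δ / 2)) ∧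
      max 1 (K / V ^ K * 4 * 3 / (s * cv ^ N)) ≤ Real.log X := by
    have e1 := HH_tendsto.eventually_ge_atTop (max K 2)
    have e3 : ∀ᶠ X : ℕ in atTop, 2 < (X : ℝ) ^ (δ / 2) :=
      ((tendsto_rpow_atTop (by positivity : 0 < δ / 2)).comp
        tendsto_natCast_atTop_atTop).eventually_gt_atTop 2
    have e4 := log_tendsto.eventually_ge_atTop (max 1 (K / V ^ K * 4 * 3 / (s * cv ^ N)))
    filter_upwards [e1, e3, e4] with X a1 a3 a4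
    exact ⟨a1, a3, a4⟩
  obtain ⟨X₈, h8⟩ := Filter.eventually_atTop.1 hev
  refine ⟨max 16 (max X₁ (max X₃ (max X₄ X₈))), ?_⟩
  intro X hX b0 hb0 T κ hκ hEI U hU hUN F F' u u' hF hF' hsum hor
  simp only [max_le_iff] at hX
  obtain ⟨hX16, hX1, hX3, hX4, hX8⟩ := hX
  obtain ⟨hHH, hrp, hlog⟩ := h8 X hX8
  obtain ⟨hw1, hw2, hw3⟩ := hw X hX4
  have hXr : (16 : ℝ) ≤ X := by exact_mod_cast hX16
  have hL1 : 1 ≤ Real.log X := (le_max_left _ _).trans hlog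
  have hLb : K / V ^ K * 4 * 3 / (s * cv ^ N) ≤ Real.log X := (le_max_right _ _).trans hlog
  have hKH : K ≤ HH X := (le_max_left _ _).trans hHH
  have h2H : 2 ≤ HH X := (le_max_right _ _).trans hHH
  have hJ : 1 ≤ JJ δ X := by
    by_contra h
    have h0 : JJ δ X = 0 := by omega
    rw [h0] at hw2
    norm_num at hw2
    linarith
  have hJ4 : (JJ δ X : ℝ) + 2 ≤ 4 * Real.log X := JJ_le hδ1 hX16 hw1
  have hVVlow : cv / Real.log X ≤ VV δ X := hvv X δ hδ0 hδ1 hX16 h2H hw1 hw3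
  have hPi : ∏ p ∈ P2 (JJ δ X) X, (1 + (1 : ℝ) / ((p : ℝ) - 1)) ≤ ((Cg : ℝ) / δ) ^ Cg := by
    have h10 := h3 X hX3
    rwa [Nat.cast_one] at h10
  have hfin : ∀ (o : Option ℕ) (S : Finset ℕ) (Ω : ℝ) (Er : Finset ℕ → ℝ), 0 ≤ Ω →
      Eqd o ((PX X).filter (fun p : ℕ => (p : ℝ) ≤ (X : ℝ) ^ (1 / 2 : ℝ))) S Ω Er →
      ∑ D ∈ (PX X).powerset.filter
        (fun D : Finset ℕ => ∏ p ∈ D, (p : ℝ) ≤ (X : ℝ) ^ (lv)),
        (K : ℝ) ^ D.card * Er D ≤ Ω / Real.log X ^ (N + 2) →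
      (∀ a ∈ o, 1 ≤ a ∧ (a : ℝ) ≤ Λ * Real.log X ∧ a ∉ U) → _ := fun o S Ω Er hΩ hEq hEs ho =>
    (coreT hB hΛ hθ hθ1 hlv hδ0 hδ8 hKb hδb hd0 hd1 hX16 hKH hw1 hw3 hJ hPi (h1 X hX1) hΩ
      (by positivity) hEq hEs hU hUN ho hF hF' hsum hor).trans
      (arith (s := s) (c := U.card) hδ0 hV0 hGV hs hΩ hL1 hb hd0 hd hJ4 hcv hVVlow (vv_le_one δ X)
        hUN rfl hLb)
  refine ⟨?_, ?_⟩
  · obtain ⟨Er, hEq, hEs⟩ := hEI
    have e1 := hfin none ((SI X b0).filter (fun n => n ∈ T)) _ Er (by positivity) hEq hEs (by simp)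
    have e2 : κ * ((X : ℝ) / Wm X) * VV δ X ^ U.card = κ * Om δ X U.card := by
      unfold Om; ring
    rw [e2] at e1
    exact e1
  · intro a₀ ha₀ hEP
    rw [Finset.mem_sdiff] at ha₀
    obtain ⟨Er, hEq, hEs⟩ := hEP
    have hPr : 0 ≤ Pr X := Nat.cast_nonneg _
    have e1 := hfin (some a₀) ((SP X b0 a₀).filter (fun n => n ∈ T)) _ Er (by positivity) hEq hEs (by
      intro a ha
      have ha' : a₀ = a := by simpa using ha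
      rw [← ha']
      obtain ⟨k1, k2⟩ := Bw_mem hΛ (by omega) ha₀.1
      exact ⟨k1, k2, ha₀.2⟩)
    have e2 : κ * (Pr X / Nat.totient (Wm X)) * VV δ X ^ U.card = κ * OmP δ X U.card := by
      unfold OmP; ring
    rw [e2] at e1
    exact e1

end Run7.h994.MC
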