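import Pool.Agent.Run7.h994.MC.Cor3

/-!
# Project MC: real arithmetic progressions of `d`-th roots, geometry
-/

set_option autoImplicit false

namespace Run7.h994.MC

open Finset Filter Topology
open Run7.h462.BPG (lam lam_pos lam_le_quarter lam_le_inv)
open scoped Polynomial

/-- the start of the interval with the number `m` -/
noncomputable def xs (s : ℝ) (d : ℕ) (α : ℝ) (m : ℕ) : ℝ := (((m : ℝ) + α) / s) ^ d

theorem pow_sub_le (u w : ℝ) (d : ℕ) (hu : 0 ≤ u) (huw : u ≤ w) : w ^ d - u ^ d ≤ d * (w - u) * w ^ (d - 1) := by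
  have h1 := (Commute.all w u).geom_sum₂_mul d
  rw [← h1]
  have h2 : ∑ i ∈ range d, w ^ i * u ^ (d - 1 - i) ≤ d * w ^ (d - 1) := by
    calc ∑ i ∈ range d, w ^ i * u ^ (d - 1 - i) ≤ ∑ i ∈ range d, w ^ (d - 1) := by
          apply sum_le_sum
          intro i hi
          rw [mem_range] at hi
          have hw : 0 ≤ w := hu.trans huw
          calc w ^ i * u ^ (d - 1 - i) ≤ w ^ i * w ^ (d - 1 - i) := by gcongr
            _ = w ^ (d - 1) := by
                rw [← pow_add]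
                congr 1
                omega
      _ = _ := by rw [sum_const, card_range, nsmul_eq_mul]
  have h3 := mul_le_mul_of_nonneg_right h2 (sub_nonneg.2 huw)
  linarith

theorem rs_geo (s : ℝ) (hs : 0 < s) (d : ℕ) (hd : 2 ≤ d) : ∃ (c₂ : ℝ) (X₀ : ℕ), 0 < c₂ ∧ c₂ ≤ 1 / 4 ∧
    ∀ M X : ℕ, X₀ ≤ X → 2 * (X : ℝ) ≤ ((M : ℝ) / s) ^ d →
    ∀ α : ℝ, 0 ≤ α → α ≤ 1 → ∀ (A κ : ℝ), 0 ≤ κ → κ * (M : ℝ) ^ (d - 1) ≤ c₂ * A →
    ∀ v ∈ TT s d (-α) κ X, ⌊s * (v : ℝ) ^ (1 / (d : ℝ)) - α⌋₊ ∈ Icc 1 M ∧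
      xs s d α ⌊s * (v : ℝ) ^ (1 / (d : ℝ)) - α⌋₊ ≤ v ∧
      (v : ℝ) ≤ xs s d α ⌊s * (v : ℝ) ^ (1 / (d : ℝ)) - α⌋₊ + A / 2 := by
  have hd0 : (0 : ℝ) < d := by exact_mod_cast (by omega : 0 < d)
  obtain ⟨c₂, hc₂⟩ : ∃ c₂ : ℝ, c₂ = min (1 / 4) (s ^ d / (2 * d)) := ⟨_, rfl⟩
  have hc₂0 : 0 < c₂ := by rw [hc₂]; exact lt_min (by norm_num) (by positivity)
  have hc₂1 : c₂ ≤ 1 / 4 := by rw [hc₂]; exact min_le_left _ _
  have hc₂2 : c₂ ≤ s ^ d / (2 * d) := by rw [hc₂]; exact min_le_right _ _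
  refine ⟨c₂, ⌈(2 / s) ^ d⌉₊, hc₂0, hc₂1, fun M X hX hXM α hα0 hα1 A κ hκ0 hκ v hv => ?_⟩
  unfold TT at hv
  rw [mem_filter, mem_Ico] at hv
  obtain ⟨⟨hv1, hv2⟩, hfr⟩ := hv
  obtain ⟨w, hw⟩ : ∃ w : ℝ, w = (v : ℝ) ^ (1 / (d : ℝ)) := ⟨_, rfl⟩
  rw [← hw] at hfr ⊢
  have hw0 : 0 ≤ w := by rw [hw]; positivity
  have hwd : w ^ d = v := by
    rw [hw, ← Real.rpow_natCast, ← Real.rpow_mul (Nat.cast_nonneg _), one_div, inv_mul_cancel₀ hd0.ne', Real.rpow_one]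
  have hwl : 2 / s ≤ w := by
    have h1 : (2 / s) ^ d ≤ w ^ d := by
      rw [hwd]
      have h2 : (2 / s) ^ d ≤ ⌈(2 / s) ^ d⌉₊ := Nat.le_ceil _
      have h3 : (⌈(2 / s) ^ d⌉₊ : ℝ) ≤ v := by exact_mod_cast hX.trans hv1
      exact h2.trans h3
    exact le_of_pow_le_pow_left₀ (by omega) hw0 h1
  have hwu : w ≤ M / s := by
    have h1 : w ^ d ≤ ((M : ℝ) / s) ^ d := by
      rw [hwd]
      have h2 : (v : ℝ) ≤ 2 * X := by exact_mod_cast hv2.le
      exact h2.trans hXM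
    exact le_of_pow_le_pow_left₀ (by omega) (by positivity) h1
  have hsw1 : 2 ≤ s * w := by
    rw [div_le_iff₀ hs] at hwl
    linarith
  have hsw2 : s * w ≤ M := by
    rw [le_div_iff₀ hs] at hwu
    linarith
  obtain ⟨m, hm⟩ : ∃ m : ℕ, m = ⌊s * w - α⌋₊ := ⟨_, rfl⟩
  rw [← hm]
  have h0 : 0 ≤ s * w - α := by linarith
  have hm1 : (m : ℝ) ≤ s * w - α := by rw [hm]; exact Nat.floor_le h0
  have hm2 : s * w - α < m + 1 := by rw [hm]; exact Nat.lt_floor_add_one _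
  have hm3 : s * w - α < m + κ := by
    have h1 : ⌊s * w + -α⌋ = (m : ℤ) := by
      rw [Int.floor_eq_iff]
      push_cast
      constructor <;> linarith
    have h2 := Int.self_sub_floor (s * w + -α)
    rw [h1] at h2
    push_cast at h2
    linarith
  refine ⟨?_, ?_, ?_⟩
  · rw [mem_Icc]
    constructor
    · have : (0 : ℝ) < m := by linarith
      exact_mod_cast this
    · have : (m : ℝ) ≤ M := by linarith
      exact_mod_cast this
  · unfold xs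
    rw [← hwd]
    apply pow_le_pow_left₀ (by positivity)
    rw [div_le_iff₀ hs]
    linarith
  · unfold xs
    have hu0 : 0 ≤ ((m : ℝ) + α) / s := by positivity
    have huw : ((m : ℝ) + α) / s ≤ w := by
      rw [div_le_iff₀ hs]
      linarith
    have h1 := pow_sub_le (((m : ℝ) + α) / s) w d hu0 huw
    have h2 : w - ((m : ℝ) + α) / s ≤ κ / s := by
      rw [sub_le_iff_le_add, ← add_div, le_div_iff₀ hs]
      linarith
    have h3 : w ^ (d - 1) ≤ ((M : ℝ) / s) ^ (d - 1) := pow_le_pow_left₀ hw0 hwu _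
    have h4 : d * (w - ((m : ℝ) + α) / s) * w ^ (d - 1) ≤ d * (κ / s) * ((M : ℝ) / s) ^ (d - 1) := by
      have : 0 ≤ w - ((m : ℝ) + α) / s := by linarith
      gcongr
    have h5 : (d : ℝ) * (κ / s) * ((M : ℝ) / s) ^ (d - 1) = d / s ^ d * (κ * (M : ℝ) ^ (d - 1)) := by
      have : s ^ d = s * s ^ (d - 1) := by
        rw [← pow_succ']
        congr 1
        omega
      rw [this, div_pow]
      field_simp
    have hA0 : 0 ≤ c₂ * A := le_trans (by positivity) hκ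
    have hA : 0 ≤ A := nonneg_of_mul_nonneg_right hA0 hc₂0
    have h6 : d / s ^ d * (κ * (M : ℝ) ^ (d - 1)) ≤ A / 2 := by
      calc d / s ^ d * (κ * (M : ℝ) ^ (d - 1)) ≤ d / s ^ d * (s ^ d / (2 * d) * A) := by
            apply mul_le_mul_of_nonneg_left _ (by positivity)
            exact hκ.trans (mul_le_mul_of_nonneg_right hc₂2 hA)
        _ = A / 2 := by field_simp
    rw [← hwd]
    linarith

end Run7.h994.MC
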