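import Pool.Agent.Run7.h994.MC.RSa

/-!
# Project MC: real arithmetic progressions of `d`-th roots, the sieve
-/

set_option autoImplicit false

namespace Run7.h994.MC

open Finset Filter Topology
open Run7.h462.BPG (lam lam_pos lam_le_quarter lam_le_inv)
open Pool.Agent.H373R2.T7 (pz Vz Vz_pos)
open Run7.h462.KT (gk sh inj S_SQK S_CLK gk_nonneg mem_inj)
open scoped Polynomial

/-- an upper bound for the values and a lower bound for the sum -/
theorem many_of_sum {S : Finset ℕ} {R : ℕ → ℝ} {c C B M : ℝ} (hc : 0 < c) (hC : 0 < C) (hB : 0 < B)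
    (hS : (#S : ℝ) ≤ M) (h1 : ∀ m ∈ S, R m ≤ C * B) (h2 : c * M * B ≤ ∑ m ∈ S, R m) :
    c / (2 * C) * M ≤ (#(S.filter (fun m => c / 2 * B ≤ R m)) : ℝ) := by
  classical
  obtain ⟨G, hG⟩ : ∃ G : Finset ℕ, G = S.filter (fun m => c / 2 * B ≤ R m) := ⟨_, rfl⟩
  rw [← hG]
  have h3 : ∑ m ∈ S, R m ≤ ∑ m ∈ S, ((if m ∈ G then C * B else 0) + c / 2 * B) := by
    apply sum_le_sum
    intro m hm
    by_cases hmG : m ∈ G
    · rw [if_pos hmG]
      have := h1 m hm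
      have : 0 ≤ c / 2 * B := by positivity
      linarith
    · rw [if_neg hmG]
      have h4 : R m < c / 2 * B := by
        by_contra h5
        push Not at h5
        apply hmG
        rw [hG, mem_filter]
        exact ⟨hm, h5⟩
      linarith
  have h4 : ∑ m ∈ S, ((if m ∈ G then C * B else 0) + c / 2 * B) = #G * (C * B) + #S * (c / 2 * B) := by
    rw [sum_add_distrib, ← sum_filter, sum_const, sum_const, nsmul_eq_mul, nsmul_eq_mul]
    congr 3
    apply congrArg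
    ext m
    rw [mem_filter, hG, mem_filter]
    tauto
  rw [h4] at h3
  have h5 : (#S : ℝ) * (c / 2 * B) ≤ M * (c / 2 * B) := mul_le_mul_of_nonneg_right hS (by positivity)
  have h6 : (c / 2 * M) * B ≤ (#G * C) * B := by nlinarith
  have h7 : c / 2 * M ≤ #G * C := le_of_mul_le_mul_right h6 hB
  calc c / (2 * C) * M = c / 2 * M / C := by field_simp
    _ ≤ #G * C / C := div_le_div_of_nonneg_right h7 hC.le
    _ = #G := by field_simp

open Classical in
/-- the elements `v` of the thin set with the number `m` such that all `v + 1 + h_i` are rough and at least `k` of them are primes -/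
noncomputable def RM {K : ℕ} (s : ℝ) (d : ℕ) (α κ : ℝ) (h : Fin K → ℕ) (k : ℕ) (δ : ℝ) (X m : ℕ) : Finset ℕ :=
  (GX s d (-α) κ h k δ X).filter (fun v => ⌊s * (v : ℝ) ^ (1 / (d : ℝ)) - α⌋₊ = m)

open Classical in
/-- the upper bound sieve for the elements with the number `m` -/
theorem rm_le {K : ℕ} (h : Fin K → ℕ) (hinj : Function.Injective h) (hRUB : S_RUB (Polynomial.X : ℤ[X]) K)
    (s : ℝ) (d : ℕ) (hd : 2 ≤ d) (k : ℕ) (δ : ℝ) (hδ0 : 0 < δ) (hδ8 : δ ≤ 1 / 8) :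
    ∃ (C : ℝ) (M₀ : ℕ), 0 < C ∧ ∀ M X A : ℕ, M₀ ≤ M → M ≤ X → (M : ℝ) ^ (1 / 2 : ℝ) ≤ A → (A : ℝ) ≤ (M : ℝ) ^ (d - 1) →
      ∀ α κ : ℝ, 0 ≤ α → (∀ v ∈ TT s d (-α) κ X, xs s d α ⌊s * (v : ℝ) ^ (1 / (d : ℝ)) - α⌋₊ ≤ v ∧
        (v : ℝ) ≤ xs s d α ⌊s * (v : ℝ) ^ (1 / (d : ℝ)) - α⌋₊ + A / 2) →
      ∀ m : ℕ, (#(RM s d α κ h k δ X m) : ℝ) ≤ C * (A / Real.log M ^ K) := by
  have hd0 : (0 : ℝ) < d := by exact_mod_cast (by omega : 0 < d)
  have hdR2 : (2 : ℝ) ≤ d := by exact_mod_cast hd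
  obtain ⟨ρ', hρ'⟩ : ∃ ρ' : ℝ, ρ' = δ / 4 / d := ⟨_, rfl⟩
  have hρ'0 : 0 < ρ' := by rw [hρ']; positivity
  have hρ'1 : ρ' ≤ 1 / 10 := by
    rw [hρ', div_le_iff₀ hd0]
    nlinarith
  obtain ⟨C₁, κ₁, hC₁, hκ₁, -, N₁, hR⟩ := hRUB ρ' hρ'0 hρ'1
  obtain ⟨G, y, hG0, hG⟩ := gk_fixed h hinj
  have hlimp : ∀ p : ℝ, 0 < p → Tendsto (fun N : ℕ => (N : ℝ) ^ p) atTop atTop := fun p hp =>
    (tendsto_rpow_atTop hp).comp tendsto_natCast_atTop_atTop
  obtain ⟨M1, hM1⟩ := eventually_atTop.1 ((hlimp (1 / 2) (by norm_num)).eventually_ge_atTop ((N₁ : ℝ) + 2))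
  obtain ⟨M2, hM2⟩ := eventually_atTop.1 ((hlimp (κ₁ / 2) (by positivity)).eventually_ge_atTop (y : ℝ))
  refine ⟨C₁ * ((2 / κ₁) ^ K * G), M1 + M2 + 10, by positivity, fun M X A hM hMX hA1 hA2 α κ hα hT m => ?_⟩
  have g1 := hM1 M (by omega)
  have g2 := hM2 M (by omega)
  obtain ⟨L, hL⟩ : ∃ L : ℝ, L = Real.log M := ⟨_, rfl⟩
  rw [← hL]
  have hMR : (10 : ℝ) ≤ M := by exact_mod_cast (by omega : 10 ≤ M)
  have hM0 : (0 : ℝ) < M := by linarith
  have hM1' : (1 : ℝ) ≤ M := by linarith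
  have hL0 : 0 < L := by rw [hL]; exact Real.log_pos (by linarith)
  have hN₁0 : (0 : ℝ) ≤ N₁ := Nat.cast_nonneg _
  have hAbig : (N₁ : ℝ) + 2 ≤ A := g1.trans hA1
  have hAbig' : N₁ + 2 ≤ A := by exact_mod_cast hAbig
  have hApos : (0 : ℝ) < A := by linarith
  have hLA1 : L / 2 ≤ Real.log A := by
    have h1 := Real.log_le_log (by positivity) hA1
    rw [Real.log_rpow hM0, ← hL] at h1
    linarith
  obtain ⟨z, hz2, hzκ, hzρ, hzR⟩ := hR A (by omega)
  have hyz : y ≤ z := by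
    have h1 : (y : ℝ) ≤ z := by
      refine g2.trans (le_trans ?_ hzκ)
      calc (M : ℝ) ^ (κ₁ / 2) = ((M : ℝ) ^ (1 / 2 : ℝ)) ^ κ₁ := by
            rw [← Real.rpow_mul hM0.le]
            congr 1
            ring
        _ ≤ (A : ℝ) ^ κ₁ := Real.rpow_le_rpow (by positivity) hA1 hκ₁.le
    exact_mod_cast h1
  have hzN : (z : ℝ) ≤ (M : ℝ) ^ (δ / 4) := by
    refine hzρ.trans ?_
    calc (A : ℝ) ^ ρ' ≤ ((M : ℝ) ^ (d - 1)) ^ ρ' := Real.rpow_le_rpow hApos.le hA2 hρ'0.le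
      _ = (M : ℝ) ^ (((d - 1 : ℕ) : ℝ) * ρ') := by
          rw [← Real.rpow_natCast, ← Real.rpow_mul hM0.le]
      _ ≤ (M : ℝ) ^ (δ / 4) := by
          apply Real.rpow_le_rpow_of_exponent_le hM1'
          rw [hρ', mul_div_assoc', div_le_iff₀ hd0]
          have : ((d - 1 : ℕ) : ℝ) ≤ d := by exact_mod_cast (by omega : d - 1 ≤ d)
          nlinarith
  have hzX : (z : ℝ) < (X : ℝ) ^ (δ / 2) := by
    calc (z : ℝ) ≤ (M : ℝ) ^ (δ / 4) := hzN
      _ < (M : ℝ) ^ (δ / 2) := Real.rpow_lt_rpow_of_exponent_lt (by linarith) (by linarith)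
      _ ≤ (X : ℝ) ^ (δ / 2) := Real.rpow_le_rpow hM0.le (by exact_mod_cast hMX) (by positivity)
  have hVz : Vz z ≤ 2 / (κ₁ * L) := by
    have h1 : Vz z ≤ 1 / Real.log z := Pool.Agent.N792.V1_le z hz2
    have h2 : κ₁ * L / 2 ≤ Real.log z := by
      have h3 := Real.log_le_log (by positivity) hzκ
      rw [Real.log_rpow hApos] at h3
      refine le_trans ?_ h3
      have := mul_le_mul_of_nonneg_left hLA1 hκ₁.le
      linarith
    refine h1.trans ((one_div_le_one_div_of_le (by positivity) h2).trans (le_of_eq ?_))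
    rw [one_div_div]
  have hVz0 : 0 < Vz z := Vz_pos z
  obtain ⟨bm, hbm⟩ : ∃ bm : ℕ, bm = ⌈xs s d α m⌉₊ := ⟨_, rfl⟩
  have h5 := hzR h (bm : ℤ)
  have h6 : (#(RM s d α κ h k δ X m) : ℝ) ≤ Rk (Polynomial.X : ℤ[X]) h (bm : ℤ) z A := by
    unfold Rk
    apply Nat.cast_le.2
    apply card_le_card_of_injOn (fun v => v + 1 - bm)
    · intro v hv
      rw [mem_coe] at hv
      unfold RM GX at hv
      rw [mem_filter, mem_filter] at hv
      obtain ⟨⟨hvT, hr, -⟩, hvm⟩ := hv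
      obtain ⟨hx1, hx2⟩ := hT v hvT
      rw [hvm] at hx1 hx2
      have h7 : bm ≤ v := by
        rw [hbm]
        exact Nat.ceil_le.2 hx1
      have h8 : (v : ℝ) ≤ bm + A / 2 := by
        have : xs s d α m ≤ bm := by rw [hbm]; exact Nat.le_ceil _
        linarith
      have h9 : v + 1 ≤ bm + A := by
        have : (v : ℝ) + 1 ≤ bm + A := by linarith
        exact_mod_cast this
      have goal1 : v + 1 - bm ∈ (Icc 1 A).filter (fun y : ℕ => ∀ i, ∀ p : ℕ, p.Prime → p ≤ z →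
          ¬ (p : ℤ) ∣ (Polynomial.X : ℤ[X]).eval ((bm : ℤ) + y) + h i) := by
        rw [mem_filter, mem_Icc]
        refine ⟨⟨by omega, by omega⟩, ?_⟩
        intro i p hp hpz hdvd
        rw [Polynomial.eval_X] at hdvd
        have e : (bm : ℤ) + ((v + 1 - bm : ℕ) : ℤ) + h i = ((v + 1 + h i : ℕ) : ℤ) := by
          rw [Nat.cast_sub (by omega)]
          push_cast
          ring
        rw [e, Int.natCast_dvd_natCast] at hdvd
        refine hr i p hp ?_ hdvd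
        refine lt_of_le_of_lt ?_ hzX
        exact_mod_cast hpz
      exact goal1
    · intro v hv w hw hvw
      rw [mem_coe] at hv hw
      unfold RM GX at hv hw
      rw [mem_filter, mem_filter] at hv hw
      obtain ⟨hx1, -⟩ := hT v hv.1.1
      obtain ⟨hy1, -⟩ := hT w hw.1.1
      rw [hv.2] at hx1
      rw [hw.2] at hy1
      have h7 : bm ≤ v := by rw [hbm]; exact Nat.ceil_le.2 hx1
      have h8 : bm ≤ w := by rw [hbm]; exact Nat.ceil_le.2 hy1
      simp only at hvw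
      omega
  calc (#(RM s d α κ h k δ X m) : ℝ) ≤ C₁ * A * (Vz z ^ K * gk (Polynomial.X : ℤ[X]) h z) := h6.trans h5
    _ ≤ C₁ * A * ((2 / (κ₁ * L)) ^ K * G) := by
        have := hG z hyz
        have h0 := gk_nonneg (Polynomial.X : ℤ[X]) h z
        gcongr
    _ = C₁ * ((2 / κ₁) ^ K * G) * (A / L ^ K) := by
        rw [div_pow, div_pow, mul_pow]
        field_simp

end Run7.h994.MC
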