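import Pool.Agent.Run7.h994.MC.RSb

/-!
# Project MC: real arithmetic progressions of `d`-th roots, the theorem
-/

set_option autoImplicit false

namespace Run7.h994.MC

open Finset Filter Topology
open Run7.h462.BPG (lam lam_pos lam_le_quarter lam_le_inv)
open scoped Polynomial

open Classical in
/-- many numbers `m` with many good elements of the thin set; `K` depends on `d`, `k`, `ε`; the constants depend on `s`, not on `α` -/
theorem rs_main (d : ℕ) (hd : 2 ≤ d) (k : ℕ) (ε : ℝ) (hε : 0 < ε) :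
    ∃ K : ℕ, 1 ≤ K ∧ ∀ s : ℝ, 0 < s → ∀ h : Fin K → ℕ, Function.Injective h → Adm h →
      ∃ c δ : ℝ, 0 < c ∧ 0 < δ ∧ ∃ M₀ : ℕ, ∀ M : ℕ, M₀ ≤ M → ∀ α : ℝ, 0 ≤ α → α ≤ 1 → ∀ A : ℕ,
        (M : ℝ) ^ ((1 - lam d) * (d : ℝ) - 1 + ε) ≤ A → (A : ℝ) ≤ (M : ℝ) ^ (d - 1) →
        ∃ (X : ℕ) (κ : ℝ), (∀ v ∈ TT s d (-α) κ X, xs s d α ⌊s * (v : ℝ) ^ (1 / (d : ℝ)) - α⌋₊ ≤ v ∧
          (v : ℝ) ≤ xs s d α ⌊s * (v : ℝ) ^ (1 / (d : ℝ)) - α⌋₊ + A / 2) ∧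
        c * M ≤ (#((Icc 1 M).filter (fun m => c * (A / Real.log M ^ K) ≤ (#(RM s d α κ h k δ X m) : ℝ))) : ℝ) := by
  have hdR : (2 : ℝ) ≤ d := by exact_mod_cast hd
  have hd0 : (0 : ℝ) < d := by linarith
  have hl0 := lam_pos (d := d) (by omega)
  have hl4 := lam_le_quarter d
  have hli := lam_le_inv d
  obtain ⟨ε₁, hε₁⟩ : ∃ ε₁ : ℝ, ε₁ = min (ε / (2 * d)) (lam d / 2) := ⟨_, rfl⟩
  have hε₁0 : 0 < ε₁ := by rw [hε₁]; exact lt_min (by positivity) (by linarith)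
  have hε₁a : ε₁ ≤ ε / (2 * d) := by rw [hε₁]; exact min_le_left _ _
  have hε₁b : ε₁ ≤ lam d / 2 := by rw [hε₁]; exact min_le_right _ _
  obtain ⟨K, hK, hthin⟩ := thin_count mttA Pool.Agent.W70.HR.mv Pool.Agent.H325R2.wtx k (ε₁ / 256) (by positivity)
    (by linarith)
  refine ⟨K, hK, fun s hs h hinj hadm => ?_⟩
  have e256 : 256 * (ε₁ / 256) = ε₁ := by ring
  obtain ⟨δ, c₁, X₁, hδ0, hδ8, hc₁, hthin⟩ := hthin s d (fun K' A' => by
    have h1 := eqtA s hs d hd ε₁ 1 K' A' hε₁0 (by linarith) one_pos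
    rw [e256]
    exact h1) (Run7.h888.MC.bsm K) h hinj hadm
  rw [e256] at hthin
  obtain ⟨c₂, X₂, hc₂, hc₂1, hG⟩ := rs_geo s hs d hd
  obtain ⟨C₅, M₅, hC₅, hRM⟩ := rm_le h hinj (Pool.Agent.Run7.h304.MC.RUB _ K) s d hd k δ hδ0 hδ8
  obtain ⟨σ, hσ⟩ : ∃ σ : ℝ, σ = 1 / s ^ d := ⟨_, rfl⟩
  have hσ0 : 0 < σ := by rw [hσ]; positivity
  obtain ⟨c₃, hc₃⟩ : ∃ c₃ : ℝ, c₃ = c₁ * (c₂ * (σ / 4) / (2 * d) ^ K) := ⟨_, rfl⟩
  have hc₃0 : 0 < c₃ := by rw [hc₃]; positivity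
  obtain ⟨c, hc⟩ : ∃ c : ℝ, c = min (c₃ / (2 * C₅)) (c₃ / 2) := ⟨_, rfl⟩
  have hc0 : 0 < c := by rw [hc]; exact lt_min (by positivity) (by positivity)
  have hcA : c ≤ c₃ / (2 * C₅) := by rw [hc]; exact min_le_left _ _
  have hcB : c ≤ c₃ / 2 := by rw [hc]; exact min_le_right _ _
  -- largeness
  have hlimp : ∀ p : ℝ, 0 < p → Tendsto (fun N : ℕ => (N : ℝ) ^ p) atTop atTop := fun p hp =>
    (tendsto_rpow_atTop hp).comp tendsto_natCast_atTop_atTop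
  obtain ⟨M2, hM2⟩ := eventually_atTop.1 ((hlimp (ε / 2) (by positivity)).eventually_ge_atTop
    ((σ / 4) ^ (-lam d + ε₁) / c₂))
  obtain ⟨M3, hM3⟩ := eventually_atTop.1 ((hlimp 1 one_pos).eventually_ge_atTop
    ((X₁ + X₂ + 4) * (4 / σ) + σ + 4 : ℝ))
  refine ⟨c, δ, hc0, hδ0, M2 + M3 + M₅ + 10, fun M hM α hα0 hα1 A hA1 hA2 => ?_⟩
  have g2 := hM2 M (by omega)
  have g3 := hM3 M (by omega)
  rw [Real.rpow_one] at g3
  have hMR : (10 : ℝ) ≤ M := by exact_mod_cast (by omega : 10 ≤ M)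
  have hM0 : (0 : ℝ) < M := by linarith
  have hM1 : (1 : ℝ) ≤ M := by linarith
  obtain ⟨L, hL⟩ : ∃ L : ℝ, L = Real.log M := ⟨_, rfl⟩
  have hL1 : 1 ≤ L := by
    rw [hL, Real.le_log_iff_exp_le hM0]
    have := Real.exp_one_lt_d9
    linarith
  have hL0 : 0 < L := by linarith
  have hMd : (M : ℝ) ^ d = M * (M : ℝ) ^ (d - 1) := by
    rw [← pow_succ']
    congr 1
    omega
  have hMd1 : (M : ℝ) ≤ (M : ℝ) ^ (d - 1) := by
    calc (M : ℝ) = (M : ℝ) ^ 1 := (pow_one _).symm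
      _ ≤ (M : ℝ) ^ (d - 1) := pow_le_pow_right₀ hM1 (by omega)
  have hMdpos : 0 < (M : ℝ) ^ (d - 1) := by positivity
  -- `X`
  obtain ⟨X, hX⟩ : ∃ X : ℕ, X = ⌊((M : ℝ) / s) ^ d / 2⌋₊ := ⟨_, rfl⟩
  have hMs : ((M : ℝ) / s) ^ d = σ * (M : ℝ) ^ d := by
    rw [hσ, div_pow]
    field_simp
  have hXu : 2 * (X : ℝ) ≤ ((M : ℝ) / s) ^ d := by
    have h1 : (X : ℝ) ≤ ((M : ℝ) / s) ^ d / 2 := by rw [hX]; exact Nat.floor_le (by positivity)
    linarith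
  have hMM : (M : ℝ) * M ≤ (M : ℝ) ^ d := by
    rw [hMd]
    exact mul_le_mul_of_nonneg_left hMd1 hM0.le
  have hX₁0 : (0 : ℝ) ≤ X₁ := Nat.cast_nonneg _
  have hX₂0 : (0 : ℝ) ≤ X₂ := Nat.cast_nonneg _
  have hgM : ((X₁ : ℝ) + X₂ + 4) * (4 / σ) ≤ M := by linarith
  have hσM : (X₁ : ℝ) + X₂ + 4 ≤ σ / 4 * M := by
    rw [mul_div_assoc', div_le_iff₀ hσ0] at hgM
    linarith
  have hσMM : ((X₁ : ℝ) + X₂ + 4) * M ≤ σ / 4 * (M : ℝ) ^ d := by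
    calc ((X₁ : ℝ) + X₂ + 4) * M ≤ σ / 4 * M * M := mul_le_mul_of_nonneg_right hσM hM0.le
      _ = σ / 4 * (M * M) := by ring
      _ ≤ σ / 4 * (M : ℝ) ^ d := by gcongr
  have hXl : σ / 4 * (M : ℝ) ^ d ≤ X := by
    have h1 : ((M : ℝ) / s) ^ d / 2 < X + 1 := by rw [hX]; exact Nat.lt_floor_add_one _
    rw [hMs] at h1
    have h2 : 1 ≤ σ / 4 * (M : ℝ) ^ d := by nlinarith
    linarith
  have hbigX : ((X₁ : ℝ) + X₂ + 4) * M ≤ X := hσMM.trans hXl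
  have hMX' : (M : ℝ) ≤ X := by nlinarith
  have hMX : M ≤ X := by exact_mod_cast hMX'
  have hXX₁ : X₁ ≤ X := by
    have : (X₁ : ℝ) ≤ X := by nlinarith
    exact_mod_cast this
  have hXX₂ : X₂ ≤ X := by
    have : (X₂ : ℝ) ≤ X := by nlinarith
    exact_mod_cast this
  have hX0 : (0 : ℝ) < X := by linarith
  -- `A`
  have he2 : 1 / 2 ≤ (1 - lam d) * (d : ℝ) - 1 := by
    have h1 : 3 / 4 * 2 ≤ (1 - lam d) * (d : ℝ) := by
      apply mul_le_mul (by linarith) hdR (by norm_num) (by linarith)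
    linarith
  have hhalf : (M : ℝ) ^ (1 / 2 : ℝ) ≤ A :=
    (Real.rpow_le_rpow_of_exponent_le hM1 (by linarith)).trans hA1
  have hApos : (0 : ℝ) < A := lt_of_lt_of_le (by positivity) hA1
  -- `κ`
  obtain ⟨κ, hκ⟩ : ∃ κ : ℝ, κ = c₂ * (A / (M : ℝ) ^ (d - 1)) := ⟨_, rfl⟩
  have hκM : κ * (M : ℝ) ^ (d - 1) ≤ c₂ * A := by
    rw [hκ]
    apply le_of_eq
    field_simp
  have hκ2 : κ ≤ 1 / 4 := by
    rw [hκ]
    have : (A : ℝ) / (M : ℝ) ^ (d - 1) ≤ 1 := by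
      rw [div_le_one hMdpos]
      exact hA2
    nlinarith
  have hκ0 : 0 < κ := by rw [hκ]; positivity
  have hκ4 : (X : ℝ) ^ (-lam d + ε₁) ≤ κ := by
    have hneg : -lam d + ε₁ ≤ 0 := by linarith
    have hcNd : 0 < σ / 4 * (M : ℝ) ^ d := by positivity
    have h1 : (X : ℝ) ^ (-lam d + ε₁) ≤ (σ / 4 * (M : ℝ) ^ d) ^ (-lam d + ε₁) :=
      Real.rpow_le_rpow_of_nonpos hcNd hXl hneg
    have h2 : (σ / 4 * (M : ℝ) ^ d) ^ (-lam d + ε₁) = (σ / 4) ^ (-lam d + ε₁) * (M : ℝ) ^ (-lam d * d + d * ε₁) := by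
      rw [Real.mul_rpow (by positivity) (by positivity), ← Real.rpow_natCast, ← Real.rpow_mul hM0.le]
      congr 2
      ring
    have h3 : (d : ℝ) * ε₁ ≤ ε / 2 := by
      have : ε₁ * (2 * d) ≤ ε := by rwa [le_div_iff₀ (by positivity)] at hε₁a
      linarith
    have h4 : (M : ℝ) ^ (-lam d * d + d * ε₁) ≤ (M : ℝ) ^ (-lam d * d + ε / 2) :=
      Real.rpow_le_rpow_of_exponent_le hM1 (by linarith)
    have h5 : (M : ℝ) ^ (-lam d * d + ε) = (M : ℝ) ^ (-lam d * d + ε / 2) * (M : ℝ) ^ (ε / 2) := by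
      rw [← Real.rpow_add hM0]
      congr 1
      ring
    have h6 : (M : ℝ) ^ (-lam d * d + ε) ≤ A / (M : ℝ) ^ (d - 1) := by
      rw [le_div_iff₀ (by positivity)]
      calc (M : ℝ) ^ (-lam d * d + ε) * (M : ℝ) ^ (d - 1) =
          (M : ℝ) ^ (-lam d * d + ε) * (M : ℝ) ^ (((d - 1 : ℕ) : ℝ)) := by rw [Real.rpow_natCast]
        _ = (M : ℝ) ^ ((1 - lam d) * (d : ℝ) - 1 + ε) := by
            rw [← Real.rpow_add hM0]
            congr 1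
            rw [Nat.cast_sub (by omega)]
            push_cast
            ring
        _ ≤ A := hA1
    calc (X : ℝ) ^ (-lam d + ε₁) ≤ (σ / 4) ^ (-lam d + ε₁) * (M : ℝ) ^ (-lam d * d + d * ε₁) := by rw [← h2]; exact h1
      _ ≤ (σ / 4) ^ (-lam d + ε₁) * (M : ℝ) ^ (-lam d * d + ε / 2) := by gcongr
      _ = c₂ * ((M : ℝ) ^ (-lam d * d + ε / 2) * ((σ / 4) ^ (-lam d + ε₁) / c₂)) := by
          field_simp
      _ ≤ c₂ * ((M : ℝ) ^ (-lam d * d + ε / 2) * (M : ℝ) ^ (ε / 2)) := by gcongr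
      _ = c₂ * (M : ℝ) ^ (-lam d * d + ε) := by rw [h5]
      _ ≤ c₂ * (A / (M : ℝ) ^ (d - 1)) := by gcongr
      _ = κ := hκ.symm
  have hgeo := hG M X hXX₂ hXu α hα0 hα1 A κ hκ0.le hκM
  refine ⟨X, κ, fun v hv => (hgeo v hv).2, ?_⟩
  have hmain := hthin X hXX₁ κ (-α) hκ4 hκ2
  -- `log X`
  have hLX1 : 0 < Real.log X := Real.log_pos (by linarith)
  have hLX : Real.log X ≤ 2 * d * L := by
    have h0 : (X : ℝ) ≤ σ * (M : ℝ) ^ d := by rw [← hMs]; linarith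
    have h1 : Real.log X ≤ Real.log (σ * (M : ℝ) ^ d) := Real.log_le_log hX0 h0
    rw [Real.log_mul (by positivity) (by positivity), Real.log_pow, ← hL] at h1
    have h2 : Real.log σ ≤ L := by
      rw [hL]
      apply Real.log_le_log hσ0
      have : 0 ≤ ((X₁ : ℝ) + X₂ + 4) * (4 / σ) := by positivity
      linarith
    nlinarith
  have hLXK : Real.log X ^ K ≤ (2 * d) ^ K * L ^ K := by
    rw [← mul_pow]
    exact pow_le_pow_left₀ hLX1.le hLX K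
  have hlow : c₃ * M * (A / L ^ K) ≤ (#(GX s d (-α) κ h k δ X) : ℝ) := by
    refine le_trans ?_ hmain
    calc c₃ * M * (A / L ^ K) = c₁ * ((c₂ * (A / (M : ℝ) ^ (d - 1))) * (σ / 4 * (M : ℝ) ^ d) / ((2 * d) ^ K * L ^ K)) := by
          rw [hc₃, hMd]
          field_simp
      _ ≤ c₁ * (κ * X / Real.log X ^ K) := by
          rw [← hκ]
          gcongr
  have hfib : (#(GX s d (-α) κ h k δ X) : ℝ) = ∑ m ∈ Icc 1 M, (#(RM s d α κ h k δ X m) : ℝ) := by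
    have h1 : #(GX s d (-α) κ h k δ X) = ∑ m ∈ Icc 1 M, #(RM s d α κ h k δ X m) := by
      unfold RM
      apply card_eq_sum_card_fiberwise
      intro v hv
      rw [mem_coe] at hv ⊢
      unfold GX at hv
      rw [mem_filter] at hv
      exact (hgeo v hv.1).1
    rw [h1]
    push_cast
    rfl
  have hup := hRM M X A (by omega) hMX hhalf hA2 α κ hα0 (fun v hv => (hgeo v hv).2)
  rw [← hL] at hup
  have hfin := many_of_sum (S := Icc 1 M) (R := fun m => (#(RM s d α κ h k δ X m) : ℝ)) (c := c₃) (C := C₅)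
    (B := A / L ^ K) (M := M) hc₃0 hC₅ (by positivity) (by rw [Nat.card_Icc, Nat.add_sub_cancel])
    (fun m _ => hup m) (by rw [← hfib]; exact hlow)
  rw [← hL]
  calc c * M ≤ c₃ / (2 * C₅) * M := mul_le_mul_of_nonneg_right hcA hM0.le
    _ ≤ _ := hfin
    _ ≤ _ := by
        apply Nat.cast_le.2
        apply card_le_card
        intro m hm
        rw [mem_filter] at hm ⊢
        refine ⟨hm.1, le_trans ?_ hm.2⟩
        exact mul_le_mul_of_nonneg_right hcB (by positivity)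

end Run7.h994.MC
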