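import Pool.Agent.Run7.h994.MC.RSc

/-!
# Project MC: real arithmetic progressions of `d`-th roots, clusters and patterns
-/

set_option autoImplicit false

namespace Run7.h994.MC

open Finset Filter Topology
open Run7.h462.BPG (lam lam_pos lam_le_quarter lam_le_inv)
open scoped Polynomial

open Classical in
/-- the primes `p` with `x < p`, `p + D ≤ x + A` such that there are at least `k` primes in `[p, p + D]` -/
noncomputable def Cr (k D : ℕ) (A x : ℝ) : Finset ℕ :=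
  (Icc 1 ⌊x + A⌋₊).filter (fun p : ℕ => x < p ∧ (p : ℝ) + D ≤ x + A ∧ p.Prime ∧ k ≤ #((Icc p (p + D)).filter Nat.Prime))

open Classical in
/-- the integers `p` with `x < p`, `p + D ≤ x + A` such that all `p + g`, `g ∈ H`, are primes -/
noncomputable def Tr (H : Finset ℕ) (D : ℕ) (A x : ℝ) : Finset ℕ :=
  (Icc 1 ⌊x + A⌋₊).filter (fun p : ℕ => x < p ∧ (p : ℝ) + D ≤ x + A ∧ ∀ g ∈ H, (p + g).Prime)

open Classical in
theorem rm_le_Cr {K : ℕ} {k : ℕ} (hk : 1 ≤ k) (s : ℝ) (hs : 0 < s) (d : ℕ) (α κ : ℝ) (hα : 0 ≤ α) (h : Fin K → ℕ)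
    (hinj : Function.Injective h) (δ : ℝ) (D A X m : ℕ) (hD : ∀ i, h i ≤ D) (hA : 4 * D + 2 ≤ A)
    (hT : ∀ v ∈ TT s d (-α) κ X, xs s d α ⌊s * (v : ℝ) ^ (1 / (d : ℝ)) - α⌋₊ ≤ v ∧
          (v : ℝ) ≤ xs s d α ⌊s * (v : ℝ) ^ (1 / (d : ℝ)) - α⌋₊ + A / 2) :
    #(RM s d α κ h k δ X m) ≤ K * #(Cr k D A (xs s d α m)) := by
  have hAr : (4 : ℝ) * D + 2 ≤ A := by exact_mod_cast hA
  have hx0 : 0 ≤ xs s d α m := by unfold xs; positivity
  have h1 : RM s d α κ h k δ X m ⊆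
      (univ : Finset (Fin K)).biUnion (fun i => (RM s d α κ h k δ X m).filter
        (fun v => v + 1 + h i ∈ Cr k D A (xs s d α m))) := by
    intro v hv
    have hv0 := hv
    unfold RM GX at hv
    rw [mem_filter, mem_filter] at hv
    obtain ⟨⟨hvT, -, hm⟩, hvm⟩ := hv
    obtain ⟨hx1, hx2⟩ := hT v hvT
    rw [hvm] at hx1 hx2
    obtain ⟨J, hJ⟩ : ∃ J : Finset (Fin K), J = univ.filter (fun i => (v + 1 + h i).Prime) := ⟨_, rfl⟩
    rw [← hJ] at hm
    have hJne : J.Nonempty := card_pos.1 (by omega)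
    obtain ⟨i, hi, hmin⟩ := exists_min_image J h hJne
    rw [mem_biUnion]
    refine ⟨i, mem_univ _, ?_⟩
    rw [mem_filter]
    refine ⟨hv0, ?_⟩
    have hpr : ∀ j ∈ J, (v + 1 + h j).Prime := by
      intro j hj
      rw [hJ, mem_filter] at hj
      exact hj.2
    have hiD : (h i : ℝ) ≤ D := by exact_mod_cast hD i
    unfold Cr
    rw [mem_filter, mem_Icc]
    have hup : ((v + 1 + h i : ℕ) : ℝ) + D ≤ xs s d α m + A := by
      push_cast
      linarith
    refine ⟨⟨by omega, ?_⟩, ?_, hup, hpr i hi, hm.trans ?_⟩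
    · apply Nat.le_floor
      have hD0 : (0 : ℝ) ≤ D := Nat.cast_nonneg _
      linarith
    · push_cast
      have : (0 : ℝ) ≤ h i := Nat.cast_nonneg _
      linarith
    have h2 : J.image (fun j => v + 1 + h j) ⊆ (Icc (v + 1 + h i) (v + 1 + h i + D)).filter Nat.Prime := by
      intro b hb
      rw [mem_image] at hb
      obtain ⟨j, hj, rfl⟩ := hb
      rw [mem_filter, mem_Icc]
      have h3 := hmin j hj
      have h4 := hD j
      exact ⟨⟨by omega, by omega⟩, hpr j hj⟩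
    have h3 : #(J.image (fun j => v + 1 + h j)) = #J := by
      apply card_image_of_injective
      intro x y hxy
      simp only at hxy
      exact hinj (by omega)
    rw [← h3]
    exact card_le_card h2
  refine (card_le_card h1).trans (card_biUnion_le.trans ?_)
  have h2 : ∀ i ∈ (univ : Finset (Fin K)), #((RM s d α κ h k δ X m).filter
      (fun v => v + 1 + h i ∈ Cr k D A (xs s d α m))) ≤ #(Cr k D A (xs s d α m)) := by
    intro i _
    apply card_le_card_of_injOn (fun v => v + 1 + h i)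
    · intro a ha
      rw [mem_coe, mem_filter] at ha
      exact ha.2
    · intro a _ b _ hab
      simp only at hab
      omega
  refine (sum_le_sum h2).trans ?_
  simp

open Classical in
theorem Cr_sub_Tr {k : ℕ} (hk : 1 ≤ k) (D : ℕ) (A x : ℝ) :
    #(Cr k D A x) ≤ ∑ H ∈ ((range (D + 1)).powerset.filter (fun H => #H = k ∧ 0 ∈ H)), #(Tr H D A x) := by
  refine (card_le_card ?_).trans card_biUnion_le
  intro a ha
  unfold Cr at ha
  rw [mem_filter] at ha
  obtain ⟨ha1, ha2, ha3, hp, hk'⟩ := ha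
  obtain ⟨B, hB⟩ : ∃ B : Finset ℕ, B = (Icc a (a + D)).filter Nat.Prime := ⟨_, rfl⟩
  rw [← hB] at hk'
  have haB : a ∈ B := by
    rw [hB, mem_filter, mem_Icc]
    exact ⟨⟨le_rfl, by omega⟩, hp⟩
  obtain ⟨B', hB'1, hB'2, hB'3⟩ : ∃ B' : Finset ℕ, {a} ⊆ B' ∧ B' ⊆ B ∧ #B' = k :=
    exists_subsuperset_card_eq (singleton_subset_iff.2 haB) (by rw [card_singleton]; exact hk) hk'
  rw [singleton_subset_iff] at hB'1
  have hBm : ∀ b ∈ B', a ≤ b ∧ b ≤ a + D ∧ b.Prime := by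
    intro b hb
    have := hB'2 hb
    rw [hB, mem_filter, mem_Icc] at this
    exact ⟨this.1.1, this.1.2, this.2⟩
  rw [mem_biUnion]
  refine ⟨B'.image (fun b => b - a), ?_, ?_⟩
  · rw [mem_filter, mem_powerset]
    refine ⟨?_, ?_, ?_⟩
    · intro g hg
      rw [mem_image] at hg
      obtain ⟨b, hb, rfl⟩ := hg
      have := hBm b hb
      rw [mem_range]
      omega
    · rw [card_image_of_injOn, hB'3]
      intro x hx y hy hxy
      rw [mem_coe] at hx hy
      have h1 := hBm x hx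
      have h2 := hBm y hy
      simp only at hxy
      omega
    · rw [mem_image]
      exact ⟨a, hB'1, by omega⟩
  · unfold Tr
    rw [mem_filter]
    refine ⟨ha1, ha2, ha3, ?_⟩
    intro g hg
    rw [mem_image] at hg
    obtain ⟨b, hb, rfl⟩ := hg
    obtain ⟨h1, h2, h3⟩ := hBm b hb
    have h4 : a + (b - a) = b := by omega
    rw [h4]
    exact h3

/-- bounded clusters of primes after the points `((m + α) / s)^d`, for a positive proportion of the `m`, uniformly in `α ∈ [0, 1]` -/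
theorem rs_clusters (d : ℕ) (hd : 2 ≤ d) (k : ℕ) (hk : 1 ≤ k) (ε : ℝ) (hε : 0 < ε) :
    ∃ D : ℕ, 1 ≤ D ∧ ∀ s : ℝ, 0 < s → ∃ c : ℝ, 0 < c ∧ ∃ M₀ : ℕ, ∀ M : ℕ, M₀ ≤ M → ∀ α : ℝ, 0 ≤ α → α ≤ 1 → ∀ A : ℕ,
      (M : ℝ) ^ ((1 - lam d) * (d : ℝ) - 1 + ε) ≤ A → (A : ℝ) ≤ (M : ℝ) ^ (d - 1) →
        c * M ≤ (#((Icc 1 M).filter (fun m => c * (A / Real.log M ^ D) ≤ (#(Cr k D A (xs s d α m)) : ℝ))) : ℝ) := by
  classical
  obtain ⟨K, hK, H⟩ := rs_main d hd k ε hε
  obtain ⟨D, hD⟩ : ∃ D : ℕ, D = K * K.factorial + K := ⟨_, rfl⟩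
  have hKD : K ≤ D := by rw [hD]; omega
  refine ⟨D, by omega, fun s hs => ?_⟩
  obtain ⟨c, δ, hc, hδ, M₁, H⟩ := H s hs (hst K) (hst_inj K) (hst_adm K)
  have hKr : (0 : ℝ) < K := by exact_mod_cast hK
  have hK1 : (1 : ℝ) ≤ K := by exact_mod_cast hK
  have hlimp : ∀ p : ℝ, 0 < p → Tendsto (fun N : ℕ => (N : ℝ) ^ p) atTop atTop := fun p hp =>
    (tendsto_rpow_atTop hp).comp tendsto_natCast_atTop_atTop
  obtain ⟨M2, hM2⟩ := eventually_atTop.1 ((hlimp (1 / 2) (by norm_num)).eventually_ge_atTop ((4 * D + 2 : ℕ) : ℝ))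
  refine ⟨c / K, by positivity, M₁ + M2 + 10, fun M hM α hα0 hα1 A hA1 hA2 => ?_⟩
  have g2 := hM2 M (by omega)
  have hMR : (10 : ℝ) ≤ M := by exact_mod_cast (by omega : 10 ≤ M)
  have hM0 : (0 : ℝ) < M := by linarith
  have hM1 : (1 : ℝ) ≤ M := by linarith
  have hdR2 : (2 : ℝ) ≤ d := by exact_mod_cast hd
  have he2 : 1 / 2 ≤ (1 - lam d) * (d : ℝ) - 1 := by
    have hlam4 := lam_le_quarter d
    have h1 : 3 / 4 * 2 ≤ (1 - lam d) * (d : ℝ) := by
      apply mul_le_mul (by linarith) hdR2 (by norm_num) (by linarith)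
    linarith
  have hA4 : ((4 * D + 2 : ℕ) : ℝ) ≤ A :=
    g2.trans ((Real.rpow_le_rpow_of_exponent_le hM1 (by linarith)).trans hA1)
  have hA5 : 4 * D + 2 ≤ A := by exact_mod_cast hA4
  obtain ⟨X, κ, hT, h2⟩ := H M (by omega) α hα0 hα1 A hA1 hA2
  have hL1 : 1 ≤ Real.log M := by
    rw [Real.le_log_iff_exp_le hM0]
    have := Real.exp_one_lt_d9
    linarith
  have hLK : Real.log M ^ K ≤ Real.log M ^ D := pow_le_pow_right₀ hL1 hKD
  have hLpos : 0 < Real.log M := by linarith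
  calc c / K * M ≤ c * M := by
        apply mul_le_mul_of_nonneg_right _ hM0.le
        rw [div_le_iff₀ (by positivity)]
        nlinarith
    _ ≤ _ := h2
    _ ≤ _ := by
        apply Nat.cast_le.2
        apply card_le_card
        intro m hm
        rw [mem_filter] at hm ⊢
        refine ⟨hm.1, ?_⟩
        have h3 := rm_le_Cr hk s hs d α κ hα0 (hst K) (hst_inj K) δ D A X m (fun i => by
          have h4 : hst K i ≤ K * K.factorial := by
            unfold hst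
            exact Nat.mul_le_mul_right _ i.2.le
          omega) hA5 hT
        have h4 : (#(RM s d α κ (hst K) k δ X m) : ℝ) ≤ K * #(Cr k D A (xs s d α m)) := by
          exact_mod_cast h3
        have h5 := hm.2.trans h4
        have h6 : K * (c / K * (A / Real.log M ^ D)) ≤ K * #(Cr k D A (xs s d α m)) := by
          refine le_trans ?_ h5
          calc K * (c / K * (A / Real.log M ^ D)) = c * (A / Real.log M ^ D) := by field_simp
            _ ≤ c * (A / Real.log M ^ K) := by gcongr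
        exact le_of_mul_le_mul_left h6 hKr

/-- one bounded pattern of primes after the points `((m + α) / s)^d`, for a positive proportion of the `m` -/
theorem rs_patterns (d : ℕ) (hd : 2 ≤ d) (k : ℕ) (hk : 1 ≤ k) (ε : ℝ) (hε : 0 < ε) :
    ∃ D : ℕ, 1 ≤ D ∧ ∀ s : ℝ, 0 < s → ∃ c : ℝ, 0 < c ∧ ∃ M₀ : ℕ, ∀ M : ℕ, M₀ ≤ M → ∀ α : ℝ, 0 ≤ α → α ≤ 1 → ∀ A : ℕ,
      (M : ℝ) ^ ((1 - lam d) * (d : ℝ) - 1 + ε) ≤ A → (A : ℝ) ≤ (M : ℝ) ^ (d - 1) →
        ∃ H ⊆ range (D + 1), #H = k ∧ 0 ∈ H ∧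
        c * M ≤ (#((Icc 1 M).filter (fun m => c * (A / Real.log M ^ D) ≤ (#(Tr H D A (xs s d α m)) : ℝ))) : ℝ) := by
  classical
  obtain ⟨D, hD, H⟩ := rs_clusters d hd k hk ε hε
  refine ⟨D, hD, fun s hs => ?_⟩
  obtain ⟨c, hc, M₀, H⟩ := H s hs
  obtain ⟨P, hP⟩ : ∃ P : Finset (Finset ℕ), P = (range (D + 1)).powerset.filter (fun H => #H = k ∧ 0 ∈ H) := ⟨_, rfl⟩
  obtain ⟨Q, hQ⟩ : ∃ Q : ℝ, Q = #P + 1 := ⟨_, rfl⟩
  have hQ1 : 1 ≤ Q := by rw [hQ]; have : (0 : ℝ) ≤ #P := Nat.cast_nonneg _; linarith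
  refine ⟨c / Q, by positivity, M₀ + 10, fun M hM α hα0 hα1 A hA1 hA2 => ?_⟩
  have h1 := H M (by omega) α hα0 hα1 A hA1 hA2
  have hNR : (10 : ℝ) ≤ M := by exact_mod_cast (by omega : 10 ≤ M)
  have hL0 : 0 < Real.log M := Real.log_pos (by linarith)
  have hApos : (0 : ℝ) < A := by
    refine lt_of_lt_of_le ?_ hA1
    positivity
  obtain ⟨G, hG⟩ : ∃ G : Finset ℕ, G = (Icc 1 M).filter (fun m => c * (A / Real.log M ^ D) ≤
    (#(Cr k D A (xs s d α m)) : ℝ)) := ⟨_, rfl⟩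
  rw [← hG] at h1
  obtain ⟨Ht, hHt, h2⟩ := pigeon2 G P (Q := Q) (X := c * M) (Y := c * (A / Real.log M ^ D)) (by linarith)
    (by rw [hQ]; linarith) (by positivity) (by positivity) (fun m H => (#(Tr H D A (xs s d α m)) : ℝ)) (by
      intro m hm
      rw [hG, mem_filter] at hm
      refine hm.2.trans ?_
      have h3 := Cr_sub_Tr hk D A (xs s d α m)
      rw [← hP] at h3
      exact_mod_cast h3) h1
  rw [hP, mem_filter, mem_powerset] at hHt
  refine ⟨Ht, hHt.1, hHt.2.1, hHt.2.2, ?_⟩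
  have e1 : c / Q * M = c * M / Q := by ring
  have e2 : c / Q * (A / Real.log M ^ D) = c * (A / Real.log M ^ D) / Q := by ring
  rw [e1, e2]
  refine h2.trans ?_
  apply Nat.cast_le.2
  apply card_le_card
  intro m hm
  rw [mem_filter] at hm ⊢
  refine ⟨?_, hm.2⟩
  rw [hG, mem_filter] at hm
  exact hm.1.1

end Run7.h994.MC
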