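import Pool.Agent.Run7.h994.MC.RSd
import Pool.Agent.Run7.h462.QA.All

/-!
# Project MC: runs of consecutive primes whose square roots are near a real arithmetic progression
-/

set_option autoImplicit false

namespace Run7.h994.MC

open Finset Filter Topology
open Run7.h462.BPG (lam lam_pos lam_le_quarter lam_le_inv)
open scoped Polynomial

/-- the `i`-th prime (`i = 0, 1, ...`) -/
noncomputable def pr (i : ℕ) : ℕ := Nat.nth Nat.Prime i

theorem pr_prime (i : ℕ) : (pr i).Prime := Nat.prime_nth_prime i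

theorem pr_count {p : ℕ} (hp : p.Prime) : pr (Nat.count Nat.Prime p) = p := Nat.nth_count hp

theorem pr_lt {i j : ℕ} (h : i < j) : pr i < pr j := Nat.nth_strictMono Nat.infinite_setOfPred_prime h

theorem lt_pr (i : ℕ) : i < pr i := by
  induction i with
  | zero => exact (pr_prime 0).pos
  | succ n ih =>
      have := pr_lt (show n < n + 1 by omega)
      omega

theorem pr_le_of_card {p k D : ℕ} (h : k + 1 ≤ #((Icc p (p + D)).filter Nat.Prime)) :
    pr (Nat.count Nat.Prime p + k) ≤ p + D := by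
  have h1 : Nat.count Nat.Prime (p + D + 1) = Nat.count Nat.Prime p + #((Icc p (p + D)).filter Nat.Prime) := by
    rw [Nat.count_eq_card_filter_range, Nat.count_eq_card_filter_range, ← card_union_of_disjoint]
    · congr 1
      ext x
      simp only [mem_filter, mem_range, mem_union, mem_Icc]
      constructor
      · rintro ⟨h2, h3⟩
        rcases lt_or_ge x p with h4 | h4
        · exact Or.inl ⟨h4, h3⟩
        · exact Or.inr ⟨⟨h4, by omega⟩, h3⟩
      · rintro (⟨h2, h3⟩ | ⟨⟨h2, h4⟩, h3⟩)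
        · exact ⟨by omega, h3⟩
        · exact ⟨by omega, h3⟩
    · rw [disjoint_left]
      intro x hx hx'
      rw [mem_filter, mem_range] at hx
      rw [mem_filter, mem_Icc] at hx'
      omega
  have h2 : Nat.count Nat.Prime p + k < Nat.count Nat.Prime (p + D + 1) := by omega
  have h3 := Nat.nth_lt_of_lt_count h2
  unfold pr
  omega

open Classical in
/-- the indices `i` with `x < p_i`, `p_(i+k) ≤ x + A`, `p_(i+k) ≤ p_i + D` -/
noncomputable def Ir (k D : ℕ) (A x : ℝ) : Finset ℕ :=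
  (range (⌊x + A⌋₊ + 1)).filter (fun i : ℕ => x < pr i ∧ (pr (i + k) : ℝ) ≤ x + A ∧ pr (i + k) ≤ pr i + D)

theorem Cr_le_Ir (k D : ℕ) (A x : ℝ) : #(Cr (k + 1) D A x) ≤ #(Ir k D A x) := by
  classical
  apply card_le_card_of_injOn (fun p => Nat.count Nat.Prime p)
  · intro p hp
    rw [mem_coe] at hp
    unfold Cr at hp
    rw [mem_filter, mem_Icc] at hp
    obtain ⟨⟨hp1, hp2⟩, hp3, hp4, hp5, hp6⟩ := hp
    have h1 := pr_le_of_card hp6
    have h2 := pr_count hp5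
    have goal1 : Nat.count Nat.Prime p ∈ Ir k D A x := by
      unfold Ir
      rw [mem_filter, mem_range, h2]
      refine ⟨?_, hp3, ?_, h1⟩
      · have h3 := lt_pr (Nat.count Nat.Prime p)
        rw [h2] at h3
        omega
      · have h3 : (pr (Nat.count Nat.Prime p + k) : ℝ) ≤ ((p + D : ℕ) : ℝ) := by exact_mod_cast h1
        push_cast at h3
        linarith
    exact goal1
  · intro p hp q hq hpq
    rw [mem_coe] at hp hq
    unfold Cr at hp hq
    rw [mem_filter] at hp hq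
    simp only at hpq
    rw [← pr_count hp.2.2.2.1, ← pr_count hq.2.2.2.1, hpq]

open Classical in
/-- the indices `i` with `x < p_i`, `p_(i+k) ≤ x + A` and `p_(i+j+1) = p_i + g_j` for `j < k` -/
noncomputable def Vr {k : ℕ} (g : Fin k → ℕ) (A x : ℝ) : Finset ℕ :=
  (range (⌊x + A⌋₊ + 1)).filter (fun i : ℕ => x < pr i ∧ (pr (i + k) : ℝ) ≤ x + A ∧ ∀ j : Fin k, pr (i + (j + 1)) = pr i + g j)

open Classical in
theorem Ir_sub_Vr (k D : ℕ) (A x : ℝ) :
    #(Ir k D A x) ≤ ∑ g ∈ Fintype.piFinset (fun _ : Fin k => Icc 1 D), #(Vr g A x) := by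
  refine (card_le_card ?_).trans card_biUnion_le
  intro i hi
  unfold Ir at hi
  rw [mem_filter] at hi
  obtain ⟨h1, h2, h3, h4⟩ := hi
  rw [mem_biUnion]
  have h5 : ∀ j : Fin k, pr i < pr (i + (j + 1)) := fun j => pr_lt (by omega)
  have h6 : ∀ j : Fin k, pr (i + (j + 1)) ≤ pr (i + k) := by
    intro j
    rcases Nat.lt_or_ge (i + (j + 1)) (i + k) with h7 | h7
    · exact (pr_lt h7).le
    · have : i + ((j : ℕ) + 1) = i + k := by omega
      rw [this]
  refine ⟨fun j => pr (i + (j + 1)) - pr i, ?_, ?_⟩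
  · rw [Fintype.mem_piFinset]
    intro j
    rw [mem_Icc]
    have := h5 j
    have := h6 j
    omega
  · unfold Vr
    rw [mem_filter]
    refine ⟨h1, h2, h3, fun j => ?_⟩
    have h7 := h5 j
    change pr (i + (j + 1)) = pr i + (pr (i + (j + 1)) - pr i)
    omega

/-- runs of `k + 1` consecutive primes of bounded diameter after the points `((m + α) / s)^d` -/
theorem rs_runs (d : ℕ) (hd : 2 ≤ d) (k : ℕ) (ε : ℝ) (hε : 0 < ε) :
    ∃ D : ℕ, 1 ≤ D ∧ ∀ s : ℝ, 0 < s → ∃ c : ℝ, 0 < c ∧ ∃ M₀ : ℕ, ∀ M : ℕ, M₀ ≤ M → ∀ α : ℝ, 0 ≤ α → α ≤ 1 → ∀ A : ℕ,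
      (M : ℝ) ^ ((1 - lam d) * (d : ℝ) - 1 + ε) ≤ A → (A : ℝ) ≤ (M : ℝ) ^ (d - 1) →
        c * M ≤ (#((Icc 1 M).filter (fun m => c * (A / Real.log M ^ D) ≤ (#(Ir k D A (xs s d α m)) : ℝ))) : ℝ) := by
  classical
  obtain ⟨D, hD, H⟩ := rs_clusters d hd (k + 1) (by omega) ε hε
  refine ⟨D, hD, fun s hs => ?_⟩
  obtain ⟨c, hc, M₀, H⟩ := H s hs
  refine ⟨c, hc, M₀, fun M hM α hα0 hα1 A hA1 hA2 => (H M hM α hα0 hα1 A hA1 hA2).trans ?_⟩
  apply Nat.cast_le.2
  apply card_le_card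
  intro m hm
  rw [mem_filter] at hm ⊢
  refine ⟨hm.1, hm.2.trans ?_⟩
  exact_mod_cast Cr_le_Ir k D A _

/-- one vector of distances of consecutive primes after the points `((m + α) / s)^d` -/
theorem rs_vectors (d : ℕ) (hd : 2 ≤ d) (k : ℕ) (ε : ℝ) (hε : 0 < ε) :
    ∃ D : ℕ, 1 ≤ D ∧ ∀ s : ℝ, 0 < s → ∃ c : ℝ, 0 < c ∧ ∃ M₀ : ℕ, ∀ M : ℕ, M₀ ≤ M → ∀ α : ℝ, 0 ≤ α → α ≤ 1 → ∀ A : ℕ,
      (M : ℝ) ^ ((1 - lam d) * (d : ℝ) - 1 + ε) ≤ A → (A : ℝ) ≤ (M : ℝ) ^ (d - 1) →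
        ∃ g : Fin k → ℕ, (∀ j, 1 ≤ g j ∧ g j ≤ D) ∧
        c * M ≤ (#((Icc 1 M).filter (fun m => c * (A / Real.log M ^ D) ≤ (#(Vr g A (xs s d α m)) : ℝ))) : ℝ) := by
  classical
  obtain ⟨D, hD, H⟩ := rs_runs d hd k ε hε
  refine ⟨D, hD, fun s hs => ?_⟩
  obtain ⟨c, hc, M₀, H⟩ := H s hs
  obtain ⟨P, hP⟩ : ∃ P : Finset (Fin k → ℕ), P = Fintype.piFinset (fun _ : Fin k => Icc 1 D) := ⟨_, rfl⟩
  obtain ⟨Q, hQ⟩ : ∃ Q : ℝ, Q = #P + 1 := ⟨_, rfl⟩
  have hQ1 : 1 ≤ Q := by rw [hQ]; have : (0 : ℝ) ≤ #P := Nat.cast_nonneg _; linarith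
  refine ⟨c / Q, by positivity, M₀ + 10, fun M hM α hα0 hα1 A hA1 hA2 => ?_⟩
  have h1 := H M (by omega) α hα0 hα1 A hA1 hA2
  have hNR : (10 : ℝ) ≤ M := by exact_mod_cast (by omega : 10 ≤ M)
  have hL0 : 0 < Real.log M := Real.log_pos (by linarith)
  have hApos : (0 : ℝ) < A := by
    refine lt_of_lt_of_le ?_ hA1
    positivity
  obtain ⟨G, hG⟩ : ∃ G : Finset ℕ, G = (Icc 1 M).filter (fun m => c * (A / Real.log M ^ D) ≤
    (#(Ir k D A (xs s d α m)) : ℝ)) := ⟨_, rfl⟩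
  rw [← hG] at h1
  obtain ⟨g, hg, h2⟩ := pigeon2 G P (Q := Q) (X := c * M) (Y := c * (A / Real.log M ^ D)) (by linarith)
    (by rw [hQ]; linarith) (by positivity) (by positivity) (fun m g => (#(Vr g A (xs s d α m)) : ℝ)) (by
      intro m hm
      rw [hG, mem_filter] at hm
      refine hm.2.trans ?_
      have h3 := Ir_sub_Vr k D A (xs s d α m)
      rw [← hP] at h3
      exact_mod_cast h3) h1
  rw [hP, Fintype.mem_piFinset] at hg
  refine ⟨g, fun j => mem_Icc.1 (hg j), ?_⟩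
  have e1 : c / Q * M = c * M / Q := by ring
  have e2 : c / Q * (A / Real.log M ^ D) = c * (A / Real.log M ^ D) / Q := by ring
  rw [e1, e2]
  refine h2.trans ?_
  apply Nat.cast_le.2
  apply card_le_card
  intro m hm
  rw [mem_filter] at hm ⊢
  refine ⟨?_, hm.2⟩
  rw [hG, mem_filter] at hm
  exact hm.1.1

end Run7.h994.MC
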