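import Pool.Agent.Run7.h994.MC.RSe

/-!
# Project MC: runs of consecutive primes whose square roots are near a real arithmetic progression, in terms of the square roots
-/

set_option autoImplicit false

namespace Run7.h994.MC

open Finset Filter Topology
open Run7.h462.BPG (lam lam_pos lam_le_quarter lam_le_inv)

open Classical in
theorem prop_tr {c₁ b B B' : ℝ} {M : ℕ} {f F : ℕ → ℕ} (hc₁ : 0 < c₁) (hB' : 0 ≤ B') (hB : b / 2 * B' ≤ B)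
    (h : c₁ * M ≤ (#((Icc 1 M).filter (fun m => c₁ * B ≤ (f m : ℝ))) : ℝ))
    (hF : ∀ m : ℕ, c₁ / 2 * M ≤ m → f m ≤ F m) :
    min (c₁ / 2) (c₁ * (b / 2)) * M ≤
      (#((Icc 1 M).filter (fun m => min (c₁ / 2) (c₁ * (b / 2)) * B' ≤ (F m : ℝ))) : ℝ) := by
  obtain ⟨c, hc⟩ : ∃ c : ℝ, c = min (c₁ / 2) (c₁ * (b / 2)) := ⟨_, rfl⟩
  rw [← hc]
  have hc1 : c ≤ c₁ / 2 := by rw [hc]; exact min_le_left _ _
  have hc2 : c ≤ c₁ * (b / 2) := by rw [hc]; exact min_le_right _ _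
  have hM0 : (0 : ℝ) ≤ M := Nat.cast_nonneg _
  have h1 : (Icc 1 M).filter (fun m => c₁ * B ≤ (f m : ℝ)) ⊆
      (Icc 1 ⌊c₁ / 2 * M⌋₊) ∪ ((Icc 1 M).filter (fun m => c * B' ≤ (F m : ℝ))) := by
    intro m hm
    rw [mem_filter, mem_Icc] at hm
    rw [mem_union]
    by_cases hmM : c₁ / 2 * M ≤ m
    · right
      rw [mem_filter, mem_Icc]
      refine ⟨hm.1, ?_⟩
      have h2 : (f m : ℝ) ≤ F m := by exact_mod_cast hF m hmM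
      calc c * B' ≤ c₁ * (b / 2) * B' := mul_le_mul_of_nonneg_right hc2 hB'
        _ = c₁ * (b / 2 * B') := by ring
        _ ≤ c₁ * B := mul_le_mul_of_nonneg_left hB hc₁.le
        _ ≤ f m := hm.2
        _ ≤ F m := h2
    · left
      push Not at hmM
      rw [mem_Icc]
      exact ⟨hm.1.1, Nat.le_floor hmM.le⟩
  have h2 := (card_le_card h1).trans (card_union_le _ _)
  rw [Nat.card_Icc, Nat.add_sub_cancel] at h2
  have h3 : (#((Icc 1 M).filter (fun m => c₁ * B ≤ (f m : ℝ))) : ℝ) ≤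
      (⌊c₁ / 2 * M⌋₊ : ℝ) + #((Icc 1 M).filter (fun m => c * B' ≤ (F m : ℝ))) := by
    have h4 : ((#((Icc 1 M).filter (fun m => c₁ * B ≤ (f m : ℝ))) : ℕ) : ℝ) ≤
      ((⌊c₁ / 2 * M⌋₊ + #((Icc 1 M).filter (fun m => c * B' ≤ (F m : ℝ))) : ℕ) : ℝ) := Nat.cast_le.2 h2
    push_cast at h4
    exact h4
  have h4 : (⌊c₁ / 2 * M⌋₊ : ℝ) ≤ c₁ / 2 * M := Nat.floor_le (by positivity)
  have h5 : c * M ≤ c₁ / 2 * M := mul_le_mul_of_nonneg_right hc1 hM0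
  linarith

open Classical in
/-- the indices `i` with `y < √p_i`, `√p_(i+k) ≤ y + κ`, `√p_(i+k) - √p_i ≤ D / (2 √p_i)` -/
noncomputable def SR (k D : ℕ) (κ y : ℝ) : Finset ℕ :=
  (range (⌊(y + κ) ^ 2⌋₊ + 1)).filter (fun i : ℕ => y < √(pr i : ℝ) ∧ √(pr (i + k) : ℝ) ≤ y + κ ∧
    √(pr (i + k) : ℝ) - √(pr i : ℝ) ≤ D / (2 * √(pr i : ℝ)))

open Classical in
/-- the indices `i` with `y < √p_i`, `√p_(i+k) ≤ y + κ` and `p_(i+j+1) = p_i + g_j` for `j < k` -/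
noncomputable def SV {k : ℕ} (g : Fin k → ℕ) (κ y : ℝ) : Finset ℕ :=
  (range (⌊(y + κ) ^ 2⌋₊ + 1)).filter (fun i : ℕ => y < √(pr i : ℝ) ∧ √(pr (i + k) : ℝ) ≤ y + κ ∧
    ∀ j : Fin k, pr (i + (j + 1)) = pr i + g j)

theorem sqrt_basic {y κ A : ℝ} (hy : 0 ≤ y) (hκ : 0 ≤ κ) (hA : A ≤ 2 * y * κ) (p q : ℕ) (h1 : y ^ 2 < p) (h2 : (q : ℝ) ≤ y ^ 2 + A) :
    y < √(p : ℝ) ∧ √(q : ℝ) ≤ y + κ := by
  refine ⟨Real.lt_sqrt_of_sq_lt h1, ?_⟩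
  apply Real.sqrt_le_iff.2
  refine ⟨by linarith, ?_⟩
  nlinarith [sq_nonneg κ]

theorem sqrt_diff {D : ℕ} (p q : ℕ) (hp : 0 < p) (hpq : p ≤ q) (hD : q ≤ p + D) :
    √(q : ℝ) - √(p : ℝ) ≤ D / (2 * √(p : ℝ)) := by
  have hp0 : (0 : ℝ) < p := by exact_mod_cast hp
  have h1 : 0 < √(p : ℝ) := Real.sqrt_pos.2 hp0
  have h2 : √(p : ℝ) ≤ √(q : ℝ) := Real.sqrt_le_sqrt (by exact_mod_cast hpq)
  rw [le_div_iff₀ (by positivity)]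
  have h3 : √(p : ℝ) * √(p : ℝ) = p := Real.mul_self_sqrt hp0.le
  have h4 : √(q : ℝ) * √(q : ℝ) = q := Real.mul_self_sqrt (Nat.cast_nonneg _)
  have h5 : (q : ℝ) ≤ p + D := by exact_mod_cast hD
  nlinarith

theorem Ir_le_SR (k D : ℕ) {y κ A : ℝ} (hy : 0 ≤ y) (hκ : 0 ≤ κ) (hA : A ≤ 2 * y * κ) : #(Ir k D A (y ^ 2)) ≤ #(SR k D κ y) := by
  classical
  apply card_le_card
  intro i hi
  unfold Ir at hi
  rw [mem_filter, mem_range] at hi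
  obtain ⟨h1, h2, h3, h4⟩ := hi
  obtain ⟨h5, h6⟩ := sqrt_basic hy hκ hA _ _ h2 h3
  unfold SR
  rw [mem_filter, mem_range]
  have h7 : pr i ≤ pr (i + k) := by
    rcases Nat.eq_zero_or_pos k with rfl | hk
    · simp
    · exact (pr_lt (by omega)).le
  refine ⟨?_, h5, h6, sqrt_diff _ _ (pr_prime i).pos h7 h4⟩
  refine lt_of_lt_of_le h1 ?_
  apply Nat.succ_le_succ
  apply Nat.floor_le_floor
  nlinarith [sq_nonneg κ]

theorem Vr_le_SV {k : ℕ} (g : Fin k → ℕ) {y κ A : ℝ} (hy : 0 ≤ y) (hκ : 0 ≤ κ) (hA : A ≤ 2 * y * κ) :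
    #(Vr g A (y ^ 2)) ≤ #(SV g κ y) := by
  classical
  apply card_le_card
  intro i hi
  unfold Vr at hi
  rw [mem_filter, mem_range] at hi
  obtain ⟨h1, h2, h3, h4⟩ := hi
  obtain ⟨h5, h6⟩ := sqrt_basic hy hκ hA _ _ h2 h3
  unfold SV
  rw [mem_filter, mem_range]
  refine ⟨?_, h5, h6, h4⟩
  refine lt_of_lt_of_le h1 ?_
  apply Nat.succ_le_succ
  apply Nat.floor_le_floor
  nlinarith [sq_nonneg κ]

/-- the choice of `A` -/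
theorem choose_A (l c₁ ε : ℝ) (hl : 0 < l) (hc₁ : 0 < c₁) (hε : 0 < ε) : ∃ (b : ℝ) (M₀ : ℕ), 0 < b ∧ ∀ M : ℕ, M₀ ≤ M →
    ∀ κ : ℝ, (M : ℝ) ^ (-1 / 2 + ε) ≤ κ → κ ≤ 1 → ∃ A : ℕ, (M : ℝ) ^ ((1 - lam 2) * ((2 : ℕ) : ℝ) - 1 + ε / 2) ≤ A ∧
      (A : ℝ) ≤ (M : ℝ) ^ (2 - 1) ∧ b / 2 * (κ * M) ≤ A ∧
      ∀ (m : ℕ) (α : ℝ), 0 ≤ α → c₁ / 2 * M ≤ m → (A : ℝ) ≤ 2 * (l * (m + α)) * κ := by
  have hb : 0 < min 1 (l * c₁) := lt_min one_pos (by positivity)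
  have hlimp : ∀ p : ℝ, 0 < p → Tendsto (fun N : ℕ => (N : ℝ) ^ p) atTop atTop := fun p hp =>
    (tendsto_rpow_atTop hp).comp tendsto_natCast_atTop_atTop
  obtain ⟨M1, hM1⟩ := eventually_atTop.1 ((hlimp (ε / 2) (by positivity)).eventually_ge_atTop (2 / min 1 (l * c₁)))
  refine ⟨min 1 (l * c₁), M1 + 10, hb, fun M hM κ hκ1 hκ2 => ?_⟩
  obtain ⟨b, hbd⟩ : ∃ b : ℝ, b = min 1 (l * c₁) := ⟨_, rfl⟩
  rw [← hbd] at hb hM1 ⊢
  have hb1 : b ≤ 1 := by rw [hbd]; exact min_le_left _ _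
  have hb2 : b ≤ l * c₁ := by rw [hbd]; exact min_le_right _ _
  have g1 := hM1 M (by omega)
  have hMR : (10 : ℝ) ≤ M := by exact_mod_cast (by omega : 10 ≤ M)
  have hM0 : (0 : ℝ) < M := by linarith
  have hM1' : (1 : ℝ) ≤ M := by linarith
  have hκ0 : 0 < κ := lt_of_lt_of_le (by positivity) hκ1
  have hκM : (M : ℝ) ^ (1 / 2 + ε) ≤ κ * M := by
    have h1 : (M : ℝ) ^ (1 / 2 + ε) = (M : ℝ) ^ (-1 / 2 + ε) * M := by
      rw [← Real.rpow_add_one hM0.ne']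
      congr 1
      ring
    rw [h1]
    exact mul_le_mul_of_nonneg_right hκ1 hM0.le
  have hsplit : (M : ℝ) ^ (1 / 2 + ε) = (M : ℝ) ^ (1 / 2 + ε / 2) * (M : ℝ) ^ (ε / 2) := by
    rw [← Real.rpow_add hM0]
    congr 1
    ring
  have hM2 : (1 : ℝ) ≤ (M : ℝ) ^ (1 / 2 + ε / 2) := Real.one_le_rpow hM1' (by positivity)
  have hbig : 2 * (M : ℝ) ^ (1 / 2 + ε / 2) ≤ b * (κ * M) := by
    have h1 : 2 ≤ b * (M : ℝ) ^ (ε / 2) := by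
      rw [div_le_iff₀ hb] at g1
      linarith
    calc 2 * (M : ℝ) ^ (1 / 2 + ε / 2) ≤ b * (M : ℝ) ^ (ε / 2) * (M : ℝ) ^ (1 / 2 + ε / 2) := by gcongr
      _ = b * (M : ℝ) ^ (1 / 2 + ε) := by rw [hsplit]; ring
      _ ≤ b * (κ * M) := by gcongr
  obtain ⟨A, hA⟩ : ∃ A : ℕ, A = ⌊b * (κ * M)⌋₊ := ⟨_, rfl⟩
  have hAu : (A : ℝ) ≤ b * (κ * M) := by rw [hA]; exact Nat.floor_le (by positivity)
  have hAl : b * (κ * M) < A + 1 := by rw [hA]; exact Nat.lt_floor_add_one _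
  refine ⟨A, ?_, ?_, by linarith, ?_⟩
  · rw [Run7.h462.QA.lam_range 2 le_rfl]
    have h1 : max (3 / 4 * (((2 : ℕ) : ℝ)) - 1) (((2 : ℕ) : ℝ) - 2) + ε / 2 = 1 / 2 + ε / 2 := by norm_num
    rw [h1]
    linarith
  · calc (A : ℝ) ≤ b * (κ * M) := hAu
      _ ≤ 1 * (1 * M) := by gcongr
      _ = (M : ℝ) ^ (2 - 1) := by norm_num
  · intro m α hα hm
    calc (A : ℝ) ≤ b * (κ * M) := hAu
      _ ≤ l * c₁ * (κ * M) := by gcongr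
      _ = 2 * (l * (c₁ / 2 * M)) * κ := by ring
      _ ≤ 2 * (l * (m + α)) * κ := by
          have : c₁ / 2 * M ≤ m + α := by linarith
          gcongr

/-- runs of consecutive primes, in terms of the square roots -/
theorem sq_runs (k : ℕ) (ε : ℝ) (hε : 0 < ε) : ∃ D : ℕ, 1 ≤ D ∧ ∀ l : ℝ, 0 < l → ∃ c : ℝ, 0 < c ∧ ∃ M₀ : ℕ,
    ∀ M : ℕ, M₀ ≤ M → ∀ α : ℝ, 0 ≤ α → α ≤ 1 → ∀ κ : ℝ, (M : ℝ) ^ (-1 / 2 + ε) ≤ κ → κ ≤ 1 →
      c * M ≤ (#((Icc 1 M).filter (fun m : ℕ => c * (κ * M / Real.log M ^ D) ≤ (#(SR k D κ (l * (m + α))) : ℝ))) : ℝ) := by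
  classical
  obtain ⟨D, hD, H⟩ := rs_runs 2 le_rfl k (ε / 2) (by positivity)
  refine ⟨D, hD, fun l hl => ?_⟩
  obtain ⟨c₁, hc₁, M₁, H⟩ := H (1 / l) (by positivity)
  obtain ⟨b, M₂, hb, hA⟩ := choose_A l c₁ ε hl hc₁ hε
  refine ⟨min (c₁ / 2) (c₁ * (b / 2)), lt_min (by positivity) (by positivity), M₁ + M₂ + 10,
    fun M hM α hα0 hα1 κ hκ1 hκ2 => ?_⟩
  have hMR : (10 : ℝ) ≤ M := by exact_mod_cast (by omega : 10 ≤ M)
  have hM0 : (0 : ℝ) < M := by linarith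
  have hκ0 : 0 < κ := lt_of_lt_of_le (by positivity) hκ1
  have hL0 : 0 < Real.log M := Real.log_pos (by linarith)
  obtain ⟨A, hA1, hA2, hA3, hA4⟩ := hA M (by omega) κ hκ1 hκ2
  have h1 := H M (by omega) α hα0 hα1 A hA1 hA2
  refine prop_tr (f := fun m : ℕ => #(Ir k D A (xs (1 / l) 2 α m))) (F := fun m : ℕ => #(SR k D κ (l * (m + α)))) hc₁
    (by positivity) ?_ h1 ?_
  · rw [mul_div_assoc']
    exact div_le_div_of_nonneg_right hA3 (by positivity)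
  · intro m hm
    have h2 : xs (1 / l) 2 α m = (l * (m + α)) ^ 2 := by
      unfold xs
      rw [div_div_eq_mul_div, div_one]
      ring
    have h3 := Ir_le_SR k D (y := l * (m + α)) (κ := κ) (A := A) (by positivity) hκ0.le (hA4 m α hα0 hm)
    rw [h2]
    exact h3

/-- one vector of distances of consecutive primes, in terms of the square roots -/
theorem sq_vectors (k : ℕ) (ε : ℝ) (hε : 0 < ε) : ∃ D : ℕ, 1 ≤ D ∧ ∀ l : ℝ, 0 < l → ∃ c : ℝ, 0 < c ∧ ∃ M₀ : ℕ,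
    ∀ M : ℕ, M₀ ≤ M → ∀ α : ℝ, 0 ≤ α → α ≤ 1 → ∀ κ : ℝ, (M : ℝ) ^ (-1 / 2 + ε) ≤ κ → κ ≤ 1 →
      ∃ g : Fin k → ℕ, (∀ j, 1 ≤ g j ∧ g j ≤ D) ∧
      c * M ≤ (#((Icc 1 M).filter (fun m : ℕ => c * (κ * M / Real.log M ^ D) ≤ (#(SV g κ (l * (m + α))) : ℝ))) : ℝ) := by
  classical
  obtain ⟨D, hD, H⟩ := rs_vectors 2 le_rfl k (ε / 2) (by positivity)
  refine ⟨D, hD, fun l hl => ?_⟩
  obtain ⟨c₁, hc₁, M₁, H⟩ := H (1 / l) (by positivity)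
  obtain ⟨b, M₂, hb, hA⟩ := choose_A l c₁ ε hl hc₁ hε
  refine ⟨min (c₁ / 2) (c₁ * (b / 2)), lt_min (by positivity) (by positivity), M₁ + M₂ + 10,
    fun M hM α hα0 hα1 κ hκ1 hκ2 => ?_⟩
  have hMR : (10 : ℝ) ≤ M := by exact_mod_cast (by omega : 10 ≤ M)
  have hM0 : (0 : ℝ) < M := by linarith
  have hκ0 : 0 < κ := lt_of_lt_of_le (by positivity) hκ1
  have hL0 : 0 < Real.log M := Real.log_pos (by linarith)
  obtain ⟨A, hA1, hA2, hA3, hA4⟩ := hA M (by omega) κ hκ1 hκ2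
  obtain ⟨g, hg, h1⟩ := H M (by omega) α hα0 hα1 A hA1 hA2
  refine ⟨g, hg, ?_⟩
  refine prop_tr (f := fun m : ℕ => #(Vr g A (xs (1 / l) 2 α m))) (F := fun m : ℕ => #(SV g κ (l * (m + α)))) hc₁
    (by positivity) ?_ h1 ?_
  · rw [mul_div_assoc']
    exact div_le_div_of_nonneg_right hA3 (by positivity)
  · intro m hm
    have h2 : xs (1 / l) 2 α m = (l * (m + α)) ^ 2 := by
      unfold xs
      rw [div_div_eq_mul_div, div_one]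
      ring
    have h3 := Vr_le_SV g (y := l * (m + α)) (κ := κ) (A := A) (by positivity) hκ0.le (hA4 m α hα0 hm)
    rw [h2]
    exact h3

end Run7.h994.MC
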