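import Pool.Agent.Run7.h994.MC.RSf

/-!
# Project MC: all relative positions between consecutive odd squares
-/

set_option autoImplicit false

namespace Run7.h994.MC

open Finset Filter Topology
open Run7.h462.BPG (lam lam_pos lam_le_quarter lam_le_inv)

open Classical in
/-- from the positions `α ∈ [0, 1]` to the positions `β - 1/2`, `β ∈ [0, 1]` -/
theorem pos_shift {c : ℝ} {M : ℕ} (hc : 0 < c) (hM : 2 ≤ c * M) (P : ℝ → ℝ → Prop)
    (hext : ∀ x y : ℝ, x = y → (P c x ↔ P c y)) (hmono : ∀ x, P c x → P (c / 2) x)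
    (H : ∀ α : ℝ, 0 ≤ α → α ≤ 1 → c * M ≤ (#((Icc 1 M).filter (fun m : ℕ => P c ((((m : ℝ) + α) / (1 / 2)) ^ 2))) : ℝ))
    (β : ℝ) (hβ0 : 0 ≤ β) (hβ1 : β ≤ 1) :
    c / 2 * M ≤ (#((Icc 1 M).filter (fun m : ℕ => P (c / 2) ((2 * (m : ℝ) - 1 + 2 * β) ^ 2))) : ℝ) := by
  rcases le_or_gt (1 / 2) β with h | h
  · have h1 := H (β - 1 / 2) (by linarith) (by linarith)
    have h2 : (Icc 1 M).filter (fun m : ℕ => P c ((((m : ℝ) + (β - 1 / 2)) / (1 / 2)) ^ 2)) ⊆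
        (Icc 1 M).filter (fun m : ℕ => P (c / 2) ((2 * (m : ℝ) - 1 + 2 * β) ^ 2)) := by
      intro m hm
      rw [mem_filter] at hm ⊢
      refine ⟨hm.1, hmono _ ((hext _ _ ?_).1 hm.2)⟩
      congr 1
      ring
    have h3 : (#((Icc 1 M).filter (fun m : ℕ => P c ((((m : ℝ) + (β - 1 / 2)) / (1 / 2)) ^ 2))) : ℝ) ≤
        #((Icc 1 M).filter (fun m : ℕ => P (c / 2) ((2 * (m : ℝ) - 1 + 2 * β) ^ 2))) := Nat.cast_le.2 (card_le_card h2)
    have : c / 2 * M ≤ c * M := by nlinarith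
    linarith
  · have h1 := H (β + 1 / 2) (by linarith) (by linarith)
    obtain ⟨S, hS⟩ : ∃ S : Finset ℕ, S = (Icc 1 M).filter (fun m : ℕ => P c ((((m : ℝ) + (β + 1 / 2)) / (1 / 2)) ^ 2)) :=
      ⟨_, rfl⟩
    rw [← hS] at h1
    have h2 : #(S.erase M) ≤ #((Icc 1 M).filter (fun m : ℕ => P (c / 2) ((2 * (m : ℝ) - 1 + 2 * β) ^ 2))) := by
      apply card_le_card_of_injOn (fun m => m + 1)
      · intro m hm
        rw [mem_coe, mem_erase, hS, mem_filter, mem_Icc] at hm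
        obtain ⟨hmM, ⟨hm1, hm2⟩, hmP⟩ := hm
        have goal1 : m + 1 ∈ (Icc 1 M).filter (fun m : ℕ => P (c / 2) ((2 * (m : ℝ) - 1 + 2 * β) ^ 2)) := by
          rw [mem_filter, mem_Icc]
          refine ⟨⟨by omega, by omega⟩, hmono _ ((hext _ _ ?_).1 hmP)⟩
          push_cast
          congr 1
          ring
        exact goal1
      · intro x _ y _ hxy
        simp only at hxy
        omega
    have h3 : #S ≤ #(S.erase M) + 1 := by
      have := pred_card_le_card_erase (s := S) (a := M)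
      omega
    have h4 : (#S : ℝ) ≤ #((Icc 1 M).filter (fun m : ℕ => P (c / 2) ((2 * (m : ℝ) - 1 + 2 * β) ^ 2))) + 1 := by
      have h5 := h3.trans (Nat.add_le_add_right h2 1)
      exact_mod_cast h5
    linarith

/-- clusters at every relative position between consecutive odd squares -/
theorem odd_clusters (k : ℕ) (hk : 1 ≤ k) (ε : ℝ) (hε : 0 < ε) : ∃ (D : ℕ) (c : ℝ), 0 < c ∧ ∃ M₀ : ℕ, ∀ M : ℕ, M₀ ≤ M →
    ∀ β : ℝ, 0 ≤ β → β ≤ 1 → ∀ A : ℕ, (M : ℝ) ^ (1 / 2 + ε) ≤ A → A ≤ M →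
      c * M ≤ (#((Icc 1 M).filter (fun m : ℕ => c * (A / Real.log M ^ D) ≤
        (#(Cr k D A ((2 * (m : ℝ) - 1 + 2 * β) ^ 2)) : ℝ))) : ℝ) := by
  classical
  obtain ⟨D, hD, H⟩ := rs_clusters 2 le_rfl k hk ε hε
  obtain ⟨c, hc, M₁, H⟩ := H (1 / 2) (by norm_num)
  refine ⟨D, c / 2, by positivity, M₁ + ⌈2 / c⌉₊ + 10, fun M hM β hβ0 hβ1 A hA1 hA2 => ?_⟩
  have hMR : (10 : ℝ) ≤ M := by exact_mod_cast (by omega : 10 ≤ M)
  have hL0 : 0 < Real.log M := Real.log_pos (by linarith)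
  have hcM : 2 ≤ c * M := by
    have h1 : 2 / c ≤ M := (Nat.le_ceil _).trans (by exact_mod_cast (by omega : ⌈2 / c⌉₊ ≤ M))
    rw [div_le_iff₀ hc] at h1
    linarith
  have hA0 : (0 : ℝ) ≤ A := Nat.cast_nonneg _
  refine pos_shift hc hcM (fun c' x => c' * (A / Real.log M ^ D) ≤ (#(Cr k D A x) : ℝ)) (fun x y hxy => by rw [hxy]) ?_ ?_ β hβ0 hβ1
  · intro x hx
    refine le_trans ?_ hx
    apply mul_le_mul_of_nonneg_right (by linarith) (by positivity)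
  · intro α hα0 hα1
    exact H M (by omega) α hα0 hα1 A (by
      rw [Run7.h462.QA.lam_range 2 le_rfl]
      refine le_trans (le_of_eq ?_) hA1
      congr 1
      norm_num) (by
      norm_num
      exact_mod_cast hA2)

/-- one vector of distances of consecutive primes at every relative position between consecutive odd squares -/
theorem odd_vectors (k : ℕ) (ε : ℝ) (hε : 0 < ε) : ∃ (D : ℕ) (c : ℝ), 0 < c ∧ ∃ M₀ : ℕ, ∀ M : ℕ, M₀ ≤ M →
    ∀ β : ℝ, 0 ≤ β → β ≤ 1 → ∀ A : ℕ, (M : ℝ) ^ (1 / 2 + ε) ≤ A → A ≤ M →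
      ∃ g : Fin k → ℕ, (∀ j, 1 ≤ g j ∧ g j ≤ D) ∧
      c * M ≤ (#((Icc 1 M).filter (fun m : ℕ => c * (A / Real.log M ^ D) ≤
        (#(Vr g A ((2 * (m : ℝ) - 1 + 2 * β) ^ 2)) : ℝ))) : ℝ) := by
  classical
  obtain ⟨D, hD, H⟩ := rs_vectors 2 le_rfl k ε hε
  obtain ⟨c, hc, M₁, H⟩ := H (1 / 2) (by norm_num)
  refine ⟨D, c / 2, by positivity, M₁ + ⌈2 / c⌉₊ + 10, fun M hM β hβ0 hβ1 A hA1 hA2 => ?_⟩
  have hMR : (10 : ℝ) ≤ M := by exact_mod_cast (by omega : 10 ≤ M)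
  have hL0 : 0 < Real.log M := Real.log_pos (by linarith)
  have hcM : 2 ≤ c * M := by
    have h1 : 2 / c ≤ M := (Nat.le_ceil _).trans (by exact_mod_cast (by omega : ⌈2 / c⌉₊ ≤ M))
    rw [div_le_iff₀ hc] at h1
    linarith
  have hA0 : (0 : ℝ) ≤ A := Nat.cast_nonneg _
  have hA1' : (M : ℝ) ^ ((1 - lam 2) * ((2 : ℕ) : ℝ) - 1 + ε) ≤ A := by
    rw [Run7.h462.QA.lam_range 2 le_rfl]
    refine le_trans (le_of_eq ?_) hA1
    congr 1
    norm_num
  have hA2' : (A : ℝ) ≤ (M : ℝ) ^ (2 - 1) := by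
    norm_num
    exact_mod_cast hA2
  rcases le_or_gt (1 / 2) β with h | h
  · obtain ⟨g, hg, h1⟩ := H M (by omega) (β - 1 / 2) (by linarith) (by linarith) A hA1' hA2'
    refine ⟨g, hg, ?_⟩
    have h2 : (Icc 1 M).filter (fun m : ℕ => c * (A / Real.log M ^ D) ≤ (#(Vr g A (xs (1 / 2) 2 (β - 1 / 2) m)) : ℝ)) ⊆
        (Icc 1 M).filter (fun m : ℕ => c / 2 * (A / Real.log M ^ D) ≤ (#(Vr g A ((2 * (m : ℝ) - 1 + 2 * β) ^ 2)) : ℝ)) := by
      intro m hm
      rw [mem_filter] at hm ⊢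
      refine ⟨hm.1, ?_⟩
      have e : xs (1 / 2) 2 (β - 1 / 2) m = (2 * (m : ℝ) - 1 + 2 * β) ^ 2 := by
        unfold xs
        congr 1
        ring
      rw [← e]
      exact le_trans (mul_le_mul_of_nonneg_right (by linarith) (by positivity)) hm.2
    have h3 := Nat.cast_le (α := ℝ) |>.2 (card_le_card h2)
    have : c / 2 * M ≤ c * M := by nlinarith
    linarith
  · obtain ⟨g, hg, h1⟩ := H M (by omega) (β + 1 / 2) (by linarith) (by linarith) A hA1' hA2'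
    refine ⟨g, hg, ?_⟩
    obtain ⟨S, hS⟩ : ∃ S : Finset ℕ, S = (Icc 1 M).filter (fun m : ℕ => c * (A / Real.log M ^ D) ≤
      (#(Vr g A (xs (1 / 2) 2 (β + 1 / 2) m)) : ℝ)) := ⟨_, rfl⟩
    rw [← hS] at h1
    have h2 : #(S.erase M) ≤ #((Icc 1 M).filter (fun m : ℕ => c / 2 * (A / Real.log M ^ D) ≤
        (#(Vr g A ((2 * (m : ℝ) - 1 + 2 * β) ^ 2)) : ℝ))) := by
      apply card_le_card_of_injOn (fun m => m + 1)
      · intro m hm
        rw [mem_coe, mem_erase, hS, mem_filter, mem_Icc] at hm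
        obtain ⟨hmM, ⟨hm1, hm2⟩, hmP⟩ := hm
        have goal1 : m + 1 ∈ (Icc 1 M).filter (fun m : ℕ => c / 2 * (A / Real.log M ^ D) ≤
            (#(Vr g A ((2 * (m : ℝ) - 1 + 2 * β) ^ 2)) : ℝ)) := by
          rw [mem_filter, mem_Icc]
          refine ⟨⟨by omega, by omega⟩, ?_⟩
          have e : xs (1 / 2) 2 (β + 1 / 2) m = (2 * ((m + 1 : ℕ) : ℝ) - 1 + 2 * β) ^ 2 := by
            unfold xs
            push_cast
            congr 1
            ring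
          rw [← e]
          exact le_trans (mul_le_mul_of_nonneg_right (by linarith) (by positivity)) hmP
        exact goal1
      · intro x _ y _ hxy
        simp only at hxy
        omega
    have h3 : #S ≤ #(S.erase M) + 1 := by
      have := pred_card_le_card_erase (s := S) (a := M)
      omega
    have h4 : (#S : ℝ) ≤ (#((Icc 1 M).filter (fun m : ℕ => c / 2 * (A / Real.log M ^ D) ≤
        (#(Vr g A ((2 * (m : ℝ) - 1 + 2 * β) ^ 2)) : ℝ))) : ℝ) + 1 := by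
      have h5 := h3.trans (Nat.add_le_add_right h2 1)
      exact_mod_cast h5
    linarith

end Run7.h994.MC
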